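import Pool.Agent.R686.MU.Stm

/-! MU-COEF (MP_4aa539_al): a coefficient of a polynomial as a limit. -/

set_option autoImplicit false

namespace Pool.Agent.R686.MU

open Finset Filter Topology
open scoped BigOperators

theorem coef : S_COEF := by
  classical
  intro d m P i c hP
  have hterm : ∀ a ∈ P.support, Tendsto (fun t : ℕ => (((P.coeff a *
      ∏ j, ((Function.update (fun _ => c) i t : Fin d → ℕ) j : ℚ) ^ a j : ℚ)) : ℝ) / (t : ℝ) ^ m)
      atTop (𝓝 (if a = Finsupp.single i m then ((P.coeff a : ℚ) : ℝ) else 0)) := by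
    intro a ha
    have hsum : ∑ j, a j ≤ m := by
      have h1 := MvPolynomial.le_totalDegree ha
      rw [Finsupp.sum_fintype _ _ (fun _ => rfl)] at h1
      exact h1.trans hP
    have hai : a i ≤ m := (Finset.single_le_sum (fun j _ => Nat.zero_le (a j)) (mem_univ i)).trans
      hsum
    set Kc : ℝ := ∏ j ∈ univ.erase i, (c : ℝ) ^ a j with hKc
    have e1 : ∀ t : ℕ, (((P.coeff a *
        ∏ j, ((Function.update (fun _ => c) i t : Fin d → ℕ) j : ℚ) ^ a j : ℚ)) : ℝ) / (t : ℝ) ^ m =
        ((P.coeff a : ℚ) : ℝ) * Kc * ((t : ℝ) ^ a i / (t : ℝ) ^ m) := by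
      intro t
      rw [← mul_prod_erase univ _ (mem_univ i), Function.update_self]
      have e2 : ∏ j ∈ univ.erase i, ((Function.update (fun _ => c) i t : Fin d → ℕ) j : ℚ) ^ a j =
          ∏ j ∈ univ.erase i, (c : ℚ) ^ a j := by
        refine prod_congr rfl fun j hj => ?_
        rw [Function.update_of_ne (ne_of_mem_erase hj)]
      rw [e2]
      push_cast
      rw [← hKc]
      ring
    simp_rw [e1]
    by_cases hlt : a i < m
    · have h1 : Tendsto (fun t : ℕ => (t : ℝ) ^ a i / (t : ℝ) ^ m) atTop (𝓝 0) :=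
        (tendsto_pow_div_pow_atTop_zero hlt).comp tendsto_natCast_atTop_atTop
      have hne : a ≠ Finsupp.single i m := by
        rintro rfl
        rw [Finsupp.single_eq_same] at hlt
        exact lt_irrefl _ hlt
      rw [if_neg hne]
      have h2 := h1.const_mul (((P.coeff a : ℚ) : ℝ) * Kc)
      rwa [mul_zero] at h2
    · have haim : a i = m := le_antisymm hai (not_lt.1 hlt)
      have hz : ∀ j, j ≠ i → a j = 0 := by
        intro j hj
        have h1 := mul_prod_erase univ (fun _ : Fin d => (1 : ℕ)) (mem_univ i)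
        have h2 : a i + ∑ j ∈ univ.erase i, a j = ∑ j, a j := add_sum_erase univ _ (mem_univ i)
        have h3 : a j ≤ ∑ j ∈ univ.erase i, a j :=
          Finset.single_le_sum (fun j _ => Nat.zero_le (a j)) (mem_erase.2 ⟨hj, mem_univ j⟩)
        omega
      have heq : a = Finsupp.single i m := by
        ext j
        by_cases hj : j = i
        · rw [hj, Finsupp.single_eq_same, haim]
        · rw [hz j hj, Finsupp.single_eq_of_ne hj]
      rw [if_pos heq]
      have hK1 : Kc = 1 := by
        rw [hKc]
        refine prod_eq_one fun j hj => ?_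
        rw [hz j (ne_of_mem_erase hj), pow_zero]
      rw [hK1, mul_one, haim]
      have h1 : Tendsto (fun t : ℕ => (t : ℝ) ^ m / (t : ℝ) ^ m) atTop (𝓝 1) := by
        refine tendsto_const_nhds.congr' ?_
        filter_upwards [eventually_ge_atTop 1] with t ht
        have : (0 : ℝ) < t := by exact_mod_cast ht
        rw [div_self (by positivity)]
      have h2 := h1.const_mul ((P.coeff a : ℚ) : ℝ)
      rwa [mul_one] at h2
  have hsum := tendsto_finsetSum P.support hterm
  have e3 : ∑ a ∈ P.support, (if a = Finsupp.single i m then ((P.coeff a : ℚ) : ℝ) else 0) =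
      ((P.coeff (Finsupp.single i m) : ℚ) : ℝ) := by
    rw [Finset.sum_ite_eq' P.support (Finsupp.single i m) (fun a => ((P.coeff a : ℚ) : ℝ))]
    split_ifs with h
    · rfl
    · rw [MvPolynomial.notMem_support_iff.1 h]
      simp
  rw [e3] at hsum
  refine hsum.congr fun t => ?_
  rw [MvPolynomial.eval_eq', Rat.cast_sum, Finset.sum_div]

end Pool.Agent.R686.MU
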