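import Pool.Agent.R686.MU.Stm

/-!
MP_4aa539_al: bounds for convolutions.
-/

set_option autoImplicit false

namespace Pool.Agent.R686.MU

open Finset

theorem sum_choose (m l n : ℕ) :
    ∑ p ∈ antidiagonal n, ((m + p.1).choose m : ℝ) * ((l + p.2).choose l : ℝ) =
      ((m + l + 1 + n).choose (m + l + 1) : ℝ) := by
  have h1 := congrArg Units.val (PowerSeries.invOneSubPow_add (S := ℝ) (m + 1) (l + 1))
  rw [show m + 1 + (l + 1) = (m + l + 1) + 1 by ring, Units.val_mul,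
    PowerSeries.invOneSubPow_val_succ_eq_mk_add_choose,
    PowerSeries.invOneSubPow_val_succ_eq_mk_add_choose,
    PowerSeries.invOneSubPow_val_succ_eq_mk_add_choose] at h1
  have h2 := congrArg (PowerSeries.coeff n) h1
  rw [PowerSeries.coeff_mk, PowerSeries.coeff_mul] at h2
  rw [h2]
  refine sum_congr rfl fun p _ => ?_
  rw [PowerSeries.coeff_mk, PowerSeries.coeff_mk]

theorem sum_shift (F : ℕ × ℕ → ℝ) (hF : ∀ p, 0 ≤ F p) (a b n : ℕ) :
    ∑ p ∈ antidiagonal n, F (p.1 + a, p.2 + b) ≤ ∑ p ∈ antidiagonal (n + a + b), F p := by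
  let φ : ℕ × ℕ ↪ ℕ × ℕ := ⟨fun p => (p.1 + a, p.2 + b), by
    rintro ⟨x, y⟩ ⟨x', y'⟩ h
    simp only [Prod.mk.injEq, add_left_inj] at h
    exact Prod.ext h.1 h.2⟩
  have h1 : ∑ p ∈ antidiagonal n, F (p.1 + a, p.2 + b) = ∑ p ∈ (antidiagonal n).map φ, F p := by
    rw [sum_map]
    rfl
  rw [h1]
  refine sum_le_sum_of_subset_of_nonneg ?_ fun p _ _ => hF p
  intro p hp
  rw [mem_map] at hp
  obtain ⟨q, hq, rfl⟩ := hp
  rw [Finset.HasAntidiagonal.mem_antidiagonal] at hq ⊢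
  show q.1 + a + (q.2 + b) = n + a + b
  omega

theorem pow_le (m n : ℕ) : ((n : ℕ) : ℝ) ^ m / (m.factorial : ℝ) ≤ ((m + n).choose m : ℝ) := by
  refine le_trans ?_ (Nat.pow_le_choose m (m + n))
  have : (n : ℝ) ≤ ((m + n + 1 - m : ℕ) : ℝ) := by
    exact_mod_cast (by omega : n ≤ m + n + 1 - m)
  gcongr

theorem cu : S_CU := by
  rintro f g m l α β hf hg hα hβ ⟨C, hC⟩ ⟨C', hC'⟩
  refine ⟨C + C' + (m + l + 1), fun s => ?_⟩
  have h1 : conv f g s ≤ ∑ p ∈ antidiagonal s, (α * β) *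
      (((m + (p.1 + C)).choose m : ℝ) * ((l + (p.2 + C')).choose l : ℝ)) := by
    refine sum_le_sum fun p _ => ?_
    have h2 : f p.1 ≤ α * ((m + (p.1 + C)).choose m : ℝ) := by
      refine le_trans (hC p.1) ?_
      rw [mul_div_assoc]
      exact mul_le_mul_of_nonneg_left (pow_le m _) hα
    have h3 : g p.2 ≤ β * ((l + (p.2 + C')).choose l : ℝ) := by
      refine le_trans (hC' p.2) ?_
      rw [mul_div_assoc]
      exact mul_le_mul_of_nonneg_left (pow_le l _) hβ
    calc f p.1 * g p.2 ≤ (α * ((m + (p.1 + C)).choose m : ℝ)) * (β * ((l + (p.2 + C')).choose l : ℝ)) :=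
          mul_le_mul h2 h3 (hg _) (by positivity)
      _ = _ := by ring
  refine le_trans h1 ?_
  rw [← mul_sum, mul_div_assoc]
  refine mul_le_mul_of_nonneg_left ?_ (mul_nonneg hα hβ)
  refine le_trans (sum_shift (fun p => ((m + p.1).choose m : ℝ) * ((l + p.2).choose l : ℝ))
    (fun p => by positivity) C C' s) ?_
  rw [sum_choose]
  refine le_trans (Nat.choose_le_pow_div _ _) ?_
  have : ((m + l + 1 + (s + C + C') : ℕ) : ℝ) = ((s + (C + C' + (m + l + 1)) : ℕ) : ℝ) := by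
    congr 1
    omega
  rw [this]

theorem cl : S_CL := by
  rintro f g m l α β hf hg hα hβ ⟨C, hC⟩ ⟨C', hC'⟩
  refine ⟨C + C' + (m + l), fun s => ?_⟩
  have hnn : ∀ p : ℕ × ℕ, 0 ≤ f p.1 * g p.2 := fun p => mul_nonneg (hf _) (hg _)
  rcases lt_or_ge s (C + C' + (m + l)) with hs | hs
  · rw [Nat.sub_eq_zero_of_le hs.le, Nat.cast_zero, zero_pow (by omega), mul_zero, zero_div]
    exact sum_nonneg fun p _ => hnn p
  obtain ⟨n, rfl⟩ := Nat.exists_eq_add_of_le hs
  rw [Nat.add_sub_cancel_left]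
  have h0 : conv f g (C + C' + (m + l) + n) = ∑ p ∈ antidiagonal (n + (C + m) + (C' + l)), f p.1 * g p.2 := by
    rw [conv]
    congr 2
    omega
  rw [h0]
  refine le_trans ?_ (sum_shift (fun p => f p.1 * g p.2) hnn (C + m) (C' + l) n)
  have h1 : ∑ p ∈ antidiagonal n, (α * β) *
      (((m + p.1).choose m : ℝ) * ((l + p.2).choose l : ℝ)) ≤
      ∑ p ∈ antidiagonal n, f (p.1 + (C + m)) * g (p.2 + (C' + l)) := by
    refine sum_le_sum fun p _ => ?_
    have h2 : α * ((m + p.1).choose m : ℝ) ≤ f (p.1 + (C + m)) := by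
      refine le_trans ?_ (hC _)
      rw [mul_div_assoc]
      refine mul_le_mul_of_nonneg_left (le_trans (Nat.choose_le_pow_div _ _) ?_) hα
      have : p.1 + (C + m) - C = m + p.1 := by omega
      rw [this]
    have h3 : β * ((l + p.2).choose l : ℝ) ≤ g (p.2 + (C' + l)) := by
      refine le_trans ?_ (hC' _)
      rw [mul_div_assoc]
      refine mul_le_mul_of_nonneg_left (le_trans (Nat.choose_le_pow_div _ _) ?_) hβ
      have : p.2 + (C' + l) - C' = l + p.2 := by omega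
      rw [this]
    calc (α * β) * (((m + p.1).choose m : ℝ) * ((l + p.2).choose l : ℝ)) =
          (α * ((m + p.1).choose m : ℝ)) * (β * ((l + p.2).choose l : ℝ)) := by ring
      _ ≤ _ := mul_le_mul h2 h3 (by positivity) (hf _)
  refine le_trans ?_ h1
  rw [← mul_sum, sum_choose, mul_div_assoc]
  exact mul_le_mul_of_nonneg_left (pow_le _ _) (mul_nonneg hα hβ)

end Pool.Agent.R686.MU
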