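import Pool.Agent.R686.MU.Stm

/-!
MP_4aa539_al: cyclic arrangement lemma.
-/

set_option autoImplicit false

namespace Pool.Agent.R686.MU

open Finset

theorem cyc : S_CYC := by
  classical
  intro W _ _ r k t cl x hcl hsum
  have hcard : Fintype.card (Σ v : W, Fin (x v)) = k * t := by
    rw [Fintype.card_sigma, ← hsum]
    simp
  let e0 : Fin (k * t) ≃ (Σ v : W, Fin (x v)) := (Fintype.equivFinOfCardEq hcard).symm
  let G : Fin (k * t) → Fin r := fun n => cl (e0 n).1
  let e : Fin (k * t) ≃ (Σ v : W, Fin (x v)) := (Tuple.sort G).trans e0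
  let P : Fin (k * t) → W := fun n => (e n).1
  have hmono : Monotone fun n => cl (P n) := Tuple.monotone_sort G
  have hnum : ∀ i, (univ.filter (fun n => cl (P n) = i)).card ≤ t := by
    intro i
    refine le_trans (le_of_eq ?_) (hcl i)
    have h1 : (univ.filter (fun n => cl (P n) = i)).card =
        (univ.filter (fun τ : (Σ v : W, Fin (x v)) => cl τ.1 = i)).card := by
      refine Finset.card_equiv e fun n => ?_
      simp only [mem_filter, mem_univ, true_and]
      rfl
    have h2 : univ.filter (fun τ : (Σ v : W, Fin (x v)) => cl τ.1 = i) =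
        (univ.filter (fun v => cl v = i)).sigma (fun v => (univ : Finset (Fin (x v)))) := by
      ext τ
      simp
    rw [h1, h2, card_sigma]
    simp
  let Q : Fin k × Fin t ≃ Fin (k * t) := finProdFinEquiv
  have hQ : ∀ (a : Fin k) (j : Fin t), ((Q (a, j) : Fin (k * t)) : ℕ) = j + t * a := fun a j => rfl
  have key : ∀ (j : Fin t) (a b : Fin k), a < b → cl (P (Q (a, j))) ≠ cl (P (Q (b, j))) := by
    intro j a b hab heq
    have hlt : (a : ℕ) < b := hab
    have hb : ((Q (b, j) : Fin (k * t)) : ℕ) = j + t * b := hQ b j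
    have hbt : t * (a : ℕ) + t ≤ t * b := by
      have : t * ((a : ℕ) + 1) ≤ t * b := Nat.mul_le_mul_left t hlt
      linarith
    have hbnd : ∀ c : Fin (t + 1), (j : ℕ) + t * a + c < k * t := by
      intro c
      have h1 := (Q (b, j)).2
      rw [hb] at h1
      have h2 := c.2
      omega
    have h1 : (univ : Finset (Fin (t + 1))).card ≤
        (univ.filter (fun n => cl (P n) = cl (P (Q (a, j))))).card := by
      refine Finset.card_le_card_of_injOn (fun c => ⟨(j : ℕ) + t * a + c, hbnd c⟩) ?_ ?_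
      · intro c _
        simp only [coe_filter, mem_univ, true_and, Set.mem_ofPred_eq]
        have h2 : Q (a, j) ≤ ⟨(j : ℕ) + t * a + c, hbnd c⟩ := by
          rw [Fin.le_def, hQ]
          exact Nat.le_add_right _ _
        have h3 : (⟨(j : ℕ) + t * a + c, hbnd c⟩ : Fin (k * t)) ≤ Q (b, j) := by
          rw [Fin.le_def, hb]
          have := c.2
          show (j : ℕ) + t * a + c ≤ j + t * b
          omega
        have h4 := hmono h2
        have h5 := hmono h3
        refine le_antisymm ?_ h4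
        rw [heq]
        exact h5
      · intro c _ c' _ h
        have := Fin.mk.inj h
        exact Fin.ext (by omega)
    rw [card_univ, Fintype.card_fin] at h1
    have := hnum (cl (P (Q (a, j))))
    omega
  have hinj : ∀ (j : Fin t) (a b : Fin k), cl (P (Q (a, j))) = cl (P (Q (b, j))) → a = b := by
    intro j a b h
    rcases lt_trichotomy a b with h1 | h1 | h1
    · exact absurd h (key j a b h1)
    · exact h1
    · exact absurd h.symm (key j b a h1)
  refine ⟨fun j => univ.image (fun a : Fin k => P (Q (a, j))), fun j => ⟨?_, ?_⟩, fun v => ?_⟩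
  · rw [card_image_of_injective, card_univ, Fintype.card_fin]
    intro a b h
    exact hinj j a b (congrArg cl h)
  · intro w hw w' hw' h
    rw [mem_coe, mem_image] at hw hw'
    obtain ⟨a, -, rfl⟩ := hw
    obtain ⟨b, -, rfl⟩ := hw'
    rw [hinj j a b h]
  · have hmem : ∀ y : Fin (x v), v ∈ univ.image
        (fun a : Fin k => P (Q (a, (Q.symm (e.symm ⟨v, y⟩)).2))) := by
      intro y
      rw [mem_image]
      refine ⟨(Q.symm (e.symm ⟨v, y⟩)).1, mem_univ _, ?_⟩
      show (e (Q ((Q.symm (e.symm ⟨v, y⟩)).1, (Q.symm (e.symm ⟨v, y⟩)).2))).1 = v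
      rw [Prod.mk.eta, Equiv.apply_symm_apply, Equiv.apply_symm_apply]
    let φ : Fin (x v) → {j : Fin t // v ∈ univ.image (fun a : Fin k => P (Q (a, j)))} :=
      fun y => ⟨(Q.symm (e.symm ⟨v, y⟩)).2, hmem y⟩
    have hφi : Function.Injective φ := by
      intro y y' h
      have h1 : (Q.symm (e.symm ⟨v, y⟩)).2 = (Q.symm (e.symm ⟨v, y'⟩)).2 := congrArg Subtype.val h
      have hP : ∀ y : Fin (x v), P (Q ((Q.symm (e.symm ⟨v, y⟩)).1, (Q.symm (e.symm ⟨v, y⟩)).2)) = v := by
        intro y
        show (e (Q ((Q.symm (e.symm ⟨v, y⟩)).1, (Q.symm (e.symm ⟨v, y⟩)).2))).1 = v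
        rw [Prod.mk.eta, Equiv.apply_symm_apply, Equiv.apply_symm_apply]
      have h2 : (Q.symm (e.symm ⟨v, y⟩)).1 = (Q.symm (e.symm ⟨v, y'⟩)).1 := by
        apply hinj (Q.symm (e.symm ⟨v, y⟩)).2
        rw [hP y, h1, hP y']
      have h3 : Q.symm (e.symm ⟨v, y⟩) = Q.symm (e.symm ⟨v, y'⟩) := Prod.ext h2 h1
      have h4 := e.symm.injective (Q.symm.injective h3)
      exact eq_of_heq (Sigma.mk.inj h4).2
    have hφs : Function.Surjective φ := by
      rintro ⟨j, hj⟩
      rw [mem_image] at hj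
      obtain ⟨a, -, ha⟩ := hj
      have ha' : (e (Q (a, j))).1 = v := ha
      obtain ⟨τ, hτ⟩ : ∃ τ, e (Q (a, j)) = τ := ⟨_, rfl⟩
      rw [hτ] at ha'
      obtain ⟨v', y⟩ := τ
      have hv : v' = v := ha'
      clear ha'
      have hy : ∃ y' : Fin (x v), e (Q (a, j)) = ⟨v, y'⟩ := by
        rw [← hv]
        exact ⟨y, hτ⟩
      obtain ⟨y', hy'⟩ := hy
      refine ⟨y', Subtype.ext ?_⟩
      show (Q.symm (e.symm ⟨v, y'⟩)).2 = j
      rw [← hy', Equiv.symm_apply_apply, Equiv.symm_apply_apply]
    rw [← Nat.card_congr (Equiv.ofBijective φ ⟨hφi, hφs⟩), Nat.card_eq_fintype_card,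
      Fintype.card_fin]

end Pool.Agent.R686.MU
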