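import Mathlib

/-!
# Mixed multiplicities of skeleta: definitions (MP_4aa539_al)
-/

set_option autoImplicit false

namespace Pool.Agent.R686.MU

open Finset
open scoped BigOperators

/-- `Δ` is (the set of faces of) a pure simplicial complex of dimension `d` whose vertex set is all
of `V`. -/
structure IsPureComplex {V : Type} (d : ℕ) (Δ : Finset (Finset V)) : Prop where
  down : ∀ F ∈ Δ, ∀ G : Finset V, G ⊆ F → G ∈ Δ
  vertex : ∀ v : V, {v} ∈ Δ
  pure : ∀ F ∈ Δ, ∃ G ∈ Δ, F ⊆ G ∧ G.card = d + 1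

/-- the ideal generated by the squarefree monomials of the `i`-dimensional faces of `Δ` -/
noncomputable def skelIdeal (K : Type) [Field K] {V : Type} (Δ : Finset (Finset V)) (i : ℕ) :
    Ideal (MvPolynomial V K) :=
  Ideal.span {f | ∃ F ∈ Δ, F.card = i + 1 ∧ f = ∏ v ∈ F, (MvPolynomial.X v : MvPolynomial V K)}

/-- the ideal generated by the variables -/
noncomputable def maxIdeal (K : Type) [Field K] (V : Type) : Ideal (MvPolynomial V K) :=
  Ideal.span (Set.range (MvPolynomial.X : V → MvPolynomial V K))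

/-- `J^u = 𝔪^(u 0) I_1^(u 1) ⋯ I_(d-1)^(u (d-1))` -/
noncomputable def J (K : Type) [Field K] {V : Type} (d : ℕ) (Δ : Finset (Finset V))
    (u : Fin d → ℕ) : Ideal (MvPolynomial V K) :=
  ∏ i : Fin d, (if (i : ℕ) = 0 then maxIdeal K V else skelIdeal K Δ i) ^ u i

/-- `dim_K (J^u / 𝔪 J^u)` -/
noncomputable def fiberDim (K : Type) [Field K] {V : Type} (d : ℕ) (Δ : Finset (Finset V))
    (u : Fin d → ℕ) : ℕ :=
  Module.finrank K (↥(J K d Δ u) ⧸
    (maxIdeal K V • (⊤ : Submodule (MvPolynomial V K) ↥(J K d Δ u))))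

/-- `e` is the family of the mixed multiplicities `e_a(𝔪 | I_1, …, I_(d-1))`, `|a| = n - 1`,
`n = |V|` -/
def IsMixedMult (K : Type) [Field K] {V : Type} [Fintype V] (d : ℕ) (Δ : Finset (Finset V))
    (e : (Fin d →₀ ℕ) → ℚ) : Prop :=
  ∃ P : MvPolynomial (Fin d) ℚ, P.totalDegree ≤ Fintype.card V - 1 ∧
    (∃ N : ℕ, ∀ u : Fin d → ℕ, (∀ i, N ≤ u i) →
      (fiberDim K d Δ u : ℚ) = MvPolynomial.eval (fun i => (u i : ℚ)) P) ∧
    ∀ a : Fin d →₀ ℕ, (∑ i, a i) = Fintype.card V - 1 →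
      P.coeff a = e a / ∏ i, ((a i).factorial : ℚ)

/-- `A(i, Δ)` -/
noncomputable def A {V : Type} [Fintype V] {d : ℕ} (e : (Fin d →₀ ℕ) → ℚ) (i : Fin d) : ℚ :=
  e (Finsupp.single i (Fintype.card V - 1))

/-! ## combinatorial side -/

/-- the vectors which are sums of the indicator vectors of `u i` faces with `i + 1` elements,
`i < d` -/
def S {V : Type} (d : ℕ) (Δ : Finset (Finset V)) (u : Fin d → ℕ) : Set (V → ℕ) :=
  {x | ∃ f : (i : Fin d) → Fin (u i) → Finset V,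
    (∀ i j, f i j ∈ Δ ∧ (f i j).card = (i : ℕ) + 1) ∧
    ∀ v, x v = ∑ i, Nat.card {j : Fin (u i) // v ∈ f i j}}

/-- the vectors which are sums of the indicator vectors of `t` faces with `k` elements -/
def Sums {W : Type} (Γ : Finset (Finset W)) (k t : ℕ) : Set (W → ℕ) :=
  {x | ∃ f : Fin t → Finset W, (∀ j, f j ∈ Γ ∧ (f j).card = k) ∧
    ∀ v, x v = Nat.card {j : Fin t // v ∈ f j}}

/-- vertices of the main component: `U` (`p` elements), `W` (`3 p - 2` elements), `Z` (4 elements) -/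
abbrev V0 (p : ℕ) : Type := Fin p ⊕ Fin (3 * p - 2) ⊕ Fin 4

/-- all vertices: the main component and `M` simplices with 6 vertices -/
abbrev VV (M p : ℕ) : Type := V0 p ⊕ (Fin M × Fin 6)

open Classical in
/-- faces of the main component: at most six vertices all in `U`; or at most one vertex in `U` and at
most one in `W` (and any vertices in `Z`) -/
noncomputable def D0 (p : ℕ) : Finset (Finset (V0 p)) :=
  univ.filter fun F => (F.card ≤ 6 ∧ ∀ v ∈ F, ∃ u, v = Sum.inl u) ∨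
    ((∀ u u', Sum.inl u ∈ F → Sum.inl u' ∈ F → u = u') ∧
      ∀ w w', Sum.inr (Sum.inl w) ∈ F → Sum.inr (Sum.inl w') ∈ F → w = w')

open Classical in
/-- the complex: disjoint union of the main component and `M` simplices of dimension 5 -/
noncomputable def DD (M p : ℕ) : Finset (Finset (VV M p)) :=
  univ.filter fun F => (∃ G ∈ D0 p, F = G.map Function.Embedding.inl) ∨
    ∃ j : Fin M, ∀ v ∈ F, ∃ i, v = Sum.inr (j, i)

/-- all the nonempty subsets of a set with 6 elements -/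
def D6 : Finset (Finset (Fin 6)) := univ

/-- number of sums of `t` faces with `k` elements in the main component -/
noncomputable def g0 (p k : ℕ) (t : ℕ) : ℝ := (Sums (D0 p) k t).ncard

/-- number of sums of `t` sets with `k` elements in a simplex with 6 vertices -/
noncomputable def g6 (k : ℕ) (t : ℕ) : ℝ := (Sums D6 k t).ncard

/-- upper bound region, main component, total `s` -/
noncomputable def F0 (p c : ℕ) (s : ℕ) : ℝ :=
  ({x : V0 p → ℕ | ∑ v, x v = s ∧
    (∑ u, x (Sum.inl u)) + 3 * (∑ w, x (Sum.inr (Sum.inl w))) ≤ s + 33 * c}.ncard : ℝ)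

/-- upper bound region, simplex, total `s` -/
noncomputable def G6 (c : ℕ) (s : ℕ) : ℝ :=
  ({x : Fin 6 → ℕ | ∑ v, x v = s ∧ ∀ i, 4 * x i ≤ s + 44 * c}.ncard : ℝ)

/-- convolution -/
def conv (f g : ℕ → ℝ) (n : ℕ) : ℝ := ∑ ij ∈ antidiagonal n, f ij.1 * g ij.2

/-- `f * g * ⋯ * g`, with `M` factors `g` -/
def cp (f g : ℕ → ℝ) : ℕ → (ℕ → ℝ)
  | 0 => f
  | M + 1 => conv (cp f g M) g

/-- `f s ≤ α (s + C)^m / m!` -/
def UB (f : ℕ → ℝ) (m : ℕ) (α : ℝ) : Prop :=
  ∃ C : ℕ, ∀ s : ℕ, f s ≤ α * ((s + C : ℕ) : ℝ) ^ m / (m.factorial : ℝ)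

/-- `α (s - C)^m / m! ≤ f s` (truncated subtraction) -/
def LB (f : ℕ → ℝ) (m : ℕ) (α : ℝ) : Prop :=
  ∃ C : ℕ, ∀ s : ℕ, α * ((s - C : ℕ) : ℝ) ^ m / (m.factorial : ℝ) ≤ f s

/-- `(4p+1)! / ((p-1)! (3p-3)!)` -/
noncomputable def R (p : ℕ) : ℝ :=
  ((4 * p + 1).factorial : ℝ) / (((p - 1).factorial : ℝ) * ((3 * p - 3).factorial : ℝ))

/-- `κ = (5/4) (15/16)^3 = 1.0299…` -/
noncomputable def κ : ℝ := 16875 / 16384

end Pool.Agent.R686.MU
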