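import Pool.Agent.R686.MU.StmEx

/-!
# Mixed multiplicities of skeleta (MP_4aa539_al): piece EX1

The number of sums of faces is eventually a polynomial: term order, Dickson's lemma and induction on
the number of minimal forbidden vectors.
-/

set_option autoImplicit false

namespace Pool.Agent.R686.MU.Ex1P

open Finset
open scoped BigOperators

/-- eventually a polynomial -/
def EvPoly {d : ℕ} (h : (Fin d → ℕ) → ℚ) : Prop :=
  ∃ (P : MvPolynomial (Fin d) ℚ) (N : ℕ), ∀ u : Fin d → ℕ, (∀ i, N ≤ u i) →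
    h u = MvPolynomial.eval (fun i => (u i : ℚ)) P

variable {d : ℕ}

theorem EvPoly.congr {h h' : (Fin d → ℕ) → ℚ} (H : EvPoly h) (N : ℕ)
    (hh : ∀ u : Fin d → ℕ, (∀ i, N ≤ u i) → h' u = h u) : EvPoly h' := by
  obtain ⟨P, M, hP⟩ := H
  refine ⟨P, max N M, fun u hu => ?_⟩
  rw [hh u fun i => (le_max_left N M).trans (hu i), hP u fun i => (le_max_right N M).trans (hu i)]

theorem EvPoly.sub {h h' : (Fin d → ℕ) → ℚ} (H : EvPoly h) (H' : EvPoly h') :
    EvPoly fun u => h u - h' u := by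
  obtain ⟨P, N, hP⟩ := H
  obtain ⟨Q, M, hQ⟩ := H'
  refine ⟨P - Q, max N M, fun u hu => ?_⟩
  beta_reduce
  rw [map_sub, hP u fun i => (le_max_left N M).trans (hu i),
    hQ u fun i => (le_max_right N M).trans (hu i)]

theorem EvPoly.one : EvPoly fun _ : Fin d → ℕ => (1 : ℚ) :=
  ⟨1, 0, fun u _ => by rw [map_one]⟩

theorem EvPoly.mul {h h' : (Fin d → ℕ) → ℚ} (H : EvPoly h) (H' : EvPoly h') :
    EvPoly fun u => h u * h' u := by
  obtain ⟨P, N, hP⟩ := H
  obtain ⟨Q, M, hQ⟩ := H'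
  refine ⟨P * Q, max N M, fun u hu => ?_⟩
  beta_reduce
  rw [map_mul, hP u fun i => (le_max_left N M).trans (hu i),
    hQ u fun i => (le_max_right N M).trans (hu i)]

theorem EvPoly.prod {ι : Type} (s : Finset ι) {h : ι → (Fin d → ℕ) → ℚ}
    (H : ∀ i, EvPoly (h i)) : EvPoly fun u => ∏ i ∈ s, h i u := by
  classical
  induction s using Finset.induction_on with
  | empty => simpa using EvPoly.one
  | insert a s ha ih =>
    refine ((H a).mul ih).congr 0 fun u _ => ?_
    rw [Finset.prod_insert ha]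

theorem EvPoly.shift {h : (Fin d → ℕ) → ℚ} (H : EvPoly h) (w : Fin d → ℕ) :
    EvPoly fun u => h fun i => u i - w i := by
  obtain ⟨P, N, hP⟩ := H
  refine ⟨MvPolynomial.bind₁ (fun i => MvPolynomial.X i - MvPolynomial.C (w i : ℚ)) P,
    N + ∑ i, w i, fun u hu => ?_⟩
  have h1 : ∀ i, w i ≤ ∑ i, w i := fun i =>
    Finset.single_le_sum (fun _ _ => Nat.zero_le _) (Finset.mem_univ i)
  have h2 : ∀ i, w i ≤ u i := fun i => by
    have := h1 i
    have := hu i
    omega
  beta_reduce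
  rw [hP _ fun i => by
    have := h1 i
    have := hu i
    omega]
  have h3 : (MvPolynomial.eval fun i => (u i : ℚ))
      (MvPolynomial.bind₁ (fun i => MvPolynomial.X i - MvPolynomial.C (w i : ℚ)) P) =
      MvPolynomial.eval (fun i => MvPolynomial.eval (fun i => (u i : ℚ))
        (MvPolynomial.X i - MvPolynomial.C (w i : ℚ))) P :=
    MvPolynomial.eval₂Hom_bind₁ (RingHom.id ℚ) _ _ _
  rw [h3]
  have h4 : (fun i => ((u i - w i : ℕ) : ℚ)) = fun i => MvPolynomial.eval (fun i => (u i : ℚ))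
        (MvPolynomial.X i - MvPolynomial.C (w i : ℚ)) := by
    funext i
    rw [map_sub, MvPolynomial.eval_X, MvPolynomial.eval_C, Nat.cast_sub (h2 i)]
  rw [h4]

theorem EvPoly.one_var (i : Fin d) (q : Polynomial ℚ) (N : ℕ) (f : ℕ → ℚ)
    (hf : ∀ n, N ≤ n → f n = q.eval (n : ℚ)) : EvPoly fun u => f (u i) := by
  refine ⟨Polynomial.aeval (MvPolynomial.X i) q, N, fun u hu => ?_⟩
  beta_reduce
  rw [hf _ (hu i), Polynomial.aeval_def, Polynomial.hom_eval₂, MvPolynomial.eval_X]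
  have h1 : (MvPolynomial.eval fun i => (u i : ℚ)).comp (algebraMap ℚ (MvPolynomial (Fin d) ℚ)) =
      RingHom.id ℚ := RingHom.ext fun x => by
    rw [RingHom.comp_apply, MvPolynomial.algebraMap_eq, MvPolynomial.eval_C, RingHom.id_apply]
  rw [h1, Polynomial.eval₂_id]

theorem multichoose_poly (g : ℕ) : ∃ q : Polynomial ℚ, ∀ n : ℕ, 1 ≤ n →
    ((g.multichoose n : ℕ) : ℚ) = q.eval (n : ℚ) := by
  rcases g with _ | g
  · refine ⟨0, fun n hn => ?_⟩
    obtain ⟨m, rfl⟩ : ∃ m, n = m + 1 := ⟨n - 1, by omega⟩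
    rw [Nat.multichoose_zero_succ, Polynomial.eval_zero, Nat.cast_zero]
  · refine ⟨Polynomial.preHilbertPoly ℚ g 0, fun n _ => ?_⟩
    rw [Polynomial.preHilbertPoly_eq_choose_sub_add ℚ g (Nat.zero_le n), Nat.multichoose_eq]
    have h1 : g + 1 + n - 1 = n + g := by omega
    rw [h1, Nat.sub_zero, Nat.choose_symm_add]

section

variable {G : Fin d → Type} [∀ i, Fintype (G i)]

/-- the multidegree -/
def deg (a : (Σ i, G i) → ℕ) : Fin d → ℕ := fun i => ∑ g : G i, a ⟨i, g⟩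

theorem deg_add (a b : (Σ i, G i) → ℕ) : deg (a + b) = deg a + deg b := by
  funext i
  simp only [deg, Pi.add_apply, Finset.sum_add_distrib]

theorem finite_deg (u : Fin d → ℕ) : {a : (Σ i, G i) → ℕ | deg a = u}.Finite := by
  classical
  refine (Set.finite_Icc (0 : (Σ i, G i) → ℕ) fun p => u p.1).subset ?_
  intro a ha
  refine ⟨fun p => Nat.zero_le _, fun p => ?_⟩
  rw [← (ha : deg a = u)]
  exact Finset.single_le_sum (f := fun g => a ⟨p.1, g⟩) (fun _ _ => Nat.zero_le _)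
    (Finset.mem_univ p.2)

theorem card_deg (u : Fin d → ℕ) : {a : (Σ i, G i) → ℕ | deg a = u}.ncard =
    ∏ i, (Fintype.card (G i)).multichoose (u i) := by
  classical
  have e : {a : (Σ i, G i) → ℕ // deg a = u} ≃
      ((i : Fin d) → {b : G i → ℕ // ∑ g, b g = u i}) :=
    { toFun := fun a i => ⟨fun g => a.1 ⟨i, g⟩, congrFun a.2 i⟩
      invFun := fun b => ⟨fun p => (b p.1).1 p.2, funext fun i => (b i).2⟩
      left_inv := fun a => rfl
      right_inv := fun b => rfl }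
  have h1 : {a : (Σ i, G i) → ℕ | deg a = u}.ncard = Nat.card {a : (Σ i, G i) → ℕ // deg a = u} :=
    rfl
  rw [h1, Nat.card_congr e, Nat.card_pi]
  refine Finset.prod_congr rfl fun i _ => ?_
  rw [← Nat.card_congr (Sym.equivNatSumOfFintype (G i) (u i)), Nat.card_eq_fintype_card,
    Sym.card_sym_eq_multichoose]

theorem evPoly_card : EvPoly fun u : Fin d → ℕ =>
    (({a : (Σ i, G i) → ℕ | deg a = u}.ncard : ℕ) : ℚ) := by
  have h1 : EvPoly fun u : Fin d → ℕ =>
      ∏ i, (((Fintype.card (G i)).multichoose (u i) : ℕ) : ℚ) := by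
    refine EvPoly.prod _ fun i => ?_
    obtain ⟨q, hq⟩ := multichoose_poly (Fintype.card (G i))
    exact EvPoly.one_var i q 1 (fun n => (((Fintype.card (G i)).multichoose n : ℕ) : ℚ)) hq
  refine h1.congr 0 fun u _ => ?_
  rw [card_deg, Nat.cast_prod]

theorem evPoly_cnt (T : Finset ((Σ i, G i) → ℕ)) : ∀ w : (Σ i, G i) → ℕ,
    EvPoly fun u : Fin d → ℕ =>
      (({a : (Σ i, G i) → ℕ | deg a = u ∧ w ≤ a ∧ ∀ t ∈ T, ¬ t ≤ a}.ncard : ℕ) : ℚ) := by
  classical
  induction T using Finset.induction_on with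
  | empty =>
    intro w
    refine ((evPoly_card (G := G)).shift (deg w)).congr (∑ i, deg w i) fun u hu => ?_
    have h1 : ∀ i, deg w i ≤ u i := fun i =>
      (Finset.single_le_sum (fun _ _ => Nat.zero_le _) (Finset.mem_univ i)).trans (hu i)
    have h2 : {a : (Σ i, G i) → ℕ | deg a = u ∧ w ≤ a ∧
        ∀ t ∈ (∅ : Finset ((Σ i, G i) → ℕ)), ¬ t ≤ a} =
        (fun a => w + a) '' {a : (Σ i, G i) → ℕ | deg a = fun i => u i - deg w i} := by
      ext a
      constructor
      · rintro ⟨h3, h4, -⟩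
        refine ⟨a - w, ?_, add_tsub_cancel_of_le h4⟩
        have h5 := deg_add w (a - w)
        rw [add_tsub_cancel_of_le h4, h3] at h5
        show deg (a - w) = _
        funext i
        have h6 := congrFun h5 i
        rw [Pi.add_apply] at h6
        omega
      · rintro ⟨b, hb, rfl⟩
        refine ⟨?_, fun p => Nat.le_add_right _ _, fun t ht => absurd ht (Finset.notMem_empty t)⟩
        show deg (w + b) = u
        rw [deg_add, (hb : deg b = _)]
        funext i
        have := h1 i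
        rw [Pi.add_apply]
        omega
    rw [h2, Set.ncard_image_of_injective _ (add_right_injective w)]
  | insert t T ht ih =>
    intro w
    refine ((ih w).sub (ih (w ⊔ t))).congr 0 fun u _ => ?_
    have h1 : {a : (Σ i, G i) → ℕ | deg a = u ∧ w ⊔ t ≤ a ∧ ∀ t ∈ T, ¬ t ≤ a} ⊆
        {a | deg a = u ∧ w ≤ a ∧ ∀ t ∈ T, ¬ t ≤ a} := by
      rintro a ⟨h2, h3, h4⟩
      exact ⟨h2, le_sup_left.trans h3, h4⟩
    have h2 := Set.ncard_sdiff_add_ncard_of_subset h1
      ((finite_deg u).subset fun a ha => ha.1)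
    have h3 : {a : (Σ i, G i) → ℕ | deg a = u ∧ w ≤ a ∧ ∀ s ∈ insert t T, ¬ s ≤ a} =
        {a | deg a = u ∧ w ≤ a ∧ ∀ t ∈ T, ¬ t ≤ a} \
          {a | deg a = u ∧ w ⊔ t ≤ a ∧ ∀ t ∈ T, ¬ t ≤ a} := by
      ext a
      constructor
      · rintro ⟨h4, h5, h6⟩
        refine ⟨⟨h4, h5, fun s hs => h6 s (Finset.mem_insert_of_mem hs)⟩, fun h7 => ?_⟩
        exact h6 t (Finset.mem_insert_self t T) (le_sup_right.trans h7.2.1)
      · rintro ⟨⟨h4, h5, h6⟩, h7⟩
        refine ⟨h4, h5, fun s hs => ?_⟩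
        rcases Finset.mem_insert.1 hs with rfl | hs
        · intro h8
          exact h7 ⟨h4, sup_le h5 h8, h6⟩
        · exact h6 s hs
    rw [h3]
    have h4 : (({a : (Σ i, G i) → ℕ | deg a = u ∧ w ≤ a ∧ ∀ t ∈ T, ¬ t ≤ a} \
          {a | deg a = u ∧ w ⊔ t ≤ a ∧ ∀ t ∈ T, ¬ t ≤ a}).ncard : ℚ) +
        (({a : (Σ i, G i) → ℕ | deg a = u ∧ w ⊔ t ≤ a ∧ ∀ t ∈ T, ¬ t ≤ a}.ncard : ℕ) : ℚ) =
        (({a : (Σ i, G i) → ℕ | deg a = u ∧ w ≤ a ∧ ∀ t ∈ T, ¬ t ≤ a}.ncard : ℕ) : ℚ) := by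
      exact_mod_cast h2
    linarith

/-- **Main counting theorem.** -/
theorem evPoly_image {M : Type} [AddCommMonoid M] (val : ((Σ i, G i) → ℕ) →+ M) :
    EvPoly fun u : Fin d → ℕ => (((val '' {a | deg a = u}).ncard : ℕ) : ℚ) := by
  classical
  obtain ⟨n, ⟨e⟩⟩ : ∃ n, Nonempty ((Σ i, G i) ≃ Fin n) := ⟨_, ⟨Fintype.equivFin _⟩⟩
  obtain ⟨lex, hlexd⟩ : ∃ lex : ((Σ i, G i) → ℕ) → Lex (Fin n → ℕ),
      lex = fun a => toLex fun j => a (e.symm j) := ⟨_, rfl⟩
  have hladd : ∀ a b, lex (a + b) = lex a + lex b := by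
    intro a b
    rw [hlexd]
    rfl
  have hlinj : Function.Injective lex := by
    intro a b hab
    rw [hlexd] at hab
    funext p
    have h1 := congrFun (toLex.injective hab) (e p)
    simpa using h1
  obtain ⟨Bad, hBad⟩ : ∃ Bad : Set ((Σ i, G i) → ℕ),
      Bad = {a | ∃ b, deg b = deg a ∧ val b = val a ∧ lex b < lex a} := ⟨_, rfl⟩
  have hup : ∀ a ∈ Bad, ∀ a', a ≤ a' → a' ∈ Bad := by
    intro a ha a' haa'
    rw [hBad] at ha ⊢
    obtain ⟨b, h1, h2, h3⟩ := ha
    refine ⟨b + (a' - a), ?_, ?_, ?_⟩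
    · rw [deg_add, h1, ← deg_add, add_tsub_cancel_of_le haa']
    · rw [map_add, h2, ← map_add, add_tsub_cancel_of_le haa']
    · have h4 : lex a' = lex a + lex (a' - a) := by
        rw [← hladd, add_tsub_cancel_of_le haa']
      rw [hladd, h4]
      exact add_lt_add_left h3 _
  -- Dickson
  have hpwo : Bad.IsPWO := Set.isPWO_of_wellQuasiOrderedLE Bad
  have hTfin : {t | Minimal (· ∈ Bad) t}.Finite :=
    (setOfPred_minimal_antichain _).finite_of_partiallyWellOrderedOn
      (hpwo.mono (setOfPred_minimal_subset _))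
  have hT : ∀ a, a ∈ Bad ↔ ∃ t ∈ hTfin.toFinset, t ≤ a := by
    intro a
    constructor
    · intro ha
      obtain ⟨b, hb, hbm⟩ := hpwo.exists_le_minimal ha
      exact ⟨b, hTfin.mem_toFinset.2 hbm, hb⟩
    · rintro ⟨t, ht, hta⟩
      exact hup t (hTfin.mem_toFinset.1 ht).1 a hta
  refine (evPoly_cnt hTfin.toFinset 0).congr 0 fun u _ => ?_
  have h1 : {a : (Σ i, G i) → ℕ | deg a = u ∧ 0 ≤ a ∧ ∀ t ∈ hTfin.toFinset, ¬ t ≤ a} =
      {a | deg a = u ∧ a ∉ Bad} := by
    ext a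
    constructor
    · rintro ⟨h2, -, h3⟩
      refine ⟨h2, fun h4 => ?_⟩
      obtain ⟨t, ht, hta⟩ := (hT a).1 h4
      exact h3 t ht hta
    · rintro ⟨h2, h3⟩
      exact ⟨h2, fun p => Nat.zero_le _, fun t ht hta => h3 ((hT a).2 ⟨t, ht, hta⟩)⟩
  rw [h1]
  congr 1
  have h2 : val '' {a | deg a = u} = val '' {a | deg a = u ∧ a ∉ Bad} := by
    apply Set.Subset.antisymm
    · rintro _ ⟨a, ha, rfl⟩
      have h3 : {b | deg b = u ∧ val b = val a}.Finite := (finite_deg u).subset fun b hb => hb.1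
      obtain ⟨b, hb, hbmin⟩ := Set.exists_min_image _ lex h3 ⟨a, ha, rfl⟩
      refine ⟨b, ⟨hb.1, fun h4 => ?_⟩, hb.2⟩
      rw [hBad] at h4
      obtain ⟨c, h5, h6, h7⟩ := h4
      exact absurd (hbmin c ⟨h5.trans hb.1, h6.trans hb.2⟩) (not_le.2 h7)
    · exact Set.image_mono fun a ha => ha.1
  rw [h2]
  refine Set.InjOn.ncard_image ?_
  rintro a ⟨ha, ha'⟩ b ⟨hb, hb'⟩ hab
  rcases lt_trichotomy (lex a) (lex b) with h3 | h3 | h3
  · exact absurd (by rw [hBad]; exact ⟨a, ha.trans hb.symm, hab, h3⟩) hb'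
  · exact hlinj h3
  · exact absurd (by rw [hBad]; exact ⟨b, hb.trans ha.symm, hab.symm, h3⟩) ha'

end

/-- counting by fibres -/
theorem fib {n : ℕ} {H : Type} [Fintype H] (φ : Fin n → H) (p : H → Prop) [DecidablePred p] :
    Nat.card {j : Fin n // p (φ j)} =
      ∑ g : H, if p g then Nat.card {j : Fin n // φ j = g} else 0 := by
  classical
  have h1 : Nat.card {j : Fin n // p (φ j)} = (Finset.univ.filter fun j => p (φ j)).card := by
    rw [Nat.card_eq_fintype_card, Fintype.card_subtype]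
  rw [h1, Finset.card_eq_sum_card_fiberwise (f := φ) (t := Finset.univ)
    (fun _ _ => Finset.mem_coe.2 (Finset.mem_univ _))]
  refine Finset.sum_congr rfl fun g _ => ?_
  split_ifs with hg
  · rw [Nat.card_eq_fintype_card, Fintype.card_subtype, Finset.filter_filter]
    congr 1
    ext j
    simp only [Finset.mem_filter, Finset.mem_univ, true_and]
    constructor
    · exact fun h => h.2
    · intro h
      exact ⟨by rw [h]; exact hg, h⟩
  · rw [Finset.card_eq_zero, Finset.filter_filter, Finset.filter_eq_empty_iff]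
    rintro j - ⟨h2, h3⟩
    rw [h3] at h2
    exact hg h2

/-- a map with prescribed fibre sizes -/
theorem exists_fib {n : ℕ} {H : Type} [Fintype H] (a : H → ℕ) (ha : ∑ g, a g = n) :
    ∃ φ : Fin n → H, ∀ g, Nat.card {j : Fin n // φ j = g} = a g := by
  classical
  have h1 : Fintype.card (Fin n) = Fintype.card (Σ g : H, Fin (a g)) := by
    rw [Fintype.card_fin, Fintype.card_sigma]
    simp only [Fintype.card_fin]
    exact ha.symm
  obtain ⟨e⟩ := Fintype.card_eq.1 h1
  refine ⟨fun j => (e j).1, fun g => ?_⟩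
  have e1 : {j : Fin n // (e j).1 = g} ≃ Fin (a g) :=
    { toFun := fun j => Fin.cast (by rw [j.2]) (e j.1).2
      invFun := fun k => ⟨e.symm ⟨g, k⟩, by rw [Equiv.apply_symm_apply]⟩
      left_inv := by
        rintro ⟨j, rfl⟩
        apply Subtype.ext
        show e.symm ⟨(e j).1, Fin.cast _ (e j).2⟩ = j
        rw [Fin.cast_eq_self]
        exact e.symm_apply_apply j
      right_inv := by
        intro k
        apply Fin.ext
        show ((e (e.symm ⟨g, k⟩)).2 : ℕ) = k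
        rw [Equiv.apply_symm_apply] }
  rw [Nat.card_congr e1, Nat.card_eq_fintype_card, Fintype.card_fin]

/-- EX1 -/
theorem ex1 : S_EX1 := by
  classical
  intro V _ d Δ
  obtain ⟨val, hval⟩ : ∃ val : ((Σ i : Fin d, {F : Finset V // F ∈ Δ ∧ F.card = (i : ℕ) + 1}) → ℕ)
      →+ (V → ℕ), ∀ a v, val a v = ∑ p, if v ∈ p.2.1 then a p else 0 := by
    refine ⟨{ toFun := fun a v => ∑ p, if v ∈ p.2.1 then a p else 0
              map_zero' := ?_
              map_add' := ?_ }, fun a v => rfl⟩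
    · funext v
      simp
    · intro a b
      funext v
      rw [Pi.add_apply, ← Finset.sum_add_distrib]
      refine Finset.sum_congr rfl fun p _ => ?_
      split_ifs
      · rfl
      · rfl
  have hS : ∀ u : Fin d → ℕ, S d Δ u = val '' {a | deg a = u} := by
    intro u
    have key : ∀ (φ : (i : Fin d) → Fin (u i) → {F : Finset V // F ∈ Δ ∧ F.card = (i : ℕ) + 1})
        (a : (Σ i : Fin d, {F : Finset V // F ∈ Δ ∧ F.card = (i : ℕ) + 1}) → ℕ),
        (∀ i g, Nat.card {j : Fin (u i) // φ i j = g} = a ⟨i, g⟩) → ∀ v,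
        ∑ i, Nat.card {j : Fin (u i) // v ∈ (φ i j).1} = val a v := by
      intro φ a h v
      rw [hval, Fintype.sum_sigma]
      refine Finset.sum_congr rfl fun i _ => ?_
      rw [fib (φ i) fun g => v ∈ g.1]
      refine Finset.sum_congr rfl fun g _ => ?_
      rw [h i g]
    ext x
    constructor
    · rintro ⟨f, hf, hx⟩
      obtain ⟨φ, hφ⟩ : ∃ φ : (i : Fin d) → Fin (u i) →
          {F : Finset V // F ∈ Δ ∧ F.card = (i : ℕ) + 1}, ∀ i j, (φ i j).1 = f i j :=
        ⟨fun i j => ⟨f i j, hf i j⟩, fun i j => rfl⟩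
      refine ⟨fun p => Nat.card {j : Fin (u p.1) // φ p.1 j = p.2}, ?_, ?_⟩
      · show deg _ = u
        funext i
        show ∑ g, Nat.card {j : Fin (u i) // φ i j = g} = u i
        rw [← Nat.card_sigma, Nat.card_congr (Equiv.sigmaFiberEquiv (φ i)),
          Nat.card_eq_fintype_card, Fintype.card_fin]
      · funext v
        rw [hx v, ← key φ _ (fun i g => rfl) v]
        refine Finset.sum_congr rfl fun i _ => ?_
        simp only [hφ]
    · rintro ⟨a, ha, rfl⟩
      have h1 : ∀ i, ∃ φ : Fin (u i) → {F : Finset V // F ∈ Δ ∧ F.card = (i : ℕ) + 1},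
          ∀ g, Nat.card {j : Fin (u i) // φ j = g} = a ⟨i, g⟩ := fun i =>
        exists_fib (fun g => a ⟨i, g⟩) (congrFun (ha : deg a = u) i)
      choose φ hφ using h1
      refine ⟨fun i j => (φ i j).1, fun i j => (φ i j).2, fun v => ?_⟩
      rw [key φ a hφ v]
  obtain ⟨P, N, hP⟩ := evPoly_image (d := d)
    (G := fun i : Fin d => {F : Finset V // F ∈ Δ ∧ F.card = (i : ℕ) + 1}) val
  refine ⟨P, N, fun u hu => ?_⟩
  rw [hS u]
  exact hP u hu

end Pool.Agent.R686.MU.Ex1P
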