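import Pool.Agent.R686.MU.StmEx

/-!
# Mixed multiplicities of skeleta (MP_4aa539_al), piece EX2: a polynomial of polynomial growth of degree `m` has
total degree at most `m`
-/

set_option autoImplicit false

namespace Pool.Agent.R686.MU.Ex2P

open Finset Filter Topology
open scoped BigOperators

theorem ex2 : S_EX2 := by
  intro d m P C N hb
  by_contra hlt
  push Not at hlt
  obtain ⟨D, hD⟩ : ∃ D, D = P.totalDegree := ⟨_, rfl⟩
  rw [← hD] at hlt
  set H := MvPolynomial.homogeneousComponent D P with hH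
  have hH0 : H ≠ 0 := by
    have hne : P.support.Nonempty := by
      rw [Finset.nonempty_iff_ne_empty]
      intro h
      rw [MvPolynomial.support_eq_empty] at h
      rw [h, MvPolynomial.totalDegree_zero] at hD
      omega
    obtain ⟨s, hs, hs2⟩ := Finset.exists_mem_eq_sup P.support hne (fun s => s.sum fun _ e => e)
    have hs3 : s.degree = D := by
      rw [hD, MvPolynomial.totalDegree, hs2]
      rfl
    intro h
    have h1 : MvPolynomial.coeff s H = 0 := by rw [h]; simp
    rw [hH, MvPolynomial.coeff_homogeneousComponent, if_pos hs3] at h1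
    exact MvPolynomial.mem_support_iff.1 hs h1
  obtain ⟨w, hw, hHw⟩ : ∃ w : Fin d → ℕ, (∀ i, N + 1 ≤ w i) ∧ MvPolynomial.eval (fun i => (w i : ℚ)) H ≠ 0 := by
    by_contra hc
    push Not at hc
    apply hH0
    apply MvPolynomial.funext_set (fun _ : Fin d => {x : ℚ | ∃ k : ℕ, N + 1 ≤ k ∧ x = k})
    · intro _
      apply Set.infinite_of_injective_forall_mem (f := fun k : ℕ => ((N + 1 + k : ℕ) : ℚ))
      · intro a b hab
        have h1 : ((N + 1 + a : ℕ) : ℚ) = ((N + 1 + b : ℕ) : ℚ) := hab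
        have h2 : N + 1 + a = N + 1 + b := by exact_mod_cast h1
        omega
      · intro k
        exact ⟨N + 1 + k, by omega, rfl⟩
    · intro x hx
      have h1 : ∀ i, ∃ k : ℕ, N + 1 ≤ k ∧ x i = k := fun i => hx i (Set.mem_univ i)
      choose w hw1 hw2 using h1
      have h2 := hc w hw1
      have h3 : x = fun i => (w i : ℚ) := funext hw2
      rw [h3, h2, map_zero]
  -- the restriction to the line
  obtain ⟨q, hq⟩ : ∃ q : Polynomial ℚ, q = ∑ s ∈ P.support,
      Polynomial.C (MvPolynomial.coeff s P * ∏ i, (w i : ℚ) ^ (s i)) * Polynomial.X ^ (∑ i, s i) := ⟨_, rfl⟩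
  have hqe : ∀ t : ℕ, q.eval (t : ℚ) = MvPolynomial.eval (fun i => ((t * w i : ℕ) : ℚ)) P := by
    intro t
    rw [hq, MvPolynomial.eval_eq', Polynomial.eval_finsetSum]
    apply Finset.sum_congr rfl
    intro s _
    rw [Polynomial.eval_mul, Polynomial.eval_C, Polynomial.eval_pow, Polynomial.eval_X, mul_assoc]
    congr 1
    rw [← Finset.prod_pow_eq_pow_sum, ← Finset.prod_mul_distrib]
    apply Finset.prod_congr rfl
    intro i _
    push_cast
    rw [mul_pow]
    ring
  have hqc : q.coeff D ≠ 0 := by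
    have h1 : q.coeff D = MvPolynomial.eval (fun i => (w i : ℚ)) H := by
      rw [hH, MvPolynomial.homogeneousComponent_apply, map_sum, hq, Polynomial.finsetSum_coeff, Finset.sum_filter]
      apply Finset.sum_congr rfl
      intro s _
      rw [Polynomial.coeff_C_mul, Polynomial.coeff_X_pow]
      have h2 : s.degree = ∑ i, s i := Finsupp.degree_eq_sum s
      rw [h2]
      by_cases h3 : D = ∑ i, s i
      · rw [if_pos h3, if_pos h3.symm, mul_one, MvPolynomial.eval_monomial]
        congr 1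
        rw [Finsupp.prod_fintype]
        intro i
        simp
      · rw [if_neg h3, if_neg (Ne.symm h3), mul_zero]
    rw [h1]
    exact hHw
  have hdeg : (Polynomial.X ^ m : Polynomial ℚ).degree < q.degree := by
    rw [Polynomial.degree_X_pow]
    refine lt_of_lt_of_le ?_ (Polynomial.le_degree_of_ne_zero hqc)
    exact_mod_cast hlt
  have ht := Polynomial.abs_div_tendsto_atTop_atTop_of_degree_gt q (Polynomial.X ^ m) hdeg
    (pow_ne_zero _ Polynomial.X_ne_zero)
  have ht2 := ht.comp (tendsto_natCast_atTop_atTop (R := ℚ))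
  -- the bound
  obtain ⟨W, hW⟩ : ∃ W : ℕ, W = ∑ i, w i := ⟨_, rfl⟩
  have hbd : ∀ t : ℕ, 1 ≤ t → |q.eval (t : ℚ) / (Polynomial.X ^ m : Polynomial ℚ).eval (t : ℚ)| ≤ C * ((W : ℚ) + 1) ^ m := by
    intro t ht1
    have h1 := hb (fun i => t * w i) (fun i => by
      have := hw i
      show N ≤ t * w i
      nlinarith)
    have htq : (1 : ℚ) ≤ t := by exact_mod_cast ht1
    rw [hqe, Polynomial.eval_pow, Polynomial.eval_X, abs_div, abs_of_nonneg (show (0 : ℚ) ≤ (t : ℚ) ^ m by positivity),
      div_le_iff₀ (by positivity)]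
    refine h1.trans ?_
    rw [mul_assoc, ← mul_pow]
    have h2 : (((∑ i, t * w i) + 1 : ℕ) : ℚ) ≤ ((W : ℚ) + 1) * t := by
      rw [← Finset.mul_sum, ← hW]
      push_cast
      nlinarith
    have h3 : (0 : ℚ) ≤ (((∑ i, t * w i) + 1 : ℕ) : ℚ) := Nat.cast_nonneg _
    exact mul_le_mul_of_nonneg_left (pow_le_pow_left₀ h3 h2 m) (Nat.cast_nonneg C)
  have h4 := (ht2.eventually_gt_atTop (C * ((W : ℚ) + 1) ^ m)).and (eventually_ge_atTop 1)
  obtain ⟨t, h5, h6⟩ := h4.exists
  have h7 := hbd t h6
  have h8 : C * ((W : ℚ) + 1) ^ m < |q.eval (t : ℚ) / (Polynomial.X ^ m : Polynomial ℚ).eval (t : ℚ)| := h5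
  linarith

end Pool.Agent.R686.MU.Ex2P
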