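import Pool.Agent.R686.MU.StmEx

/-!
# Mixed multiplicities of skeleta (MP_4aa539_al): growth of the number of sums of faces
-/

set_option autoImplicit false

namespace Pool.Agent.R686.MU.Ex3P

open Finset
open scoped BigOperators

theorem sum_of_mem {V : Type} [Fintype V] {d : ℕ} {Δ : Finset (Finset V)} {u : Fin d → ℕ}
    {x : V → ℕ} (hx : x ∈ S d Δ u) : ∑ v, x v = ∑ i : Fin d, ((i : ℕ) + 1) * u i := by
  classical
  obtain ⟨f, hf, hx⟩ := hx
  simp_rw [hx]
  rw [Finset.sum_comm]
  refine Finset.sum_congr rfl fun i _ => ?_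
  have : ∀ v, Nat.card {j : Fin (u i) // v ∈ f i j} = ∑ j : Fin (u i), if v ∈ f i j then 1 else 0 := by
    intro v
    rw [Nat.card_eq_fintype_card, Fintype.card_subtype, Finset.card_filter]
  simp_rw [this]
  rw [Finset.sum_comm]
  have h2 : ∀ j : Fin (u i), (∑ v, if v ∈ f i j then 1 else 0) = (i : ℕ) + 1 := by
    intro j
    rw [← (hf i j).2, ← Finset.card_filter]
    congr 1
    ext v
    simp
  rw [Finset.sum_congr rfl fun j _ => h2 j]
  simp [mul_comm]

theorem ex3 : S_EX3 := by
  classical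
  intro V _ _ d Δ
  refine ⟨(d + 1) ^ (Fintype.card V - 1), fun u => ?_⟩
  obtain ⟨v0⟩ := ‹Nonempty V›
  set s : ℕ := ∑ i : Fin d, ((i : ℕ) + 1) * u i with hs
  have hs1 : s + 1 ≤ (d + 1) * ((∑ i, u i) + 1) := by
    have : s ≤ (d + 1) * ∑ i, u i := by
      rw [hs, Finset.mul_sum]
      refine Finset.sum_le_sum fun i _ => Nat.mul_le_mul_right _ ?_
      have := i.2
      omega
    have h2 : 1 ≤ d + 1 := by omega
    calc s + 1 ≤ (d + 1) * (∑ i, u i) + (d + 1) := by omega
      _ = _ := by ring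
  have key : (S d Δ u).ncard ≤ (s + 1) ^ (Fintype.card V - 1) := by
    let T : Finset ({v : V // v ≠ v0} → ℕ) := Fintype.piFinset fun _ => Finset.range (s + 1)
    have hT : T.card = (s + 1) ^ (Fintype.card V - 1) := by
      rw [Fintype.card_piFinset]
      simp [Fintype.card_subtype_compl]
    rw [← hT, ← Set.ncard_coe_finset]
    refine Set.ncard_le_ncard_of_injOn (fun x v => x v.1) ?_ ?_ T.finite_toSet
    · intro x hx
      have h1 := sum_of_mem hx
      simp only [T, Finset.mem_coe, Fintype.mem_piFinset, Finset.mem_range]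
      intro v
      have : x v.1 ≤ ∑ v, x v := Finset.single_le_sum (fun _ _ => Nat.zero_le _) (Finset.mem_univ _)
      omega
    · intro x hx y hy hxy
      have h1 := sum_of_mem hx
      have h2 := sum_of_mem hy
      have h3 : ∀ v, v ≠ v0 → x v = y v := fun v hv => congrFun hxy ⟨v, hv⟩
      have h4 : ∑ v ∈ univ.erase v0, x v = ∑ v ∈ univ.erase v0, y v :=
        Finset.sum_congr rfl fun v hv => h3 v (Finset.ne_of_mem_erase hv)
      rw [← Finset.add_sum_erase univ x (Finset.mem_univ v0)] at h1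
      rw [← Finset.add_sum_erase univ y (Finset.mem_univ v0)] at h2
      funext v
      by_cases hv : v = v0
      · subst hv
        omega
      · exact h3 v hv
  calc (S d Δ u).ncard ≤ (s + 1) ^ (Fintype.card V - 1) := key
    _ ≤ ((d + 1) * ((∑ i, u i) + 1)) ^ (Fintype.card V - 1) := Nat.pow_le_pow_left hs1 _
    _ = _ := by rw [mul_pow]

end Pool.Agent.R686.MU.Ex3P
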