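import Pool.Agent.R686.MU.Stm

/-!
# MP_4aa539_al, piece F3: many sums of triples in the main component
-/

set_option autoImplicit false

namespace Pool.Agent.R686.MU

open Finset
open scoped BigOperators

namespace F3x

/-- functions on `Fin n` with sum `s` -/
noncomputable def sumSet (n s : ℕ) : Finset (Fin n → ℕ) :=
  ((univ : Finset (Fin n)).finsuppAntidiag s).map
    ⟨fun f : Fin n →₀ ℕ => (f : Fin n → ℕ), DFunLike.coe_injective⟩

theorem mem_sumSet (n s : ℕ) (x : Fin n → ℕ) : x ∈ sumSet n s ↔ ∑ i, x i = s := by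
  rw [sumSet, mem_map]
  constructor
  · rintro ⟨f, hf, rfl⟩
    exact (mem_finsuppAntidiag.1 hf).1
  · intro h
    refine ⟨Finsupp.equivFunOnFinite.symm x, ?_, rfl⟩
    rw [mem_finsuppAntidiag]
    exact ⟨h, subset_univ _⟩

theorem card_sumSet (n s : ℕ) : (sumSet (n + 1) s).card = (s + n).choose n := by
  rw [sumSet, card_map, card_finsuppAntidiag_nat_eq_choose, card_univ, Fintype.card_fin]
  have e : n + 1 + s - 1 = s + n := by omega
  rw [e, Nat.choose_symm_of_eq_add rfl]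

theorem card_sumSet_ge (n s : ℕ) : (s : ℝ) ^ n / (n.factorial : ℝ) ≤ ((sumSet (n + 1) s).card : ℝ) := by
  rw [card_sumSet]
  have h := Nat.pow_le_choose (α := ℝ) n (s + n)
  have e : s + n + 1 - n = s + 1 := by omega
  rw [e] at h
  refine le_trans ?_ h
  have h1 : (s : ℝ) ≤ ((s + 1 : ℕ) : ℝ) := by push_cast; linarith
  gcongr

/-- functions with sum in `[t - A, t]` -/
noncomputable def band (n A t : ℕ) : Finset (Fin n → ℕ) := (Icc (t - A) t).biUnion (sumSet n)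

theorem mem_band (n A t : ℕ) (x : Fin n → ℕ) :
    x ∈ band n A t ↔ t - A ≤ ∑ i, x i ∧ ∑ i, x i ≤ t := by
  rw [band, mem_biUnion]
  constructor
  · rintro ⟨s, hs, hx⟩
    rw [mem_sumSet] at hx
    rw [hx]
    exact mem_Icc.1 hs
  · intro h
    exact ⟨_, mem_Icc.2 h, (mem_sumSet _ _ _).2 rfl⟩

theorem card_band (n A t : ℕ) (hA : A ≤ t) :
    ((A + 1 : ℕ) : ℝ) * (((t - A : ℕ) : ℝ) ^ n / (n.factorial : ℝ)) ≤
      ((band (n + 1) A t).card : ℝ) := by
  rw [band, card_biUnion]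
  · rw [Nat.cast_sum]
    have h : ∀ s ∈ Icc (t - A) t, ((t - A : ℕ) : ℝ) ^ n / (n.factorial : ℝ) ≤
        ((sumSet (n + 1) s).card : ℝ) := by
      intro s hs
      refine le_trans ?_ (card_sumSet_ge n s)
      have h1 : ((t - A : ℕ) : ℝ) ≤ (s : ℝ) := by exact_mod_cast (mem_Icc.1 hs).1
      gcongr
    have h2 := Finset.card_nsmul_le_sum _ _ _ h
    rw [Nat.card_Icc, nsmul_eq_mul] at h2
    have e : t + 1 - (t - A) = A + 1 := by omega
    rw [e] at h2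
    exact h2
  · intro s _ s' _ hne
    rw [Function.onFun, Finset.disjoint_left]
    intro x hx hx'
    rw [mem_sumSet] at hx hx'
    exact hne (hx.symm.trans hx')

/-- `(1 - 1/n)^(n-1) ≥ 1/3` -/
theorem pow_bound (n : ℕ) (hn : 1 ≤ n) : (1 / 3 : ℝ) ≤ (1 - 1 / ((n : ℝ) + 1)) ^ n := by
  have hn0 : (0 : ℝ) < n := by exact_mod_cast hn
  have e : (1 - 1 / ((n : ℝ) + 1)) = (1 + 1 / (n : ℝ))⁻¹ := by
    field_simp
    ring
  rw [e, inv_pow]
  have h1 : (1 + 1 / (n : ℝ)) ^ n ≤ 3 := by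
    calc (1 + 1 / (n : ℝ)) ^ n ≤ (Real.exp (1 / n)) ^ n := by
          have := Real.add_one_le_exp (1 / (n : ℝ))
          have h0 : 0 ≤ 1 + 1 / (n : ℝ) := by positivity
          apply pow_le_pow_left₀ h0
          linarith
      _ = Real.exp 1 := by
          rw [← Real.exp_nat_mul]
          congr 1
          field_simp
      _ ≤ 3 := by
          have := Real.exp_one_lt_d9
          linarith
  rw [one_div]
  exact inv_anti₀ (by positivity) h1

/-- class of a vertex -/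
def cls (p : ℕ) : V0 p → Fin 6 := Sum.elim (fun _ => 0) (Sum.elim (fun _ => 1) ![2, 3, 4, 5])

/-- the vector from its data -/
def vec (p t : ℕ) (xU : Fin p → ℕ) (xW : Fin (3 * p - 2) → ℕ) (k1 k2 k3 : ℕ) : V0 p → ℕ :=
  Sum.elim xU (Sum.elim xW ![k1, k2, (t + 3) / 4 + k3,
    3 * t - ∑ i, xU i - ∑ i, xW i - k1 - k2 - ((t + 3) / 4 + k3)])

theorem sums_of_cls (h : S_CYC) (p t : ℕ) (x : V0 p → ℕ) (h0 : ∑ i, x (Sum.inl i) ≤ t)
    (h1 : ∑ i, x (Sum.inr (Sum.inl i)) ≤ t) (h2 : ∀ i : Fin 4, x (Sum.inr (Sum.inr i)) ≤ t)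
    (hs : ∑ v, x v = 3 * t) : x ∈ Sums (D0 p) 3 t := by
  classical
  obtain ⟨f, hf1, hf2⟩ := h (V0 p) 6 3 t (cls p) x (by
    intro i
    rw [Finset.sum_filter, Fintype.sum_sum_type, Fintype.sum_sum_type, Fin.sum_univ_four]
    have a0 := h2 0
    have a1 := h2 1
    have a2 := h2 2
    have a3 := h2 3
    fin_cases i <;> simp [cls] <;> assumption) hs
  refine ⟨f, fun j => ⟨?_, (hf1 j).1⟩, hf2⟩
  rw [D0, mem_filter]
  refine ⟨mem_univ _, Or.inr ⟨?_, ?_⟩⟩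
  · intro u u' hu hu'
    have := (hf1 j).2 hu hu' rfl
    exact Sum.inl_injective this
  · intro w w' hw hw'
    have := (hf1 j).2 hw hw' rfl
    exact Sum.inl_injective (Sum.inr_injective this)

theorem sums_finite (p t : ℕ) : (Sums (D0 p) 3 t).Finite := by
  refine (Set.finite_range fun f : Fin t → Finset (V0 p) => fun v : V0 p =>
    Nat.card {j : Fin t // v ∈ f j}).subset ?_
  rintro x ⟨f, -, hf⟩
  exact ⟨f, (funext hf).symm⟩

theorem vec_mem (h : S_CYC) (p t : ℕ) (hp : 250 ≤ p) (xU : Fin p → ℕ) (xW : Fin (3 * p - 2) → ℕ)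
    (hU : xU ∈ band p (t / p) t) (hW : xW ∈ band (3 * p - 2) (t / (3 * p - 2)) t)
    (k1 k2 k3 : ℕ) (hk1 : k1 ≤ t / 8) (hk2 : k2 ≤ t / 8) (hk3 : k3 ≤ t / 8) :
    vec p t xU xW k1 k2 k3 ∈ Sums (D0 p) 3 t := by
  rw [mem_band] at hU hW
  have e1 : t / p ≤ t / 250 := Nat.div_le_div_left hp (by norm_num)
  have e2 : t / (3 * p - 2) ≤ t / 250 := Nat.div_le_div_left (by omega) (by norm_num)
  apply sums_of_cls h
  · exact hU.2
  · exact hW.2
  · intro i
    fin_cases i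
    · show k1 ≤ t
      omega
    · show k2 ≤ t
      omega
    · show (t + 3) / 4 + k3 ≤ t
      omega
    · show 3 * t - ∑ i, xU i - ∑ i, xW i - k1 - k2 - ((t + 3) / 4 + k3) ≤ t
      omega
  · rw [Fintype.sum_sum_type, Fintype.sum_sum_type, Fin.sum_univ_four]
    show ∑ i, xU i + (∑ i, xW i + (k1 + k2 + ((t + 3) / 4 + k3) +
      (3 * t - ∑ i, xU i - ∑ i, xW i - k1 - k2 - ((t + 3) / 4 + k3)))) = 3 * t
    omega

theorem count (h : S_CYC) (p t : ℕ) (hp : 250 ≤ p) :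
    ((band p (t / p) t).card : ℝ) * ((band (3 * p - 2) (t / (3 * p - 2)) t).card : ℝ) *
      ((t / 8 + 1 : ℕ) : ℝ) ^ 3 ≤ g0 p 3 t := by
  classical
  set T : Finset ((Fin p → ℕ) × (Fin (3 * p - 2) → ℕ) × (Fin (t / 8 + 1) × Fin (t / 8 + 1) ×
    Fin (t / 8 + 1))) := band p (t / p) t ×ˢ (band (3 * p - 2) (t / (3 * p - 2)) t ×ˢ univ) with hT
  set Φ : ((Fin p → ℕ) × (Fin (3 * p - 2) → ℕ) × (Fin (t / 8 + 1) × Fin (t / 8 + 1) ×
    Fin (t / 8 + 1))) → (V0 p → ℕ) := fun d => vec p t d.1 d.2.1 d.2.2.1 d.2.2.2.1 d.2.2.2.2 with hΦ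
  have hinj : Function.Injective Φ := by
    rintro ⟨xU, xW, k1, k2, k3⟩ ⟨yU, yW, l1, l2, l3⟩ heq
    have h1 : xU = yU := funext fun i => congrFun heq (Sum.inl i)
    have h2 : xW = yW := funext fun i => congrFun heq (Sum.inr (Sum.inl i))
    have h3 : (k1 : ℕ) = l1 := congrFun heq (Sum.inr (Sum.inr 0))
    have h4 : (k2 : ℕ) = l2 := congrFun heq (Sum.inr (Sum.inr 1))
    have h5 : (t + 3) / 4 + (k3 : ℕ) = (t + 3) / 4 + l3 := congrFun heq (Sum.inr (Sum.inr 2))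
    have h6 : (k3 : ℕ) = l3 := by omega
    rw [h1, h2, Fin.ext h3, Fin.ext h4, Fin.ext h6]
  have hsub : ((T.image Φ : Finset (V0 p → ℕ)) : Set (V0 p → ℕ)) ⊆ Sums (D0 p) 3 t := by
    intro x hx
    rw [Finset.mem_coe, mem_image] at hx
    obtain ⟨⟨xU, xW, k1, k2, k3⟩, hd, rfl⟩ := hx
    rw [hT, mem_product, mem_product] at hd
    exact vec_mem h p t hp xU xW hd.1 hd.2.1 _ _ _ (Nat.lt_succ_iff.1 k1.2)
      (Nat.lt_succ_iff.1 k2.2) (Nat.lt_succ_iff.1 k3.2)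
  have hcard := Set.ncard_le_ncard hsub (sums_finite p t)
  rw [Set.ncard_coe_finset, card_image_of_injective _ hinj, hT, card_product, card_product,
    card_univ] at hcard
  simp only [Fintype.card_prod, Fintype.card_fin] at hcard
  rw [g0]
  calc ((band p (t / p) t).card : ℝ) * ((band (3 * p - 2) (t / (3 * p - 2)) t).card : ℝ) *
      ((t / 8 + 1 : ℕ) : ℝ) ^ 3
      = (((band p (t / p) t).card * ((band (3 * p - 2) (t / (3 * p - 2)) t).card *
        ((t / 8 + 1) * ((t / 8 + 1) * (t / 8 + 1)))) : ℕ) : ℝ) := by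
        push_cast
        ring
    _ ≤ _ := by exact_mod_cast hcard

/-- lower bound for a band -/
theorem band_ge (n t : ℕ) (hn : 1 ≤ n) :
    ((t : ℝ) / ((n : ℝ) + 1)) * ((t : ℝ) ^ n / 3 / (n.factorial : ℝ)) ≤
      ((band (n + 1) (t / (n + 1)) t).card : ℝ) := by
  have hle : t / (n + 1) ≤ t := Nat.div_le_self _ _
  refine le_trans ?_ (card_band n (t / (n + 1)) t hle)
  have h1 : (t : ℝ) / ((n : ℝ) + 1) ≤ ((t / (n + 1) + 1 : ℕ) : ℝ) := by
    rw [div_le_iff₀ (by positivity)]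
    have : t < (t / (n + 1) + 1) * (n + 1) := by
      rw [mul_comm]
      exact Nat.lt_mul_div_succ t (show 0 < n + 1 by omega)
    exact_mod_cast this.le
  have h2 : (t : ℝ) ^ n / 3 ≤ ((t - t / (n + 1) : ℕ) : ℝ) ^ n := by
    have h3 : (t : ℝ) * (1 - 1 / ((n : ℝ) + 1)) ≤ ((t - t / (n + 1) : ℕ) : ℝ) := by
      rw [Nat.cast_sub hle]
      have h4 : ((t / (n + 1) : ℕ) : ℝ) ≤ (t : ℝ) / ((n : ℝ) + 1) := by
        have := Nat.cast_div_le (α := ℝ) (m := t) (n := n + 1)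
        push_cast at this
        exact this
      have e : (t : ℝ) * (1 - 1 / ((n : ℝ) + 1)) = t - t / ((n : ℝ) + 1) := by ring
      rw [e]
      linarith
    have h5 : (0 : ℝ) ≤ (t : ℝ) * (1 - 1 / ((n : ℝ) + 1)) := by
      have h6 : (1 : ℝ) / ((n : ℝ) + 1) ≤ 1 := by
        rw [div_le_one (by positivity)]
        have : (0 : ℝ) ≤ n := Nat.cast_nonneg n
        linarith
      have h7 : (0 : ℝ) ≤ t := Nat.cast_nonneg t
      exact mul_nonneg h7 (by linarith)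
    refine le_trans ?_ (pow_le_pow_left₀ h5 h3 n)
    rw [mul_pow]
    have h8 := pow_bound n hn
    have h9 : (0 : ℝ) ≤ (t : ℝ) ^ n := by positivity
    calc (t : ℝ) ^ n / 3 = (t : ℝ) ^ n * (1 / 3) := by ring
      _ ≤ _ := mul_le_mul_of_nonneg_left h8 h9
  have h10 : (0 : ℝ) ≤ (t : ℝ) ^ n / 3 / (n.factorial : ℝ) := by positivity
  gcongr

end F3x

theorem f3 (h : S_CYC) : S_F3 := by
  intro p hp
  refine ⟨0, fun t => ?_⟩
  rw [Nat.sub_zero]
  refine le_trans ?_ (F3x.count h p t hp)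
  obtain ⟨n, rfl⟩ : ∃ n, p = n + 1 := ⟨p - 1, by omega⟩
  have hq : 3 * (n + 1) - 2 = 3 * n + 1 := by omega
  have b1 := F3x.band_ge n t (by omega)
  have b2 := F3x.band_ge (3 * n) t (by omega)
  have b3 : (t : ℝ) / 8 ≤ ((t / 8 + 1 : ℕ) : ℝ) := by
    rw [div_le_iff₀ (by norm_num)]
    have : t ≤ (t / 8 + 1) * 8 := by omega
    exact_mod_cast this
  rw [hq]
  have e1 : R (n + 1) / (10 ^ 6 * ((n + 1 : ℕ) : ℝ) ^ 2) * (t : ℝ) ^ (4 * (n + 1) + 1) /
      ((4 * (n + 1) + 1).factorial : ℝ) =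
      (t : ℝ) ^ (4 * (n + 1) + 1) / (10 ^ 6 * ((n : ℝ) + 1) ^ 2 * (n.factorial : ℝ) *
        ((3 * n).factorial : ℝ)) := by
    have e2 : n + 1 - 1 = n := by omega
    have e3 : 3 * (n + 1) - 3 = 3 * n := by omega
    have hf : ((4 * (n + 1) + 1).factorial : ℝ) ≠ 0 := by positivity
    rw [R, e2, e3]
    push_cast
    field_simp
  rw [e1]
  have hn1 : (1 : ℝ) ≤ (n : ℝ) := by
    have : 1 ≤ n := by omega
    exact_mod_cast this
  calc (t : ℝ) ^ (4 * (n + 1) + 1) / (10 ^ 6 * ((n : ℝ) + 1) ^ 2 * (n.factorial : ℝ) *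
        ((3 * n).factorial : ℝ))
      ≤ (t : ℝ) ^ (4 * (n + 1) + 1) / (4608 * (((n : ℝ) + 1) * (3 * n + 1)) * (n.factorial : ℝ) *
        ((3 * n).factorial : ℝ)) := by
        apply div_le_div_of_nonneg_left (by positivity) (by positivity)
        have h2 : 4608 * (((n : ℝ) + 1) * (3 * n + 1)) ≤ 10 ^ 6 * ((n : ℝ) + 1) ^ 2 := by
          have h3 : 4608 * (3 * (n : ℝ) + 1) ≤ 10 ^ 6 * ((n : ℝ) + 1) := by
            norm_num
            linarith
          calc 4608 * (((n : ℝ) + 1) * (3 * n + 1)) = ((n : ℝ) + 1) * (4608 * (3 * n + 1)) := by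
                ring
            _ ≤ ((n : ℝ) + 1) * (10 ^ 6 * ((n : ℝ) + 1)) :=
                mul_le_mul_of_nonneg_left h3 (by linarith)
            _ = 10 ^ 6 * ((n : ℝ) + 1) ^ 2 := by ring
        gcongr
    _ = (((t : ℝ) / ((n : ℝ) + 1)) * ((t : ℝ) ^ n / 3 / (n.factorial : ℝ))) *
        (((t : ℝ) / (((3 * n : ℕ) : ℝ) + 1)) * ((t : ℝ) ^ (3 * n) / 3 / ((3 * n).factorial : ℝ))) *
        ((t : ℝ) / 8) ^ 3 := by
        have e4 : 4 * (n + 1) + 1 = n + 3 * n + 5 := by ring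
        rw [e4, pow_add, pow_add]
        push_cast
        field_simp
        ring
    _ ≤ _ := by
        gcongr

end Pool.Agent.R686.MU
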