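import Pool.Agent.R686.MU.Stm

/-!
# MU-F5: lower bound for the number of sums of quintuples in the main component (MP_4aa539_al)
-/

set_option autoImplicit false

namespace Pool.Agent.R686.MU

open Finset
open scoped BigOperators

namespace F5

/-! ## number of vectors with a given sum -/

theorem card_pa {ι : Type} [Fintype ι] [DecidableEq ι] (k n : ℕ) (hk : Fintype.card ι = k + 1) :
    (piAntidiag (univ : Finset ι) n).card = (n + k).choose k := by
  rw [← map_sym_eq_piAntidiag, card_map, Finset.sym_univ, Finset.card_univ,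
    Sym.card_sym_eq_choose, hk, show k + 1 + n - 1 = n + k by omega]
  exact Nat.choose_symm_add

theorem pa_lower {ι : Type} [Fintype ι] [DecidableEq ι] (k n : ℕ) (hk : Fintype.card ι = k + 1) :
    (n : ℝ) ^ k / (k.factorial : ℝ) ≤ ((piAntidiag (univ : Finset ι) n).card : ℝ) := by
  have hf : (0 : ℝ) < (k.factorial : ℝ) := by exact_mod_cast Nat.factorial_pos k
  rw [card_pa k n hk, div_le_iff₀ hf]
  have h1 : n ^ k ≤ k.factorial * (n + k).choose k := by
    rw [← Nat.ascFactorial_eq_factorial_mul_choose]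
    exact (Nat.pow_le_pow_left (Nat.le_succ n) k).trans (Nat.pow_succ_le_ascFactorial (n + 1) k)
  calc (n : ℝ) ^ k ≤ (k.factorial : ℝ) * ((n + k).choose k : ℝ) := by exact_mod_cast h1
    _ = _ := mul_comm _ _

theorem pa_upper {ι : Type} [Fintype ι] [DecidableEq ι] (k n : ℕ) (hk : Fintype.card ι = k + 1) :
    ((piAntidiag (univ : Finset ι) n).card : ℝ) ≤ ((n + k : ℕ) : ℝ) ^ k / (k.factorial : ℝ) := by
  rw [card_pa k n hk]
  exact Nat.choose_le_pow_div k (n + k)

theorem num (k : ℕ) (hk : 249 ≤ k) : ((k : ℝ) + 1) * (23 / 24 : ℝ) ^ k ≤ 1 / 2 := by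
  induction k, hk using Nat.le_induction with
  | base => norm_num
  | succ k hk ih =>
    have h1 : (249 : ℝ) ≤ k := by exact_mod_cast hk
    have h2 : (0 : ℝ) < (23 / 24 : ℝ) ^ k := by positivity
    rw [pow_succ]
    push_cast
    nlinarith

/-- vectors with sum `a` with a big coordinate `u` -/
theorem card_big {ι : Type} [Fintype ι] [DecidableEq ι] (a h : ℕ) (hb : h < a) (u : ι) :
    ((piAntidiag (univ : Finset ι) a).filter (fun x => h < x u)).card ≤
      (piAntidiag (univ : Finset ι) (a - h - 1)).card := by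
  apply card_le_card_of_injOn (fun x => Function.update x u (x u - (h + 1)))
  · intro x hx
    simp only [coe_filter, Set.mem_ofPred_eq, mem_piAntidiag, mem_univ, implies_true, and_true] at hx
    simp only [mem_coe, mem_piAntidiag, mem_univ, implies_true, and_true]
    rw [Finset.sum_update_of_mem (mem_univ u)]
    have h1 := Finset.add_sum_erase univ x (mem_univ u)
    rw [Finset.erase_eq] at h1
    have h2 : ∑ v, x v = a := hx.1
    have h3 := hx.2
    omega
  · intro x hx y hy hxy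
    simp only [coe_filter, Set.mem_ofPred_eq, mem_piAntidiag, mem_univ, implies_true, and_true]
      at hx hy
    funext v
    have h1 := congrFun hxy v
    by_cases hv : v = u
    · subst hv
      simp only [Function.update_self] at h1
      omega
    · simpa [Function.update_of_ne hv] using h1

theorem card_XU {ι : Type} [Fintype ι] [DecidableEq ι] (k a h : ℕ) (hk : Fintype.card ι = k + 1)
    (hk2 : 249 ≤ k) (hb : h < a) (hh : 24 * (a - h - 1 + k) ≤ 23 * a) :
    (a : ℝ) ^ k / (k.factorial : ℝ) / 2 ≤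
      (((piAntidiag (univ : Finset ι) a).filter (fun x => ∀ u, x u ≤ h)).card : ℝ) := by
  have hf : (0 : ℝ) < (k.factorial : ℝ) := by exact_mod_cast Nat.factorial_pos k
  have h1 : (piAntidiag (univ : Finset ι) a).card ≤
      ((piAntidiag (univ : Finset ι) a).filter (fun x => ∀ u, x u ≤ h)).card +
        (k + 1) * (piAntidiag (univ : Finset ι) (a - h - 1)).card := by
    rw [← Finset.card_filter_add_card_filter_not (s := piAntidiag (univ : Finset ι) a)
      (fun x => ∀ u, x u ≤ h)]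
    apply Nat.add_le_add_left
    calc ((piAntidiag (univ : Finset ι) a).filter (fun x => ¬ ∀ u, x u ≤ h)).card
        ≤ ((univ : Finset ι).biUnion
            (fun u => (piAntidiag (univ : Finset ι) a).filter (fun x => h < x u))).card := by
          apply card_le_card
          intro x hx
          simp only [mem_filter, not_forall, not_le] at hx
          obtain ⟨hx1, u, hu⟩ := hx
          exact mem_biUnion.2 ⟨u, mem_univ u, mem_filter.2 ⟨hx1, hu⟩⟩
      _ ≤ ∑ u : ι, ((piAntidiag (univ : Finset ι) a).filter (fun x => h < x u)).card :=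
          card_biUnion_le
      _ ≤ ∑ _u : ι, (piAntidiag (univ : Finset ι) (a - h - 1)).card :=
          sum_le_sum fun u _ => card_big a h hb u
      _ = (k + 1) * (piAntidiag (univ : Finset ι) (a - h - 1)).card := by
          rw [sum_const, card_univ, hk, smul_eq_mul]
  have h2 := pa_lower (ι := ι) k a hk
  have h3 := pa_upper (ι := ι) k (a - h - 1) hk
  have h4 : (((a - h - 1 + k : ℕ)) : ℝ) ≤ (23 / 24 : ℝ) * (a : ℝ) := by
    have : ((24 * (a - h - 1 + k) : ℕ) : ℝ) ≤ ((23 * a : ℕ) : ℝ) := by exact_mod_cast hh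
    push_cast at this ⊢
    linarith
  have h5 : (((a - h - 1 + k : ℕ)) : ℝ) ^ k ≤ (23 / 24 : ℝ) ^ k * (a : ℝ) ^ k := by
    rw [← mul_pow]
    exact pow_le_pow_left₀ (Nat.cast_nonneg _) h4 k
  have h6 := num k hk2
  have h7 : ((piAntidiag (univ : Finset ι) a).card : ℝ) ≤
      (((piAntidiag (univ : Finset ι) a).filter (fun x => ∀ u, x u ≤ h)).card : ℝ) +
        ((k : ℝ) + 1) * ((piAntidiag (univ : Finset ι) (a - h - 1)).card : ℝ) := by
    exact_mod_cast h1
  have h8 : ((k : ℝ) + 1) * ((piAntidiag (univ : Finset ι) (a - h - 1)).card : ℝ) ≤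
      (1 / 2) * ((a : ℝ) ^ k / (k.factorial : ℝ)) := by
    calc ((k : ℝ) + 1) * ((piAntidiag (univ : Finset ι) (a - h - 1)).card : ℝ)
        ≤ ((k : ℝ) + 1) * (((23 / 24 : ℝ) ^ k * (a : ℝ) ^ k) / (k.factorial : ℝ)) := by
          apply mul_le_mul_of_nonneg_left (h3.trans _) (by positivity)
          exact div_le_div_of_nonneg_right h5 hf.le
      _ = (((k : ℝ) + 1) * (23 / 24 : ℝ) ^ k) * ((a : ℝ) ^ k / (k.factorial : ℝ)) := by ring
      _ ≤ (1 / 2) * ((a : ℝ) ^ k / (k.factorial : ℝ)) :=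
          mul_le_mul_of_nonneg_right h6 (by positivity)
  linarith

/-! ## decomposition -/

theorem exists_le_sum {ι : Type} [Fintype ι] [DecidableEq ι] (x : ι → ℕ) (m : ℕ)
    (hm : m ≤ ∑ i, x i) : ∃ y : ι → ℕ, (∀ i, y i ≤ x i) ∧ ∑ i, y i = m := by
  induction m with
  | zero => exact ⟨fun _ => 0, fun _ => Nat.zero_le _, by simp⟩
  | succ m ih =>
    obtain ⟨y, hy, hs⟩ := ih (by omega)
    obtain ⟨i, -, hi⟩ : ∃ i ∈ (univ : Finset ι), y i < x i :=
      Finset.exists_lt_of_sum_lt (by omega)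
    refine ⟨Function.update y i (y i + 1), fun j => ?_, ?_⟩
    · by_cases h : j = i
      · subst h
        rw [Function.update_self]
        omega
      · rw [Function.update_of_ne h]
        exact hy j
    · rw [Finset.sum_update_of_mem (mem_univ i)]
      have h1 := Finset.add_sum_erase univ y (mem_univ i)
      rw [Finset.erase_eq] at h1
      omega

theorem ncard_eq {W : Type} [DecidableEq W] {t : ℕ} (f : Fin t → Finset W) (v : W) :
    Nat.card {j : Fin t // v ∈ f j} = ∑ j, (if v ∈ f j then 1 else 0) := by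
  rw [Nat.card_eq_fintype_card, Fintype.card_subtype, Finset.card_filter]

theorem Sums_add {W : Type} [DecidableEq W] {Γ : Finset (Finset W)} {k a b : ℕ} {x y : W → ℕ}
    (hx : x ∈ Sums Γ k a) (hy : y ∈ Sums Γ k b) : x + y ∈ Sums Γ k (a + b) := by
  obtain ⟨f, hf, hx⟩ := hx
  obtain ⟨g, hg, hy⟩ := hy
  refine ⟨Fin.append f g, fun j => ?_, fun v => ?_⟩
  · induction j using Fin.addCases with
    | left j => rw [Fin.append_left]; exact hf j
    | right j => rw [Fin.append_right]; exact hg j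
  · rw [Pi.add_apply, hx, hy, ncard_eq, ncard_eq, ncard_eq, Fin.sum_univ_add]
    simp only [Fin.append_left, Fin.append_right]

theorem Sums_finite {W : Type} [Fintype W] [DecidableEq W] (Γ : Finset (Finset W)) (k t : ℕ) :
    (Sums Γ k t).Finite := by
  apply (Set.finite_Iic (fun _ : W => t)).subset
  rintro x ⟨f, -, hx⟩ v
  rw [hx]
  calc Nat.card {j : Fin t // v ∈ f j} ≤ Nat.card (Fin t) := Finite.card_subtype_le _
    _ = t := Nat.card_fin t

theorem typeA (h : S_CYC) (p m : ℕ) (x : Fin p → ℕ) (hx : ∀ u, x u ≤ m)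
    (hs : ∑ u, x u = 5 * m) :
    (Sum.elim x (fun _ => 0) : V0 p → ℕ) ∈ Sums (D0 p) 5 m := by
  classical
  obtain ⟨f, hf, hv⟩ := h (Fin p) p 5 m id x
    (fun i => by
      rw [Finset.sum_filter]
      simpa using hx i) hs
  refine ⟨fun j => (f j).map Function.Embedding.inl, fun j => ⟨?_, ?_⟩, ?_⟩
  · simp only [D0, mem_filter, mem_univ, true_and]
    left
    refine ⟨by rw [card_map, (hf j).1]; omega, fun v hv => ?_⟩
    obtain ⟨u, -, rfl⟩ := mem_map.1 hv
    exact ⟨u, rfl⟩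
  · rw [card_map, (hf j).1]
  · rintro (u | w)
    · rw [Sum.elim_inl, hv u, ncard_eq, ncard_eq]
      apply sum_congr rfl
      intro j _
      simp
    · rw [Sum.elim_inr, ncard_eq]
      simp

def cl (p : ℕ) : V0 p → Fin 6 :=
  Sum.elim (fun _ => 0) (Sum.elim (fun _ => 1) (fun i => ⟨(i : ℕ) + 2, by omega⟩))

theorem typeB (h : S_CYC) (p s : ℕ) (x : Fin p → ℕ) (y : Fin (3 * p - 2) → ℕ) (z : Fin 4 → ℕ)
    (hx : ∑ u, x u ≤ s) (hy : ∑ w, y w ≤ s) (hz : ∀ i, z i ≤ s)
    (hs : ∑ u, x u + (∑ w, y w + ∑ i, z i) = 5 * s) :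
    (Sum.elim x (Sum.elim y z) : V0 p → ℕ) ∈ Sums (D0 p) 5 s := by
  classical
  obtain ⟨f, hf, hv⟩ := h (V0 p) 6 5 s (cl p) (Sum.elim x (Sum.elim y z))
    (by
      intro i
      rw [Finset.sum_filter, Fintype.sum_sum_type, Fintype.sum_sum_type]
      have hz0 := hz 0
      have hz1 := hz 1
      have hz2 := hz 2
      have hz3 := hz 3
      simp only [Sum.elim_inl, Sum.elim_inr, cl, Fin.sum_univ_four]
      fin_cases i <;> simp [Fin.ext_iff] <;> assumption)
    (by
      rw [Fintype.sum_sum_type, Fintype.sum_sum_type]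
      simpa using hs)
  refine ⟨f, fun j => ⟨?_, (hf j).1⟩, hv⟩
  simp only [D0, mem_filter, mem_univ, true_and]
  right
  have hinj := (hf j).2
  refine ⟨fun u u' hu hu' => ?_, fun w w' hw hw' => ?_⟩
  · have := hinj (mem_coe.2 hu) (mem_coe.2 hu') rfl
    exact Sum.inl_injective this
  · have := hinj (mem_coe.2 hw) (mem_coe.2 hw') rfl
    exact Sum.inl_injective (Sum.inr_injective this)

/-- the data -/
def Phi (p : ℕ) (y : Fin 4 → ℕ) (xW : Fin (3 * p - 2) → ℕ) (xU : Fin p → ℕ) : V0 p → ℕ :=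
  Sum.elim xU (Sum.elim xW (fun i => ∑ w, xW w - y i))

theorem mem_main (h : S_CYC) (p m s v : ℕ) (hv : v ≤ s) (y : Fin 4 → ℕ) (hy : ∑ i, y i = v)
    (xW : Fin (3 * p - 2) → ℕ) (hW : ∑ w, xW w = s) (xU : Fin p → ℕ)
    (hU : ∑ u, xU u = v + 5 * m) (hU2 : ∀ u, xU u ≤ m) :
    Phi p y xW xU ∈ Sums (D0 p) 5 (m + s) := by
  obtain ⟨x2, h2, h2s⟩ := exists_le_sum xU (5 * m) (by omega)
  have hA := typeA h p m x2 (fun u => (h2 u).trans (hU2 u)) h2s
  have h1s : ∑ u, (xU u - x2 u) = v := by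
    have : ∑ u, (xU u - x2 u) + ∑ u, x2 u = ∑ u, xU u := by
      rw [← sum_add_distrib]
      exact sum_congr rfl fun u _ => Nat.sub_add_cancel (h2 u)
    omega
  have hyi : ∀ i, y i ≤ s := fun i =>
    ((single_le_sum (f := y) (fun _ _ => Nat.zero_le _) (mem_univ i)).trans hy.le).trans hv
  have hzs : ∑ i, (s - y i) + v = 4 * s := by
    rw [← hy, ← sum_add_distrib, sum_congr rfl fun i _ => Nat.sub_add_cancel (hyi i)]
    simp
  have hB := typeB h p s (fun u => xU u - x2 u) xW (fun i => s - y i) (by omega) (by omega)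
    (fun i => Nat.sub_le _ _) (by omega)
  have hadd := Sums_add hA hB
  convert hadd using 1
  funext w
  rcases w with u | w | i
  · have := h2 u
    simp only [Phi, Sum.elim_inl, Pi.add_apply]
    omega
  · simp [Phi]
  · simp [Phi, hW]

/-! ## counting -/

/-- the index set of the data -/
def Dat (p n t : ℕ) : Finset ((_ : ℕ × ℕ) × ((Fin 4 → ℕ) × ((Fin (3 * p - 2) → ℕ) × (Fin p → ℕ)))) :=
  (range (4 * n) ×ˢ range (4 * n)).sigma fun ij =>
    piAntidiag (univ : Finset (Fin 4)) (t - (p * n + ij.1) - ij.2) ×ˢ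
      (piAntidiag (univ : Finset (Fin (3 * p - 2))) (t - (p * n + ij.1)) ×ˢ
        (piAntidiag (univ : Finset (Fin p))
          (t - (p * n + ij.1) - ij.2 + 5 * (p * n + ij.1))).filter
            (fun x => ∀ u, x u ≤ p * n + ij.1))

theorem Dat_card_le (h : S_CYC) (p n t : ℕ) (hn : 9 ≤ p) (ht : 16 * (p * n) ≤ t) :
    (Dat p n t).card ≤ (Sums (D0 p) 5 t).ncard := by
  classical
  have hpn : 9 * n ≤ p * n := Nat.mul_le_mul_right n hn
  have hinj : Set.InjOn (fun d : (_ : ℕ × ℕ) × ((Fin 4 → ℕ) ×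
      ((Fin (3 * p - 2) → ℕ) × (Fin p → ℕ))) => Phi p d.2.1 d.2.2.1 d.2.2.2)
      (Dat p n t : Set _) := by
    rintro ⟨⟨i, j⟩, y, xW, xU⟩ hd ⟨⟨i', j'⟩, y', xW', xU'⟩ hd' hdd
    simp only [Dat, coe_sigma, Set.mem_sigma_iff, coe_product, Set.mem_prod, mem_coe, mem_range,
      mem_filter, mem_piAntidiag, mem_univ, implies_true, and_true] at hd hd'
    obtain ⟨⟨hi, hj⟩, hy, hW, hU, hU2⟩ := hd
    obtain ⟨⟨hi', hj'⟩, hy', hW', hU', hU2'⟩ := hd'
    simp only at hdd
    have hy2 : ∑ i, y i = t - (p * n + i) - j := hy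
    have hW2 : ∑ w, xW w = t - (p * n + i) := hW
    have hy2' : ∑ i, y' i = t - (p * n + i') - j' := hy'
    have hW2' : ∑ w, xW' w = t - (p * n + i') := hW'
    have e1 : xU = xU' := by
      funext u
      exact congrFun hdd (Sum.inl u)
    have e2 : xW = xW' := by
      funext u
      exact congrFun hdd (Sum.inr (Sum.inl u))
    have e3 : ∀ i, ∑ w, xW w - y i = ∑ w, xW' w - y' i := fun i =>
      congrFun hdd (Sum.inr (Sum.inr i))
    subst e1 e2
    have hii : i = i' := by omega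
    subst hii
    have hyl : ∀ l, y l ≤ ∑ w, xW w := fun l =>
      (single_le_sum (f := y) (fun _ _ => Nat.zero_le _) (mem_univ l)).trans (by omega)
    have hyl' : ∀ l, y' l ≤ ∑ w, xW w := fun l =>
      (single_le_sum (f := y') (fun _ _ => Nat.zero_le _) (mem_univ l)).trans (by omega)
    have e4 : y = y' := by
      funext l
      have h1 := e3 l
      have h2 := hyl l
      have h3 := hyl' l
      omega
    subst e4
    have hjj : j = j' := by omega
    subst hjj
    rfl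
  rw [← card_image_of_injOn hinj, ← Set.ncard_coe_finset]
  apply Set.ncard_le_ncard _ (Sums_finite _ _ _)
  rintro x hx
  obtain ⟨⟨⟨i, j⟩, y, xW, xU⟩, hd, rfl⟩ := mem_image.1 (mem_coe.1 hx)
  simp only [Dat, mem_sigma, mem_product, mem_range,
      mem_filter, mem_piAntidiag, mem_univ, implies_true, and_true] at hd
  obtain ⟨⟨hi, hj⟩, hy, hW, hU, hU2⟩ := hd
  have hmem := mem_main h p (p * n + i) (t - (p * n + i)) (t - (p * n + i) - j) (Nat.sub_le _ _)
    y hy xW hW xU hU hU2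
  rwa [show p * n + i + (t - (p * n + i)) = t by omega] at hmem

theorem ar (P n p t i j : ℕ) (h1 : 250 * n ≤ P) (h2 : 14 * p ≤ P) (h3 : 16 * P ≤ t)
    (h4 : t < 16 * P + 16 * p) (hi : i < 4 * n) (hj : j < 4 * n) (hp : 250 ≤ p) :
    P + i < t - (P + i) - j + 5 * (P + i) ∧
    24 * (t - (P + i) - j + 5 * (P + i) - (P + i) - 1 + (p - 1)) ≤
      23 * (t - (P + i) - j + 5 * (P + i)) ∧
    8 * P ≤ t - (P + i) - j ∧ 15 * P ≤ t - (P + i) + 4 * n ∧
    20 * P ≤ (t - (P + i) - j + 5 * (P + i)) + 4 * n := by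
  obtain ⟨s, hs⟩ : ∃ s, s = t - (P + i) := ⟨_, rfl⟩
  have e1 : s + (P + i) = t := by omega
  rw [← hs]
  obtain ⟨v, hv⟩ : ∃ v, v = s - j := ⟨_, rfl⟩
  have e2 : v + j = s := by omega
  rw [← hv]
  refine ⟨by omega, by omega, by omega, by omega, by omega⟩

theorem bern1 (p n : ℕ) (hp : 250 ≤ p) (X : ℝ) (hX : X = (p : ℝ) * n) :
    (20 * X) ^ (p - 1) * (4 / 5) ≤ (20 * X - 4 * n) ^ (p - 1) := by
  have hpR : (250 : ℝ) ≤ p := by exact_mod_cast hp
  have hX0 : 0 ≤ X := by rw [hX]; positivity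
  have h1 : 20 * X - 4 * n = 20 * X * (1 + (-(1 / (5 * (p : ℝ))))) := by
    rw [hX]
    field_simp
    ring
  rw [h1, mul_pow (20 * X) (1 + _)]
  apply mul_le_mul_of_nonneg_left _ (by positivity)
  have h2 : (1 / (5 * (p : ℝ))) ≤ 1 := by
    rw [div_le_one (by positivity)]
    linarith
  refine le_trans ?_ (one_add_mul_le_pow (by linarith) (p - 1))
  have h3 : ((p - 1 : ℕ) : ℝ) ≤ p := by exact_mod_cast Nat.sub_le p 1
  have h4 : ((p - 1 : ℕ) : ℝ) * (1 / (5 * (p : ℝ))) ≤ 1 / 5 := by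
    calc ((p - 1 : ℕ) : ℝ) * (1 / (5 * (p : ℝ))) ≤ p * (1 / (5 * (p : ℝ))) := by gcongr
      _ = 1 / 5 := by field_simp
  linarith

theorem bern2 (p n : ℕ) (hp : 250 ≤ p) (X : ℝ) (hX : X = (p : ℝ) * n) :
    (15 * X) ^ (3 * p - 3) * (1 / 5) ≤ (15 * X - 4 * n) ^ (3 * p - 3) := by
  have hpR : (250 : ℝ) ≤ p := by exact_mod_cast hp
  have hX0 : 0 ≤ X := by rw [hX]; positivity
  have h1 : 15 * X - 4 * n = 15 * X * (1 + (-(4 / (15 * (p : ℝ))))) := by
    rw [hX]
    field_simp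
    ring
  rw [h1, mul_pow (15 * X) (1 + _)]
  apply mul_le_mul_of_nonneg_left _ (by positivity)
  have h2 : (4 / (15 * (p : ℝ))) ≤ 1 := by
    rw [div_le_one (by positivity)]
    linarith
  refine le_trans ?_ (one_add_mul_le_pow (by linarith) (3 * p - 3))
  have h3 : ((3 * p - 3 : ℕ) : ℝ) ≤ 3 * p := by exact_mod_cast Nat.sub_le (3 * p) 3
  have h4 : ((3 * p - 3 : ℕ) : ℝ) * (4 / (15 * (p : ℝ))) ≤ 4 / 5 := by
    calc ((3 * p - 3 : ℕ) : ℝ) * (4 / (15 * (p : ℝ))) ≤ 3 * p * (4 / (15 * (p : ℝ))) := by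
          gcongr
      _ = 4 / 5 := by field_simp; norm_num
  linarith

theorem key (p n t : ℕ) (hp : 250 ≤ p) (hn : 14 ≤ n) (ht : 16 * (p * n) ≤ t)
    (ht2 : t < 16 * (p * n) + 16 * p) (X : ℝ) (hX : X = (p : ℝ) * n) (i j : ℕ)
    (hi : i < 4 * n) (hj : j < 4 * n) :
    (8 * X) ^ 3 / 6 * (((15 * X) ^ (3 * p - 3) * (1 / 5) / ((3 * p - 3).factorial : ℝ)) *
        ((20 * X) ^ (p - 1) * (4 / 5) / ((p - 1).factorial : ℝ) / 2)) ≤
      (((piAntidiag (univ : Finset (Fin 4)) (t - (p * n + i) - j) ×ˢ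
      (piAntidiag (univ : Finset (Fin (3 * p - 2))) (t - (p * n + i)) ×ˢ
        (piAntidiag (univ : Finset (Fin p))
          (t - (p * n + i) - j + 5 * (p * n + i))).filter
            (fun x => ∀ u, x u ≤ p * n + i))).card : ℕ) : ℝ) := by
  have hpn : 250 * n ≤ p * n := Nat.mul_le_mul_right n hp
  have hpn2 : 14 * p ≤ p * n := by
    rw [mul_comm]
    exact Nat.mul_le_mul_left p hn
  have hpR : (250 : ℝ) ≤ p := by exact_mod_cast hp
  have hnR : (14 : ℝ) ≤ n := by exact_mod_cast hn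
  have hX0 : 0 < X := by rw [hX]; positivity
  have hf1 : (0 : ℝ) < ((p - 1).factorial : ℝ) := by exact_mod_cast Nat.factorial_pos _
  have hf2 : (0 : ℝ) < ((3 * p - 3).factorial : ℝ) := by exact_mod_cast Nat.factorial_pos _
  have hXn : 250 * (n : ℝ) ≤ X := by
    rw [hX]
    exact mul_le_mul_of_nonneg_right hpR (by positivity)
  obtain ⟨a1, a2, a3, a4, a5⟩ := ar (p * n) n p t i j hpn hpn2 ht ht2 hi hj hp
  rw [card_product, card_product, Nat.cast_mul, Nat.cast_mul]
  have c1 : (8 * X) ^ 3 / 6 ≤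
      ((piAntidiag (univ : Finset (Fin 4)) (t - (p * n + i) - j)).card : ℝ) := by
    refine le_trans ?_ (pa_lower 3 _ (by simp))
    have h2 : 8 * X ≤ ((t - (p * n + i) - j : ℕ) : ℝ) := by
      rw [hX]
      exact_mod_cast a3
    have h3 : ((3 : ℕ).factorial : ℝ) = 6 := by norm_num [Nat.factorial]
    rw [h3]
    gcongr
  have c2 : (15 * X) ^ (3 * p - 3) * (1 / 5) / ((3 * p - 3).factorial : ℝ) ≤
      ((piAntidiag (univ : Finset (Fin (3 * p - 2))) (t - (p * n + i))).card : ℝ) := by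
    refine le_trans ?_ (pa_lower (3 * p - 3) _ (by rw [Fintype.card_fin]; omega))
    apply div_le_div_of_nonneg_right _ hf2.le
    refine (bern2 p n hp X hX).trans ?_
    apply pow_le_pow_left₀
    · linarith
    · have h2 : 15 * X ≤ ((t - (p * n + i) : ℕ) : ℝ) + 4 * n := by
        rw [hX]
        exact_mod_cast a4
      linarith
  have c3 : (20 * X) ^ (p - 1) * (4 / 5) / ((p - 1).factorial : ℝ) / 2 ≤
      (((piAntidiag (univ : Finset (Fin p))
        (t - (p * n + i) - j + 5 * (p * n + i))).filter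
          (fun x => ∀ u, x u ≤ p * n + i)).card : ℝ) := by
    have hk : Fintype.card (Fin p) = p - 1 + 1 := by
      rw [Fintype.card_fin]
      omega
    refine le_trans ?_ (le_of_le_of_eq (card_XU (ι := Fin p) (p - 1)
      (t - (p * n + i) - j + 5 * (p * n + i)) (p * n + i) hk (by omega) a1 a2) (by congr!))
    apply div_le_div_of_nonneg_right _ (by norm_num)
    apply div_le_div_of_nonneg_right _ hf1.le
    refine (bern1 p n hp X hX).trans ?_
    apply pow_le_pow_left₀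
    · linarith
    · have h2 : 20 * X ≤ ((t - (p * n + i) - j + 5 * (p * n + i) : ℕ) : ℝ) + 4 * n := by
        rw [hX]
        exact_mod_cast a5
      linarith
  apply mul_le_mul c1 _ (by positivity) (Nat.cast_nonneg _)
  exact mul_le_mul c2 c3 (by positivity) (Nat.cast_nonneg _)

theorem Dat_card_ge (p n t : ℕ) (hp : 250 ≤ p) (hn : 14 ≤ n) (ht : 16 * (p * n) ≤ t)
    (ht2 : t < 16 * (p * n) + 16 * p) :
    κ ^ (p - 1) * (16 * ((p : ℝ) * n)) ^ (4 * p + 1) /
      (10 ^ 8 * (p : ℝ) ^ 2 * (((p - 1).factorial : ℝ) * ((3 * p - 3).factorial : ℝ))) ≤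
      ((Dat p n t).card : ℝ) := by
  have hpR : (250 : ℝ) ≤ p := by exact_mod_cast hp
  have hnR : (14 : ℝ) ≤ n := by exact_mod_cast hn
  obtain ⟨X, hX⟩ : ∃ X : ℝ, X = (p : ℝ) * n := ⟨_, rfl⟩
  rw [← hX]
  have hX0 : 0 < X := by rw [hX]; positivity
  have hf1 : (0 : ℝ) < ((p - 1).factorial : ℝ) := by exact_mod_cast Nat.factorial_pos _
  have hf2 : (0 : ℝ) < ((3 * p - 3).factorial : ℝ) := by exact_mod_cast Nat.factorial_pos _
  have hcard : (4 * (n : ℝ)) ^ 2 *
      ((8 * X) ^ 3 / 6 * (((15 * X) ^ (3 * p - 3) * (1 / 5) / ((3 * p - 3).factorial : ℝ)) *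
        ((20 * X) ^ (p - 1) * (4 / 5) / ((p - 1).factorial : ℝ) / 2))) ≤
          ((Dat p n t).card : ℝ) := by
    rw [Dat, card_sigma, Nat.cast_sum]
    have h1 := Finset.card_nsmul_le_sum (range (4 * n) ×ˢ range (4 * n)) _ _
      (fun ij hij => key p n t hp hn ht ht2 X hX ij.1 ij.2 (mem_range.1 (mem_product.1 hij).1)
        (mem_range.1 (mem_product.1 hij).2))
    rw [card_product, card_range, nsmul_eq_mul] at h1
    refine le_trans (le_of_eq ?_) h1
    push_cast
    ring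
  refine le_trans ?_ hcard
  have e1 : κ ^ (p - 1) * (16 * X) ^ (4 * p + 1) =
      (16 * X) ^ 5 * ((20 * X) ^ (p - 1) * (15 * X) ^ (3 * p - 3)) := by
    rw [show 4 * p + 1 = 4 * (p - 1) + 5 by omega, show 3 * p - 3 = 3 * (p - 1) by omega,
      pow_add, pow_mul (16 * X) 4, pow_mul (15 * X) 3, ← mul_assoc, ← mul_pow κ, ← mul_pow (20 * X),
      show κ * (16 * X) ^ 4 = 20 * X * (15 * X) ^ 3 by rw [κ]; ring]
    ring
  rw [e1]
  have e2 : (16 * X) ^ 5 / (10 ^ 8 * (p : ℝ) ^ 2) ≤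
      (4 * (n : ℝ)) ^ 2 * ((8 * X) ^ 3 / 6) * (1 / 5 * (4 / 5) / 2) := by
    rw [div_le_iff₀ (by positivity), hX]
    have : 0 ≤ (p : ℝ) ^ 5 * (n : ℝ) ^ 5 := by positivity
    nlinarith
  obtain ⟨A, hA⟩ : ∃ A : ℝ, A = (20 * X) ^ (p - 1) / ((p - 1).factorial : ℝ) := ⟨_, rfl⟩
  obtain ⟨B, hB⟩ : ∃ B : ℝ, B = (15 * X) ^ (3 * p - 3) / ((3 * p - 3).factorial : ℝ) := ⟨_, rfl⟩
  have hA0 : 0 ≤ A := by rw [hA]; positivity
  have hB0 : 0 ≤ B := by rw [hB]; positivity
  calc (16 * X) ^ 5 * ((20 * X) ^ (p - 1) * (15 * X) ^ (3 * p - 3)) /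
      (10 ^ 8 * (p : ℝ) ^ 2 * (((p - 1).factorial : ℝ) * ((3 * p - 3).factorial : ℝ)))
      = (16 * X) ^ 5 / (10 ^ 8 * (p : ℝ) ^ 2) * (A * B) := by
        rw [hA, hB, div_mul_div_comm, div_mul_div_comm]
    _ ≤ ((4 * (n : ℝ)) ^ 2 * ((8 * X) ^ 3 / 6) * (1 / 5 * (4 / 5) / 2)) * (A * B) :=
        mul_le_mul_of_nonneg_right e2 (by positivity)
    _ = (4 * (n : ℝ)) ^ 2 * ((8 * X) ^ 3 / 6 * ((B * (1 / 5)) * ((A * (4 / 5)) / 2))) := by ring
    _ = _ := by
        rw [hA, hB, div_mul_eq_mul_div ((20 * X) ^ _), div_mul_eq_mul_div ((15 * X) ^ _)]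

end F5

open F5 in
theorem f5 (h : S_CYC) : S_F5 := by
  intro p hp
  refine ⟨240 * p, fun t => ?_⟩
  have hm : (0 : ℝ) < ((4 * p + 1).factorial : ℝ) := by exact_mod_cast Nat.factorial_pos _
  have hf1 : (0 : ℝ) < ((p - 1).factorial : ℝ) := by exact_mod_cast Nat.factorial_pos _
  have hf2 : (0 : ℝ) < ((3 * p - 3).factorial : ℝ) := by exact_mod_cast Nat.factorial_pos _
  have hpR : (250 : ℝ) ≤ p := by exact_mod_cast hp
  rcases lt_or_ge t (240 * p) with ht | ht
  · rw [Nat.sub_eq_zero_of_le ht.le]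
    rw [Nat.cast_zero, zero_pow (by omega), mul_zero, zero_div]
    exact Nat.cast_nonneg _
  · set n := t / (16 * p) with hn
    have h1 : 16 * p * n ≤ t := Nat.mul_div_le t (16 * p)
    have h2 : t < 16 * p * n + 16 * p := by
      have := Nat.lt_mul_div_succ t (show 0 < 16 * p by omega)
      rw [mul_add, mul_one] at this
      exact this
    have h3 : 15 ≤ n := by
      rw [hn, Nat.le_div_iff_mul_le (by omega)]
      omega
    have h4 : 16 * (p * n) = 16 * p * n := by ring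
    have hge := Dat_card_ge p n t hp (by omega) (by omega) (by omega)
    have hle := Dat_card_le h p n t (by omega) (by omega)
    have hle' : ((Dat p n t).card : ℝ) ≤ g0 p 5 t := by
      rw [g0]
      exact_mod_cast hle
    refine le_trans ?_ (hge.trans hle')
    have h5 : ((t - 240 * p : ℕ) : ℝ) ≤ 16 * ((p : ℝ) * n) := by
      have : t - 240 * p ≤ 16 * (p * n) := by omega
      exact_mod_cast this
    have h6 : (0 : ℝ) < κ := by
      rw [κ]
      norm_num
    calc R p * κ ^ (p - 1) / (10 ^ 8 * (p : ℝ) ^ 2) * ((t - 240 * p : ℕ) : ℝ) ^ (4 * p + 1) /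
        ((4 * p + 1).factorial : ℝ)
        = κ ^ (p - 1) * ((t - 240 * p : ℕ) : ℝ) ^ (4 * p + 1) /
          (10 ^ 8 * (p : ℝ) ^ 2 * (((p - 1).factorial : ℝ) * ((3 * p - 3).factorial : ℝ))) := by
          rw [R]
          field_simp
      _ ≤ κ ^ (p - 1) * (16 * ((p : ℝ) * n)) ^ (4 * p + 1) /
          (10 ^ 8 * (p : ℝ) ^ 2 * (((p - 1).factorial : ℝ) * ((3 * p - 3).factorial : ℝ))) := by
          gcongr

end Pool.Agent.R686.MU
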