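import Pool.Agent.R686.MU.Stm

/-!
# Mixed multiplicities of skeleta (MP_4aa539_al): the fibre dimension
-/

set_option autoImplicit false

namespace Pool.Agent.R686.MU.FinP

open Finset MvPolynomial
open scoped BigOperators Pointwise

variable {K : Type} [Field K] {V : Type} [Fintype V]

open Classical in
/-- exponent of a squarefree monomial -/
noncomputable def ind (F : Finset V) : V →₀ ℕ := ∑ v ∈ F, Finsupp.single v 1

open Classical in
theorem ind_apply (F : Finset V) (v : V) : ind F v = if v ∈ F then 1 else 0 := by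
  unfold ind
  rw [Finsupp.finsetSum_apply]
  by_cases h : v ∈ F
  · rw [if_pos h, Finset.sum_eq_single v]
    · simp
    · intro w _ hw; simp [Finsupp.single_apply, hw]
    · intro h'; exact absurd h h'
  · rw [if_neg h]
    refine Finset.sum_eq_zero fun w hw => ?_
    rw [Finsupp.single_apply, if_neg]
    rintro rfl; exact h hw

theorem mono_ind (F : Finset V) : (∏ v ∈ F, (X v : MvPolynomial V K)) = monomial (ind F) 1 := by
  classical
  unfold ind
  induction F using Finset.induction_on with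
  | empty => simp
  | insert a F ha ih =>
    rw [Finset.prod_insert ha, Finset.sum_insert ha, ih]
    have : (X a : MvPolynomial V K) = monomial (Finsupp.single a 1) 1 := rfl
    rw [this, monomial_mul, one_mul]

theorem mono_sum {ι : Type*} (s : Finset ι) (e : ι → V →₀ ℕ) :
    monomial (∑ x ∈ s, e x) (1 : K) = ∏ x ∈ s, monomial (e x) (1 : K) := by
  classical
  induction s using Finset.induction_on with
  | empty => simp
  | insert a F ha ih => rw [Finset.prod_insert ha, Finset.sum_insert ha, ← ih, monomial_mul, one_mul]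

/-- the generating set of the `i`-th ideal -/
def gen (K : Type) [Field K] {V : Type} (Δ : Finset (Finset V)) (i : ℕ) : Set (MvPolynomial V K) :=
  {f | ∃ F ∈ Δ, F.card = i + 1 ∧ f = ∏ v ∈ F, (MvPolynomial.X v : MvPolynomial V K)}

theorem ideal_eq (Δ : Finset (Finset V)) (hv : ∀ v : V, {v} ∈ Δ) (i : ℕ) :
    (if i = 0 then maxIdeal K V else skelIdeal K Δ i) = Ideal.span (gen K Δ i) := by
  split_ifs with h
  · subst h
    unfold maxIdeal gen
    congr 1
    ext f
    constructor
    · rintro ⟨v, rfl⟩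
      exact ⟨{v}, hv v, by simp, by simp⟩
    · rintro ⟨F, _, h2, rfl⟩
      obtain ⟨v, rfl⟩ := Finset.card_eq_one.1 (by simpa using h2)
      exact ⟨v, by simp⟩
  · rfl

/-- exponents -/
def T (d : ℕ) (Δ : Finset (Finset V)) (u : Fin d → ℕ) : Set (V →₀ ℕ) := {s | (⇑s) ∈ S d Δ u}

theorem J_eq (d : ℕ) (Δ : Finset (Finset V)) (hv : ∀ v : V, {v} ∈ Δ) (u : Fin d → ℕ) :
    J K d Δ u = Ideal.span ((fun s => monomial s (1 : K)) '' T d Δ u) := by
  classical
  have h1 : J K d Δ u = ∏ x : (Σ i : Fin d, Fin (u i)), Ideal.span (gen K Δ (x.1 : ℕ)) := by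
    unfold J
    rw [Fintype.prod_sigma]
    refine Finset.prod_congr rfl fun i _ => ?_
    rw [ideal_eq Δ hv i]
    simp
  rw [h1, Ideal.prod_span]
  congr 1
  ext f
  rw [Set.mem_fintype_prod]
  constructor
  · rintro ⟨g, hg, rfl⟩
    choose F hF1 hF2 hF3 using hg
    refine ⟨∑ x, ind (F x), ?_, ?_⟩
    · refine ⟨fun i j => F ⟨i, j⟩, fun i j => ⟨hF1 _, hF2 _⟩, fun v => ?_⟩
      rw [Finsupp.finsetSum_apply, Fintype.sum_sigma]
      refine Finset.sum_congr rfl fun i _ => ?_
      simp only [ind_apply]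
      rw [Finset.sum_boole, Nat.card_eq_fintype_card, Fintype.card_subtype]
      simp
    · show monomial (∑ x, ind (F x)) (1 : K) = _
      have : ∀ x, g x = monomial (ind (F x)) (1 : K) := fun x => by rw [hF3, mono_ind]
      simp only [this]
      rw [mono_sum]
  · rintro ⟨s, hs, rfl⟩
    obtain ⟨F, hF, hx⟩ := hs
    refine ⟨fun x => monomial (ind (F x.1 x.2)) (1 : K), fun x => ⟨F x.1 x.2, (hF _ _).1, (hF _ _).2, (mono_ind _).symm⟩, ?_⟩
    show ∏ x : (Σ i : Fin d, Fin (u i)), monomial (ind (F x.1 x.2)) (1 : K) = _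
    rw [← mono_sum]
    have : s = ∑ x : (Σ i : Fin d, Fin (u i)), ind (F x.1 x.2) := by
      ext v
      rw [hx v, Finsupp.finsetSum_apply, Fintype.sum_sigma]
      refine Finset.sum_congr rfl fun i _ => ?_
      simp only [ind_apply]
      rw [Finset.sum_boole, Nat.card_eq_fintype_card, Fintype.card_subtype]
      simp
    rw [this]

/-- all exponents have the same degree -/
theorem T_degree (d : ℕ) (Δ : Finset (Finset V)) (u : Fin d → ℕ) {s : V →₀ ℕ} (hs : s ∈ T d Δ u) :
    ∑ v, s v = ∑ i, u i * ((i : ℕ) + 1) := by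
  classical
  obtain ⟨F, hF, hx⟩ := hs
  have h1 : ∀ v, s v = ∑ i : Fin d, ∑ j : Fin (u i), if v ∈ F i j then 1 else 0 := by
    intro v
    rw [hx v]
    refine Finset.sum_congr rfl fun i _ => ?_
    rw [Finset.sum_boole, Nat.card_eq_fintype_card, Fintype.card_subtype]
    simp
  calc ∑ v, s v = ∑ v, ∑ i : Fin d, ∑ j : Fin (u i), (if v ∈ F i j then 1 else 0) :=
        Finset.sum_congr rfl fun v _ => h1 v
    _ = ∑ i : Fin d, ∑ v, ∑ j : Fin (u i), (if v ∈ F i j then 1 else 0) := Finset.sum_comm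
    _ = ∑ i : Fin d, ∑ j : Fin (u i), ∑ v, (if v ∈ F i j then 1 else 0) :=
        Finset.sum_congr rfl fun i _ => Finset.sum_comm
    _ = ∑ i : Fin d, ∑ j : Fin (u i), ((i : ℕ) + 1) := by
        refine Finset.sum_congr rfl fun i _ => Finset.sum_congr rfl fun j _ => ?_
        rw [← (hF i j).2]
        simp
    _ = _ := by simp

theorem T_finite (d : ℕ) (Δ : Finset (Finset V)) (u : Fin d → ℕ) : (T d Δ u).Finite := by
  classical
  have : T d Δ u ⊆ (fun x : V → ℕ => (Finsupp.equivFunOnFinite.symm x)) ''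
      (Set.univ.pi fun _ => Set.Iic (∑ i, u i * ((i : ℕ) + 1))) := by
    intro s hs
    refine ⟨s, fun v _ => ?_, by ext; simp⟩
    rw [Set.mem_Iic, ← T_degree d Δ u hs]
    exact Finset.single_le_sum (f := fun v => s v) (fun _ _ => Nat.zero_le _) (Finset.mem_univ v)
  exact (Set.Finite.image _ (Set.Finite.pi fun _ => Set.finite_Iic _)).subset this

theorem ncard_T (d : ℕ) (Δ : Finset (Finset V)) (u : Fin d → ℕ) :
    (T d Δ u).ncard = (S d Δ u).ncard := by
  have : S d Δ u = (fun s : V →₀ ℕ => (⇑s : V → ℕ)) '' T d Δ u := by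
    ext x
    constructor
    · intro hx
      exact ⟨Finsupp.equivFunOnFinite.symm x, by simpa [T] using hx, by ext; simp⟩
    · rintro ⟨s, hs, rfl⟩; exact hs
  rw [this, Set.ncard_image_of_injective _ DFunLike.coe_injective]

section Quot

variable (I : Ideal (MvPolynomial V K)) (m : Ideal (MvPolynomial V K))

theorem coeff_zero_of_mem (Tt : Set (V →₀ ℕ)) (D : ℕ) (hT : ∀ s ∈ Tt, ∑ v, s v = D)
    (hI : I = Ideal.span ((fun s => monomial s (1 : K)) '' Tt)) (hm : m = maxIdeal K V)
    (y : ↥I) (hy : y ∈ (m • (⊤ : Submodule (MvPolynomial V K) ↥I))) (s : V →₀ ℕ) (hs : s ∈ Tt) :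
    coeff s (y : MvPolynomial V K) = 0 := by
  classical
  induction hy using Submodule.smul_induction_on' with
  | smul r hr n hn =>
    show coeff s (r * (n : MvPolynomial V K)) = 0
    by_contra hne
    have h1 : s ∈ (r * (n : MvPolynomial V K)).support := by rwa [mem_support_iff]
    have h2 := support_mul _ _ h1
    rw [Finset.mem_add] at h2
    obtain ⟨a, ha, b, hb, hab⟩ := h2
    have hn' : (n : MvPolynomial V K) ∈ Ideal.span ((fun s => monomial s (1 : K)) '' Tt) := by
      rw [← hI]; exact n.2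
    rw [mem_ideal_span_monomial_image] at hn'
    obtain ⟨s', hs', hle⟩ := hn' b hb
    have hr' : r ∈ Ideal.span (X '' (Set.univ : Set V)) := by
      rw [Set.image_univ]; rw [hm] at hr; exact hr
    rw [mem_ideal_span_X_image] at hr'
    obtain ⟨v, _, hv⟩ := hr' a ha
    have e1 : ∑ w, s w = ∑ w, a w + ∑ w, b w := by
      rw [← hab, ← Finset.sum_add_distrib]; rfl
    have e2 : ∑ w, s' w ≤ ∑ w, b w := Finset.sum_le_sum fun w _ => hle w
    have e3 : 1 ≤ ∑ w, a w := by
      refine le_trans (Nat.one_le_iff_ne_zero.2 hv) ?_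
      exact Finset.single_le_sum (f := fun v => a v) (fun _ _ => Nat.zero_le _) (Finset.mem_univ v)
    rw [hT s hs] at e1
    rw [hT s' hs'] at e2
    omega
  | add x hx y hy ihx ihy =>
    show coeff s ((x : MvPolynomial V K) + (y : MvPolynomial V K)) = 0
    rw [coeff_add, ihx, ihy, add_zero]

theorem sub_const_mem (a : MvPolynomial V K) : a - C (constantCoeff a) ∈ maxIdeal K V := by
  classical
  have h : a - C (constantCoeff a) ∈ Ideal.span ((X : V → MvPolynomial V K) '' Set.univ) := by
    rw [mem_ideal_span_X_image]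
    intro e he
    by_contra hcon
    push Not at hcon
    have e0 : e = 0 := by
      ext v; simpa using hcon v (Set.mem_univ v)
    subst e0
    rw [mem_support_iff] at he
    apply he
    rw [coeff_sub, coeff_C, if_pos rfl, constantCoeff_eq, sub_self]
  rwa [Set.image_univ] at h

theorem finrank_eq (Tt : Set (V →₀ ℕ)) (D : ℕ) (hT : ∀ s ∈ Tt, ∑ v, s v = D) (hfin : Tt.Finite) :
    Module.finrank K (↥(Ideal.span ((fun s => monomial s (1 : K)) '' Tt)) ⧸
      (maxIdeal K V • (⊤ : Submodule (MvPolynomial V K)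
        ↥(Ideal.span ((fun s => monomial s (1 : K)) '' Tt))))) = Tt.ncard := by
  classical
  set I := Ideal.span ((fun s => monomial s (1 : K)) '' Tt) with hI
  set N : Submodule (MvPolynomial V K) ↥I := maxIdeal K V • ⊤ with hN
  have hmem : ∀ s : Tt, monomial (s : V →₀ ℕ) (1 : K) ∈ I :=
    fun s => Ideal.subset_span ⟨s, s.2, rfl⟩
  let v : Tt → (↥I ⧸ N) := fun s => Submodule.Quotient.mk ⟨monomial (s : V →₀ ℕ) (1 : K), hmem s⟩
  have li : LinearIndependent K v := by
    rw [linearIndependent_iff']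
    intro F g hg s hs
    have h1 : (∑ i ∈ F, g i • v i) = Submodule.Quotient.mk (p := N)
        (∑ i ∈ F, g i • (⟨monomial (i : V →₀ ℕ) (1 : K), hmem i⟩ : ↥I)) := by
      rw [← Submodule.mkQ_apply, map_sum]
      refine Finset.sum_congr rfl fun i _ => ?_
      rfl
    rw [h1, Submodule.Quotient.mk_eq_zero] at hg
    have h2 := coeff_zero_of_mem I (maxIdeal K V) Tt D hT hI rfl _ hg s s.2
    have h3 : ((∑ i ∈ F, g i • (⟨monomial (i : V →₀ ℕ) (1 : K), hmem i⟩ : ↥I) : ↥I) :
        MvPolynomial V K) = ∑ i ∈ F, g i • monomial (i : V →₀ ℕ) (1 : K) := by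
      rw [AddSubmonoidClass.coe_finset_sum]
      rfl
    rw [h3, coeff_sum, Finset.sum_eq_single s] at h2
    · simpa [coeff_smul] using h2
    · intro b _ hbs
      rw [coeff_smul, coeff_monomial, if_neg, smul_zero]
      exact fun h => hbs (Subtype.ext h)
    · intro h; exact absurd hs h
  have sp : ⊤ ≤ Submodule.span K (Set.range v) := by
    rintro q -
    obtain ⟨⟨j, hj⟩, rfl⟩ := Submodule.Quotient.mk_surjective _ q
    have key : ∀ (x : MvPolynomial V K) (hx : x ∈ I),
        (Submodule.Quotient.mk (p := N) ⟨x, hx⟩) ∈ Submodule.span K (Set.range v) := by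
      intro x hx
      refine Submodule.span_induction (p := fun x hx =>
        (Submodule.Quotient.mk (p := N) ⟨x, hx⟩) ∈ Submodule.span K (Set.range v)) ?_ ?_ ?_ ?_ hx
      · rintro _ ⟨s, hs, rfl⟩
        exact Submodule.subset_span ⟨⟨s, hs⟩, rfl⟩
      · have : (Submodule.Quotient.mk (p := N) (⟨0, I.zero_mem⟩ : ↥I)) = 0 := by
          rw [Submodule.Quotient.mk_eq_zero]; exact N.zero_mem
        rw [this]; exact Submodule.zero_mem _
      · intro x y hx hy h1 h2
        exact Submodule.add_mem _ h1 h2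
      · intro a x hx h1
        have e1 : (Submodule.Quotient.mk (p := N) (⟨a • x, I.smul_mem a hx⟩ : ↥I)) =
            (constantCoeff a) • (Submodule.Quotient.mk (p := N) (⟨x, hx⟩ : ↥I)) := by
          rw [← Submodule.Quotient.mk_smul, Submodule.Quotient.eq]
          have e2 : ((⟨a • x, I.smul_mem a hx⟩ : ↥I) - (constantCoeff a) • (⟨x, hx⟩ : ↥I)) =
              (a - C (constantCoeff a)) • (⟨x, hx⟩ : ↥I) := by
            apply Subtype.ext
            show a * x - (constantCoeff a) • x = (a - C (constantCoeff a)) * x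
            rw [sub_mul, smul_eq_C_mul]
          rw [e2]
          exact Submodule.smul_mem_smul (sub_const_mem a) trivial
        rw [e1]
        exact Submodule.smul_mem _ _ h1
    exact key j hj
  rw [Module.finrank_eq_nat_card_basis (Module.Basis.mk li sp)]
  rfl

end Quot

theorem finrank_eq' (I : Ideal (MvPolynomial V K)) (Tt : Set (V →₀ ℕ)) (D : ℕ)
    (hT : ∀ s ∈ Tt, ∑ v, s v = D) (hfin : Tt.Finite)
    (hI : I = Ideal.span ((fun s => monomial s (1 : K)) '' Tt)) :
    Module.finrank K (↥I ⧸ (maxIdeal K V • (⊤ : Submodule (MvPolynomial V K) ↥I))) = Tt.ncard := by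
  subst hI
  exact finrank_eq Tt D hT hfin

theorem fin : S_FIN := by
  intro K _ V _ d Δ hv u
  unfold fiberDim
  rw [← ncard_T]
  exact finrank_eq' _ _ _ (fun s hs => T_degree d Δ u hs) (T_finite d Δ u) (J_eq d Δ hv u)

end Pool.Agent.R686.MU.FinP
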