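import Pool.Agent.R686.MU.Stm

/-!
# MU-G: counting vectors in six variables (helper699)
-/

set_option autoImplicit false

namespace Pool.Agent.R686.MU.GP

open Finset
open scoped BigOperators

theorem cnt (n : ℕ) : ({x : Fin 6 → ℕ | ∑ v, x v = n}).ncard = (n + 5).choose 5 := by
  rw [← Nat.card_coe_set_eq]
  have e := Sym.equivNatSumOfFintype (Fin 6) n
  have h1 : Nat.card {x : Fin 6 → ℕ | ∑ v, x v = n} = Nat.card (Sym (Fin 6) n) :=
    Nat.card_congr e.symm
  rw [h1, Nat.card_eq_fintype_card, Sym.card_sym_eq_choose, Fintype.card_fin]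
  have e2 : 6 + n - 1 = n + 5 := by omega
  rw [e2]
  exact Nat.choose_symm_of_eq_add (by omega)

theorem fin (n : ℕ) : ({x : Fin 6 → ℕ | ∑ v, x v = n}).Finite := by
  apply Set.finite_of_ncard_pos
  rw [cnt]
  exact Nat.choose_pos (by omega)

theorem sums_finite (k t : ℕ) : (Sums D6 k t).Finite := by
  apply (Set.finite_range (fun (f : Fin t → Finset (Fin 6)) (v : Fin 6) =>
    Nat.card {j : Fin t // v ∈ f j})).subset
  rintro x ⟨f, _, hf⟩
  exact ⟨f, (funext hf).symm⟩

theorem mem_sums (h : S_CYC) (k t : ℕ) (x : Fin 6 → ℕ) (hx : ∀ i, x i ≤ t)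
    (hs : ∑ v, x v = k * t) : x ∈ Sums D6 k t := by
  obtain ⟨f, hf1, hf2⟩ := h (Fin 6) 6 k t id x (by
    intro i
    have : univ.filter (fun v : Fin 6 => id v = i) = {i} := by
      ext v
      simp
    rw [this, Finset.sum_singleton]
    exact hx i) hs
  exact ⟨f, fun j => ⟨Finset.mem_univ _, (hf1 j).1⟩, hf2⟩

/-- lower bound of a binomial coefficient -/
theorem choose_lower (n : ℕ) : ((n : ℝ)) ^ 5 / 120 ≤ ((n + 5).choose 5 : ℝ) := by
  have h := Nat.pow_le_choose (α := ℝ) 5 (n + 5)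
  have e : n + 5 + 1 - 5 = n + 1 := by omega
  rw [e] at h
  have h5 : ((Nat.factorial 5 : ℕ) : ℝ) = 120 := by norm_num [Nat.factorial]
  rw [h5] at h
  refine le_trans ?_ h
  push_cast
  gcongr
  linarith

theorem choose_upper (n : ℕ) : ((n.choose 5 : ℕ) : ℝ) ≤ (n : ℝ) ^ 5 / 120 := by
  have h := Nat.choose_le_pow_div (α := ℝ) 5 n
  have h5 : ((Nat.factorial 5 : ℕ) : ℝ) = 120 := by norm_num [Nat.factorial]
  rwa [h5] at h

theorem fact5 : ((Nat.factorial 5 : ℕ) : ℝ) = 120 := by norm_num [Nat.factorial]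

/-- vectors with one large coordinate -/
theorem big_card (t : ℕ) (ht : 1 ≤ t) (i : Fin 6) :
    ({x : Fin 6 → ℕ | ∑ v, x v = 3 * t ∧ t + 1 ≤ x i}).ncard ≤ (2 * t + 4).choose 5 := by
  have e : (2 * t + 4).choose 5 = ({x : Fin 6 → ℕ | ∑ v, x v = 2 * t - 1}).ncard := by
    rw [cnt]
    congr 1
    omega
  rw [e]
  refine Set.ncard_le_ncard_of_injOn (fun x => Function.update x i (x i - (t + 1))) ?_ ?_ (fin _)
  · rintro x ⟨h1, h2⟩
    show ∑ v, Function.update x i (x i - (t + 1)) v = 2 * t - 1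
    rw [Finset.sum_update_of_mem (Finset.mem_univ i)]
    have h3 := Finset.add_sum_erase univ x (Finset.mem_univ i)
    rw [Finset.sdiff_singleton_eq_erase]
    omega
  · rintro x ⟨_, h2⟩ y ⟨_, h4⟩ hxy
    have hxy' : ∀ v, Function.update x i (x i - (t + 1)) v = Function.update y i (y i - (t + 1)) v :=
      fun v => congrFun hxy v
    funext v
    by_cases hv : v = i
    · subst hv
      have := hxy' v
      rw [Function.update_self, Function.update_self] at this
      omega
    · have := hxy' v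
      rwa [Function.update_of_ne hv, Function.update_of_ne hv] at this

theorem g3 (h : S_CYC) : S_G3 := by
  refine ⟨2000, fun t => ?_⟩
  rw [fact5]
  rcases Nat.lt_or_ge t 2000 with ht | ht
  · have : t - 2000 = 0 := by omega
    rw [this, Nat.cast_zero, zero_pow (by norm_num), mul_zero, zero_div]
    unfold g6
    exact Nat.cast_nonneg _
  · have hsub : {x : Fin 6 → ℕ | ∑ v, x v = 3 * t} \
        (⋃ i : Fin 6, {x : Fin 6 → ℕ | ∑ v, x v = 3 * t ∧ t + 1 ≤ x i}) ⊆ Sums D6 3 t := by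
      rintro x ⟨h1, h2⟩
      apply mem_sums h 3 t x _ h1
      intro i
      by_contra hc
      apply h2
      rw [Set.mem_iUnion]
      exact ⟨i, h1, by omega⟩
    have h1 := Set.ncard_le_ncard hsub (sums_finite 3 t)
    have hU : (⋃ i : Fin 6, {x : Fin 6 → ℕ | ∑ v, x v = 3 * t ∧ t + 1 ≤ x i}).ncard ≤
        6 * (2 * t + 4).choose 5 := by
      calc (⋃ i : Fin 6, {x : Fin 6 → ℕ | ∑ v, x v = 3 * t ∧ t + 1 ≤ x i}).ncard
          ≤ ∑ i : Fin 6, ({x : Fin 6 → ℕ | ∑ v, x v = 3 * t ∧ t + 1 ≤ x i}).ncard :=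
            Set.ncard_iUnion_le_of_fintype _
        _ ≤ ∑ _i : Fin 6, (2 * t + 4).choose 5 := Finset.sum_le_sum (fun i _ => big_card t (by omega) i)
        _ = 6 * (2 * t + 4).choose 5 := by simp
    have hfinU : (⋃ i : Fin 6, {x : Fin 6 → ℕ | ∑ v, x v = 3 * t ∧ t + 1 ≤ x i}).Finite :=
      Set.finite_iUnion (fun i => (fin (3 * t)).subset (fun x hx => hx.1))
    have h2 := Set.le_ncard_sdiff (⋃ i : Fin 6, {x : Fin 6 → ℕ | ∑ v, x v = 3 * t ∧ t + 1 ≤ x i})
      {x : Fin 6 → ℕ | ∑ v, x v = 3 * t} hfinU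
    rw [cnt] at h2
    have h3 : (3 * t + 5).choose 5 ≤ (Sums D6 3 t).ncard + 6 * (2 * t + 4).choose 5 := by omega
    have h4 : (((3 * t + 5).choose 5 : ℕ) : ℝ) ≤ g6 3 t + 6 * (((2 * t + 4).choose 5 : ℕ) : ℝ) := by
      unfold g6
      exact_mod_cast h3
    have h5 := choose_lower (3 * t)
    have h6 := choose_upper (2 * t + 4)
    have h7 : ((t - 2000 : ℕ) : ℝ) ≤ t := by exact_mod_cast Nat.sub_le t 2000
    have h8 : ((t - 2000 : ℕ) : ℝ) ^ 5 ≤ (t : ℝ) ^ 5 := pow_le_pow_left₀ (Nat.cast_nonneg _) h7 5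
    have ht' : (2000 : ℝ) ≤ t := by exact_mod_cast ht
    push_cast at h5 h6 h4
    set T : ℝ := (t : ℝ) with hT
    have key : 50 * T ^ 5 ≤ (3 * T) ^ 5 - 6 * (2 * T + 4) ^ 5 := by
      have a1 : 2000 * T ^ 4 ≤ T ^ 5 := by
        have : 0 ≤ T ^ 4 := by positivity
        nlinarith
      have a2 : 2000 * T ^ 3 ≤ T ^ 4 := by
        have : 0 ≤ T ^ 3 := by positivity
        nlinarith
      have a3 : 2000 * T ^ 2 ≤ T ^ 3 := by
        have : 0 ≤ T ^ 2 := by positivity
        nlinarith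
      have a4 : 2000 * T ≤ T ^ 2 := by nlinarith
      nlinarith
    linarith

theorem g5 (h : S_CYC) : S_G5 := by
  refine ⟨0, fun t => ?_⟩
  rw [fact5, Nat.sub_zero, one_mul]
  have h1 : ({x : Fin 6 → ℕ | ∑ v, x v = t}).ncard ≤ (Sums D6 5 t).ncard := by
    refine Set.ncard_le_ncard_of_injOn (fun x v => t - x v) ?_ ?_ (sums_finite 5 t)
    · intro x hx
      have hx' : ∑ v, x v = t := hx
      have hle : ∀ i, x i ≤ t := by
        intro i
        rw [← hx']
        exact Finset.single_le_sum (f := x) (fun _ _ => Nat.zero_le _) (Finset.mem_univ i)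
      apply mem_sums h 5 t
      · intro i; exact Nat.sub_le _ _
      · have h2 : ∑ v : Fin 6, (t - x v) + ∑ v : Fin 6, x v = 6 * t := by
          rw [← Finset.sum_add_distrib]
          have : ∀ v ∈ (univ : Finset (Fin 6)), t - x v + x v = t := fun v _ => Nat.sub_add_cancel (hle v)
          rw [Finset.sum_congr rfl this]
          simp
        omega
    · intro x hx y hy hxy
      have hx' : ∑ v, x v = t := hx
      have hy' : ∑ v, y v = t := hy
      have hle : ∀ i, x i ≤ t := by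
        intro i
        rw [← hx']
        exact Finset.single_le_sum (f := x) (fun _ _ => Nat.zero_le _) (Finset.mem_univ i)
      have hle' : ∀ i, y i ≤ t := by
        intro i
        rw [← hy']
        exact Finset.single_le_sum (f := y) (fun _ _ => Nat.zero_le _) (Finset.mem_univ i)
      funext v
      have h3 : t - x v = t - y v := congrFun hxy v
      have := hle v
      have := hle' v
      omega
  rw [cnt] at h1
  have h2 : (((t + 5).choose 5 : ℕ) : ℝ) ≤ g6 5 t := by
    unfold g6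
    exact_mod_cast h1
  exact (choose_lower t).trans h2

theorem ug : S_UG := by
  intro c
  refine ⟨132 * c + 10, fun s => ?_⟩
  rw [fact5]
  set L : ℕ := (s + 44 * c) / 4 with hL
  have hpos : (0 : ℝ) ≤ 1 / 32 * ((s + (132 * c + 10) : ℕ) : ℝ) ^ 5 / 120 := by positivity
  by_cases hs : s ≤ 6 * L
  · have h1 : ({x : Fin 6 → ℕ | ∑ v, x v = s ∧ ∀ i, 4 * x i ≤ s + 44 * c}).ncard ≤
        ({x : Fin 6 → ℕ | ∑ v, x v = 6 * L - s}).ncard := by
      have hle : ∀ x : Fin 6 → ℕ, (∀ i, 4 * x i ≤ s + 44 * c) → ∀ i, x i ≤ L := by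
        intro x hx i
        rw [hL, Nat.le_div_iff_mul_le (by norm_num)]
        have := hx i
        omega
      refine Set.ncard_le_ncard_of_injOn (fun x v => L - x v) ?_ ?_ (fin _)
      · rintro x ⟨h2, h3⟩
        show ∑ v, (L - x v) = 6 * L - s
        have h4 : ∑ v : Fin 6, (L - x v) + ∑ v : Fin 6, x v = 6 * L := by
          rw [← Finset.sum_add_distrib]
          have : ∀ v ∈ (univ : Finset (Fin 6)), L - x v + x v = L :=
            fun v _ => Nat.sub_add_cancel (hle x h3 v)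
          rw [Finset.sum_congr rfl this]
          simp
        omega
      · rintro x ⟨_, h3⟩ y ⟨_, h5⟩ hxy
        funext v
        have h6 : L - x v = L - y v := congrFun hxy v
        have := hle x h3 v
        have := hle y h5 v
        omega
    rw [cnt] at h1
    have h2 : G6 c s ≤ (((6 * L - s + 5).choose 5 : ℕ) : ℝ) := by
      unfold G6
      exact_mod_cast h1
    refine h2.trans ((choose_upper _).trans ?_)
    have h3 : 2 * (6 * L - s + 5) ≤ s + (132 * c + 10) := by
      have : 4 * L ≤ s + 44 * c := by rw [hL]; omega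
      omega
    have h4 : 2 * ((6 * L - s + 5 : ℕ) : ℝ) ≤ ((s + (132 * c + 10) : ℕ) : ℝ) := by exact_mod_cast h3
    have h5 : (2 * ((6 * L - s + 5 : ℕ) : ℝ)) ^ 5 ≤ ((s + (132 * c + 10) : ℕ) : ℝ) ^ 5 :=
      pow_le_pow_left₀ (by positivity) h4 5
    rw [mul_pow] at h5
    linarith
  · have h1 : {x : Fin 6 → ℕ | ∑ v, x v = s ∧ ∀ i, 4 * x i ≤ s + 44 * c} = ∅ := by
      rw [Set.eq_empty_iff_forall_notMem]
      rintro x ⟨h2, h3⟩
      apply hs
      rw [← h2]
      calc ∑ v, x v ≤ ∑ _v : Fin 6, L := by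
            apply Finset.sum_le_sum
            intro v _
            rw [hL, Nat.le_div_iff_mul_le (by norm_num)]
            have := h3 v
            omega
        _ = 6 * L := by simp
    unfold G6
    rw [h1, Set.ncard_empty, Nat.cast_zero]
    exact hpos

end Pool.Agent.R686.MU.GP
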