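import Pool.Agent.R686.MU.Defs

/-!
# Mixed multiplicities of skeleta (MP_4aa539_al): statements of the pieces
-/

set_option autoImplicit false

namespace Pool.Agent.R686.MU

open Finset Filter Topology
open scoped BigOperators

/-- FIN: `dim (J^u / 𝔪 J^u)` is the number of sums of faces. -/
def S_FIN : Prop := ∀ (K : Type) [Field K] (V : Type) [Fintype V] (d : ℕ) (Δ : Finset (Finset V)),
  (∀ v : V, {v} ∈ Δ) → ∀ u : Fin d → ℕ, fiberDim K d Δ u = (S d Δ u).ncard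

/-- COEF: a coefficient of a polynomial as a limit. -/
def S_COEF : Prop := ∀ (d m : ℕ) (P : MvPolynomial (Fin d) ℚ) (i : Fin d) (c : ℕ),
  P.totalDegree ≤ m →
  Tendsto (fun t : ℕ => ((MvPolynomial.eval
      (fun j => ((Function.update (fun _ => c) i t : Fin d → ℕ) j : ℚ)) P : ℚ) : ℝ) / (t : ℝ) ^ m)
    atTop (𝓝 ((P.coeff (Finsupp.single i m) : ℚ) : ℝ))

/-- CU: upper bounds for a convolution. -/
def S_CU : Prop := ∀ (f g : ℕ → ℝ) (m l : ℕ) (α β : ℝ), (∀ n, 0 ≤ f n) → (∀ n, 0 ≤ g n) →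
  0 ≤ α → 0 ≤ β → UB f m α → UB g l β → UB (conv f g) (m + l + 1) (α * β)

/-- CL: lower bounds for a convolution. -/
def S_CL : Prop := ∀ (f g : ℕ → ℝ) (m l : ℕ) (α β : ℝ), (∀ n, 0 ≤ f n) → (∀ n, 0 ≤ g n) →
  0 ≤ α → 0 ≤ β → LB f m α → LB g l β → LB (conv f g) (m + l + 1) (α * β)

/-- UP: the sums of `t` faces with 4 elements and of boundedly many other faces lie in a region which
is a product. -/
def S_UP : Prop := ∀ (M p c t : ℕ),
  ((S 5 (DD M p) (Function.update (fun _ => c) 3 t)).ncard : ℝ) ≤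
    cp (F0 p c) (G6 c) M (4 * t + 11 * c)

/-- LOW: many sums of `t` faces with `i + 1` elements and of boundedly many other faces. -/
def S_LOW : Prop := ∀ (M p c t : ℕ) (i : Fin 5), 1 ≤ p → (i : ℕ) ≠ 0 → 4 * M ≤ c →
  (((i : ℕ) + 1 : ℕ) : ℝ) ^ M * cp (g0 p ((i : ℕ) + 1)) (g6 ((i : ℕ) + 1)) M t ≤
    ((S 5 (DD M p) (Function.update (fun _ => c) i t)).ncard : ℝ)

/-- CYC: if all classes have mass at most `t` and the total mass is `k t` then the vector is the sum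
of the indicator vectors of `t` sets with `k` elements meeting every class at most once. -/
def S_CYC : Prop := ∀ (W : Type) [Fintype W] [DecidableEq W] (r k t : ℕ) (cl : W → Fin r)
  (x : W → ℕ), (∀ i : Fin r, ∑ v ∈ univ.filter (fun v => cl v = i), x v ≤ t) →
  ∑ v, x v = k * t →
  ∃ f : Fin t → Finset W, (∀ j, (f j).card = k ∧ Set.InjOn cl (f j : Set W)) ∧
    ∀ v, x v = Nat.card {j : Fin t // v ∈ f j}

/-- G3: at least about `50 t^5 / 5!` sums of `t` triples in a set with six elements. -/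
def S_G3 : Prop := LB (g6 3) 5 50

/-- G5: at least about `t^5 / 5!` sums of `t` quintuples in a set with six elements. -/
def S_G5 : Prop := LB (g6 5) 5 1

/-- F3: main component, sums of triples. -/
def S_F3 : Prop := ∀ p : ℕ, 250 ≤ p → LB (g0 p 3) (4 * p + 1) (R p / (10 ^ 6 * (p : ℝ) ^ 2))

/-- F5: main component, sums of quintuples. -/
def S_F5 : Prop := ∀ p : ℕ, 250 ≤ p →
  LB (g0 p 5) (4 * p + 1) (R p * κ ^ (p - 1) / (10 ^ 8 * (p : ℝ) ^ 2))

/-- UF: main component, upper bound. -/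
def S_UF : Prop := ∀ p c : ℕ, 1 ≤ p → UB (F0 p c) (4 * p + 1) (R p / 4 ^ (4 * (p - 1)))

/-- UG: simplex, upper bound. -/
def S_UG : Prop := ∀ c : ℕ, UB (G6 c) 5 (1 / 32)

/-- NUM: the parameters. -/
def S_NUM : Prop := ∃ M p : ℕ, 250 ≤ p ∧
  (1024 : ℝ) * 128 ^ M < 3 ^ M * 50 ^ M / (10 ^ 6 * (p : ℝ) ^ 2) ∧
  (1024 : ℝ) * 128 ^ M < 5 ^ M * (κ ^ (p - 1) / (10 ^ 8 * (p : ℝ) ^ 2))

/-- PURE: the complex is pure of dimension 5. -/
def S_PURE : Prop := ∀ M p : ℕ, 6 ≤ p → IsPureComplex 5 (DD M p)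

end Pool.Agent.R686.MU
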