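import Mathlib
import Pool.Agent.R686.MU.Stm

/-!
# Mixed multiplicities of skeleta (MP_4aa539_al): piece LOW
-/

set_option autoImplicit false

namespace Pool.Agent.R686.MU.Low

open Finset
open scoped BigOperators

section general

variable {V W : Type}

open Classical in
theorem card_ite {t : ℕ} (f : Fin t → Finset V) (v : V) :
    Nat.card {j : Fin t // v ∈ f j} = ∑ j, if v ∈ f j then 1 else 0 := by
  rw [Nat.card_eq_fintype_card, Fintype.card_subtype, Finset.card_filter]

theorem card_le_t {t : ℕ} (f : Fin t → Finset V) (v : V) :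
    Nat.card {j : Fin t // v ∈ f j} ≤ t := by
  classical
  rw [Nat.card_eq_fintype_card]
  exact (Fintype.card_subtype_le _).trans (by simp)

theorem Sums_le {Γ : Finset (Finset W)} {k t : ℕ} {x : W → ℕ} (hx : x ∈ Sums Γ k t) (v : W) :
    x v ≤ t := by
  obtain ⟨f, _, h⟩ := hx
  rw [h]; exact card_le_t f v

theorem Sums_mass [Fintype W] {Γ : Finset (Finset W)} {k t : ℕ} {x : W → ℕ}
    (hx : x ∈ Sums Γ k t) : ∑ v, x v = k * t := by
  classical
  obtain ⟨f, hf, h⟩ := hx
  have e : ∑ v, x v = ∑ v, ∑ j, (if v ∈ f j then 1 else 0) := by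
    apply sum_congr rfl
    intro v _
    rw [h, card_ite]
  rw [e, sum_comm]
  have h2 : ∀ j ∈ (univ : Finset (Fin t)), ∑ v, (if v ∈ f j then 1 else 0) = k := by
    intro j _
    rw [← (hf j).2]
    simp
  rw [sum_congr rfl h2]
  simp [mul_comm]

theorem Sums_zero (Γ : Finset (Finset W)) (k : ℕ) : (fun _ => 0) ∈ Sums Γ k 0 :=
  ⟨fun j => j.elim0, fun j => j.elim0, fun v => by simp⟩

theorem Sums_add {Γ : Finset (Finset W)} {k a b : ℕ} {x y : W → ℕ} (hx : x ∈ Sums Γ k a)
    (hy : y ∈ Sums Γ k b) : (fun v => x v + y v) ∈ Sums Γ k (a + b) := by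
  classical
  obtain ⟨f, hf, h⟩ := hx
  obtain ⟨g, hg, h'⟩ := hy
  refine ⟨Fin.append f g, ?_, ?_⟩
  · intro j
    refine Fin.addCases (fun i => ?_) (fun i => ?_) j
    · rw [Fin.append_left]; exact hf i
    · rw [Fin.append_right]; exact hg i
  · intro v
    dsimp only
    rw [h, h', card_ite, card_ite, card_ite, Fin.sum_univ_add]
    simp only [Fin.append_left, Fin.append_right]

theorem Sums_sum {ι : Type} {Γ : Finset (Finset W)} {k : ℕ} (s : Finset ι) (x : ι → W → ℕ)
    (a : ι → ℕ) (h : ∀ i ∈ s, x i ∈ Sums Γ k (a i)) :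
    (fun v => ∑ i ∈ s, x i v) ∈ Sums Γ k (∑ i ∈ s, a i) := by
  classical
  induction s using Finset.induction_on with
  | empty => simpa using Sums_zero Γ k
  | insert i s hi ih =>
    simp only [sum_insert hi]
    exact Sums_add (h i (mem_insert_self _ _)) (ih fun j hj => h j (mem_insert_of_mem hj))

theorem Sums_const [DecidableEq W] {Γ : Finset (Finset W)} {k : ℕ} (F : Finset W) (hF : F ∈ Γ)
    (hk : F.card = k) (n : ℕ) : (fun v => n * (if v ∈ F then 1 else 0)) ∈ Sums Γ k n := by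
  refine ⟨fun _ => F, fun _ => ⟨hF, hk⟩, fun v => ?_⟩
  rw [card_ite]
  by_cases h : v ∈ F <;> simp [h]

theorem Sums_map (φ : W ↪ V) {Γ : Finset (Finset W)} {Δ : Finset (Finset V)}
    (hΓ : ∀ F ∈ Γ, F.map φ ∈ Δ) {k t : ℕ} {x : W → ℕ} (hx : x ∈ Sums Γ k t) (x' : V → ℕ)
    (h1 : ∀ w, x' (φ w) = x w) (h2 : ∀ v, (∀ w, φ w ≠ v) → x' v = 0) : x' ∈ Sums Δ k t := by
  classical
  obtain ⟨f, hf, h⟩ := hx
  refine ⟨fun j => (f j).map φ, fun j => ⟨hΓ _ (hf j).1, by rw [card_map]; exact (hf j).2⟩,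
    fun v => ?_⟩
  rw [card_ite]
  by_cases hv : ∃ w, φ w = v
  · obtain ⟨w, rfl⟩ := hv
    rw [h1, h, card_ite]
    apply sum_congr rfl
    intro j _
    simp only [mem_map']
  · push Not at hv
    rw [h2 v hv]
    symm
    apply sum_eq_zero
    intro j _
    rw [if_neg]
    intro hm
    obtain ⟨w, _, hw⟩ := mem_map.1 hm
    exact hv w hw

theorem S_of_Sums {d : ℕ} {Δ : Finset (Finset V)} {u : Fin d → ℕ} (X : Fin d → V → ℕ)
    (h : ∀ l : Fin d, X l ∈ Sums Δ ((l : ℕ) + 1) (u l)) : (fun v => ∑ l, X l v) ∈ S d Δ u := by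
  choose f hf hx using h
  refine ⟨f, fun i j => hf i j, fun v => ?_⟩
  apply sum_congr rfl
  intro l _
  exact hx l v

theorem S_finite [Finite V] (d : ℕ) (Δ : Finset (Finset V)) (u : Fin d → ℕ) :
    (S d Δ u).Finite := by
  classical
  have := Fintype.ofFinite V
  refine (Set.finite_Iic (fun _ : V => ∑ i, u i)).subset ?_
  rintro x ⟨f, _, h⟩ v
  rw [h]
  exact sum_le_sum fun i _ => card_le_t (f i) v

theorem Sums_finite [Finite V] (Γ : Finset (Finset V)) (k t : ℕ) : (Sums Γ k t).Finite := by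
  classical
  have := Fintype.ofFinite V
  refine (Set.finite_Iic (fun _ : V => t)).subset ?_
  intro x hx v
  exact Sums_le hx v

theorem conv_card {α β γ : Type} (A : ℕ → Set α) (B : ℕ → Set β) (hA : ∀ n, (A n).Finite)
    (hB : ∀ n, (B n).Finite) (C : Set γ) (hC : C.Finite) (n : ℕ) (φ : α → β → γ)
    (hφ : ∀ a b a' b', φ a b = φ a' b' → a = a' ∧ b = b') (τ : β → ℕ)
    (hτ : ∀ m, ∀ b ∈ B m, τ b = m)
    (hmem : ∀ i j, i + j = n → ∀ a ∈ A i, ∀ b ∈ B j, φ a b ∈ C) :
    ∑ ij ∈ antidiagonal n, (A ij.1).ncard * (B ij.2).ncard ≤ C.ncard := by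
  classical
  have h1 : ∑ ij ∈ antidiagonal n, (A ij.1).ncard * (B ij.2).ncard =
      ((antidiagonal n).sigma fun ij => (hA ij.1).toFinset ×ˢ (hB ij.2).toFinset).card := by
    rw [card_sigma]
    apply sum_congr rfl
    intro ij _
    rw [card_product, Set.ncard_eq_toFinset_card _ (hA ij.1), Set.ncard_eq_toFinset_card _ (hB ij.2)]
  rw [h1, Set.ncard_eq_toFinset_card _ hC]
  apply card_le_card_of_injOn (fun e => φ e.2.1 e.2.2)
  · rintro ⟨⟨i, j⟩, ⟨a, b⟩⟩ he
    simp only [mem_coe, mem_sigma, HasAntidiagonal.mem_antidiagonal, mem_product, Set.Finite.mem_toFinset] at he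
    simp only [Set.Finite.coe_toFinset]
    exact hmem i j he.1 a he.2.1 b he.2.2
  · rintro ⟨⟨i, j⟩, ⟨a, b⟩⟩ he ⟨⟨i', j'⟩, ⟨a', b'⟩⟩ he' hh
    simp only [mem_coe, mem_sigma, HasAntidiagonal.mem_antidiagonal, mem_product, Set.Finite.mem_toFinset] at he he'
    obtain ⟨rfl, rfl⟩ := hφ _ _ _ _ hh
    have h2 : j = j' := by rw [← hτ j b he.2.2, ← hτ j' b he'.2.2]
    have h3 : i = i' := by omega
    subst h2; subst h3
    rfl

end general

/-- sums in a simplex plus `r < k` times a unit vector -/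
def B (k : ℕ) (b : ℕ) : Set (Fin 6 → ℕ) :=
  {z | ∃ y r, y ∈ Sums D6 k b ∧ r < k ∧ z = fun i => y i + if i = 0 then r else 0}

theorem sum_e0 (y : Fin 6 → ℕ) (r : ℕ) :
    ∑ i, (y i + if i = 0 then r else 0) = (∑ i, y i) + r := by
  rw [sum_add_distrib]
  simp

theorem B_mod {k b : ℕ} {y : Fin 6 → ℕ} {r : ℕ} (hy : y ∈ Sums D6 k b) (hr : r < k) :
    (∑ i, (y i + if i = 0 then r else 0)) % k = r ∧
    (∑ i, (y i + if i = 0 then r else 0)) / k = b := by
  rw [sum_e0, Sums_mass hy]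
  constructor
  · rw [Nat.mul_add_mod, Nat.mod_eq_of_lt hr]
  · rw [Nat.mul_add_div (by omega), Nat.div_eq_of_lt hr, add_zero]

theorem B_finite (k b : ℕ) : (B k b).Finite := by
  refine (Set.finite_Iic (fun _ : Fin 6 => b + k)).subset ?_
  rintro z ⟨y, r, hy, hr, rfl⟩ v
  have := Sums_le hy v
  dsimp only
  split_ifs <;> omega

theorem B_card (k b : ℕ) : (k : ℝ) * g6 k b ≤ ((B k b).ncard : ℝ) := by
  have h : (Sums D6 k b ×ˢ (Set.Iio k)).ncard ≤ (B k b).ncard := by
    refine Set.ncard_le_ncard_of_injOn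
      (fun yr : (Fin 6 → ℕ) × ℕ => fun i => yr.1 i + if i = 0 then yr.2 else 0) ?_ ?_ (B_finite k b)
    · rintro ⟨y, r⟩ ⟨hy, hr⟩
      exact ⟨y, r, hy, hr, rfl⟩
    · rintro ⟨y, r⟩ ⟨hy, hr⟩ ⟨y', r'⟩ ⟨hy', hr'⟩ hh
      dsimp only at hy hr hy' hr' hh
      have h1 := (B_mod hy hr).1
      have h2 := (B_mod hy' hr').1
      have h3 : ∑ i, (y i + if i = 0 then r else 0) = ∑ i, (y' i + if i = 0 then r' else 0) :=
        sum_congr rfl fun i _ => congrFun hh i
      have h4 : r = r' := by rw [← h1, ← h2, h3]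
      subst h4
      have h5 : y = y' := by
        funext i
        have := congrFun hh i
        omega
      rw [h5]
  rw [Set.ncard_prod] at h
  have h2 : (Set.Iio k).ncard = k := by
    rw [Set.ncard_eq_toFinset_card', Set.toFinset_Iio, Nat.card_Iio]
  rw [h2] at h
  unfold g6
  rw [mul_comm]
  exact_mod_cast h

/-- the data -/
def AA (p k M t : ℕ) : Set ((V0 p → ℕ) × (Fin M → Fin 6 → ℕ)) :=
  {xz | ∃ (t0 : ℕ) (s : Fin M → ℕ), t0 + ∑ j, s j = t ∧ xz.1 ∈ Sums (D0 p) k t0 ∧
    ∀ j, xz.2 j ∈ B k (s j)}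

theorem AA_finite (p k M t : ℕ) : (AA p k M t).Finite := by
  refine ((Set.finite_Iic (fun _ : V0 p => t)).prod
    (Set.finite_Iic (fun (_ : Fin M) (_ : Fin 6) => t + k))).subset ?_
  rintro ⟨x, z⟩ ⟨t0, s, hts, hx, hz⟩
  refine ⟨fun v => ?_, fun j i => ?_⟩
  · have := Sums_le hx v
    dsimp only at this ⊢
    omega
  · obtain ⟨y, r, hy, hr, h⟩ := hz j
    dsimp only at h ⊢
    rw [h]
    have h1 := Sums_le hy i
    have h2 : s j ≤ ∑ j, s j := single_le_sum (fun _ _ => Nat.zero_le _) (mem_univ j)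
    dsimp only
    split_ifs <;> omega

theorem AA_card (p k M : ℕ) : ∀ t, (k : ℝ) ^ M * cp (g0 p k) (g6 k) M t ≤
    ((AA p k M t).ncard : ℝ) := by
  induction M with
  | zero =>
    intro t
    rw [pow_zero, one_mul]
    change g0 p k t ≤ _
    unfold g0
    have h : (Sums (D0 p) k t).ncard ≤ (AA p k 0 t).ncard := by
      refine Set.ncard_le_ncard_of_injOn (fun x => (x, fun j => j.elim0)) ?_ ?_ (AA_finite p k 0 t)
      · intro x hx
        exact ⟨t, fun j => j.elim0, by simp, hx, fun j => j.elim0⟩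
      · intro x _ y _ h
        exact congrArg Prod.fst h
    exact_mod_cast h
  | succ M ih =>
    intro t
    have h1 : ∑ ij ∈ antidiagonal t, (AA p k M ij.1).ncard * (B k ij.2).ncard ≤
        (AA p k (M + 1) t).ncard := by
      refine conv_card (AA p k M) (B k) (AA_finite p k M) (B_finite k) _ (AA_finite p k (M + 1) t) t
        (fun xz z => (xz.1, Fin.cons z xz.2)) ?_ (fun z => (∑ i, z i) / k) ?_ ?_
      · rintro ⟨x, z⟩ y ⟨x', z'⟩ y' h
        rw [Prod.mk.injEq, Fin.cons_inj] at h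
        obtain ⟨h1, h2, h3⟩ := h
        dsimp only at h1 h3
        subst h1; subst h2; subst h3
        exact ⟨rfl, rfl⟩
      · rintro m _ ⟨y, r, hy, hr, rfl⟩
        exact (B_mod hy hr).2
      · rintro i j hij ⟨x, z⟩ ⟨t0, s, hts, hx, hz⟩ y hy
        refine ⟨t0, Fin.cons j s, ?_, hx, ?_⟩
        · rw [Fin.sum_univ_succ]
          simp only [Fin.cons_zero, Fin.cons_succ]
          omega
        · intro l
          refine Fin.cases ?_ (fun l => ?_) l
          · simpa using hy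
          · simpa using hz l
    have h2 : (k : ℝ) ^ (M + 1) * cp (g0 p k) (g6 k) (M + 1) t =
        ∑ ij ∈ antidiagonal t, ((k : ℝ) ^ M * cp (g0 p k) (g6 k) M ij.1) * (k * g6 k ij.2) := by
      rw [cp, conv, mul_sum]
      apply sum_congr rfl
      intro ij _
      ring
    rw [h2]
    refine le_trans (sum_le_sum (g := fun ij : ℕ × ℕ =>
      ((AA p k M ij.1).ncard : ℝ) * ((B k ij.2).ncard : ℝ)) ?_) ?_
    · intro ij _
      refine mul_le_mul (ih ij.1) (B_card k ij.2) ?_ (Nat.cast_nonneg _)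
      unfold g6
      positivity
    · exact_mod_cast h1


/-- the vertex `u0` -/
def u0 (p : ℕ) (hp : 1 ≤ p) : V0 p := Sum.inl ⟨0, hp⟩

/-- the embedding of `Z` -/
def embZ (p : ℕ) : Fin 4 ↪ V0 p := ⟨fun z => Sum.inr (Sum.inr z), fun a b h => by
  simpa using h⟩

open Classical in
/-- the fixed faces -/
noncomputable def FF (p : ℕ) (hp : 1 ≤ p) (l : Fin 5) : Finset (V0 p) :=
  insert (u0 p hp) ((univ.filter fun z : Fin 4 => (z : ℕ) < l).map (embZ p))

theorem FF_card (p : ℕ) (hp : 1 ≤ p) (l : Fin 5) : (FF p hp l).card = (l : ℕ) + 1 := by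
  classical
  have h : ∀ l : Fin 5, (univ.filter fun z : Fin 4 => (z : ℕ) < l).card = (l : ℕ) := by decide
  unfold FF
  rw [card_insert_of_notMem, card_map, h l]
  intro hm
  obtain ⟨z, _, hz⟩ := mem_map.1 hm
  simp [u0, embZ] at hz

theorem FF_mem (p : ℕ) (hp : 1 ≤ p) (l : Fin 5) : FF p hp l ∈ D0 p := by
  classical
  unfold D0
  rw [mem_filter]
  refine ⟨mem_univ _, Or.inr ⟨?_, ?_⟩⟩
  · intro u u' hu hu'
    unfold FF at hu hu'
    rw [mem_insert, mem_map] at hu hu'
    have h1 : u = ⟨0, hp⟩ := by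
      rcases hu with h | ⟨z, _, hz⟩
      · simpa [u0] using h
      · simp [embZ] at hz
    have h2 : u' = ⟨0, hp⟩ := by
      rcases hu' with h | ⟨z, _, hz⟩
      · simpa [u0] using h
      · simp [embZ] at hz
    rw [h1, h2]
  · intro w w' hw
    exfalso
    unfold FF at hw
    rw [mem_insert, mem_map] at hw
    rcases hw with h | ⟨z, _, hz⟩
    · simp [u0] at h
    · simp [embZ] at hz

/-- the embedding of the main component -/
def emb0 (M p : ℕ) : V0 p ↪ VV M p := Function.Embedding.inl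

/-- the embedding of a simplex -/
def embj (M p : ℕ) (j : Fin M) : Fin 6 ↪ VV M p := ⟨fun i => Sum.inr (j, i), fun a b h => by
  simpa using h⟩

theorem emb0_mem (M p : ℕ) (F : Finset (V0 p)) (hF : F ∈ D0 p) : F.map (emb0 M p) ∈ DD M p := by
  classical
  unfold DD
  rw [mem_filter]
  exact ⟨mem_univ _, Or.inl ⟨F, hF, rfl⟩⟩

theorem embj_mem (M p : ℕ) (j : Fin M) (F : Finset (Fin 6)) (_ : F ∈ D6) :
    F.map (embj M p j) ∈ DD M p := by
  classical
  unfold DD
  rw [mem_filter]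
  refine ⟨mem_univ _, Or.inr ⟨j, ?_⟩⟩
  intro v hv
  obtain ⟨i, _, rfl⟩ := mem_map.1 hv
  exact ⟨i, rfl⟩

theorem main_mem (M p k t0 : ℕ) (s : Fin M → ℕ) (x : V0 p → ℕ) (hx : x ∈ Sums (D0 p) k t0)
    (y : Fin M → Fin 6 → ℕ) (hy : ∀ j, y j ∈ Sums D6 k (s j)) :
    (Sum.elim x (fun ji => y ji.1 ji.2) : VV M p → ℕ) ∈ Sums (DD M p) k (t0 + ∑ j, s j) := by
  have h1 : (Sum.elim x (fun _ => 0) : VV M p → ℕ) ∈ Sums (DD M p) k t0 := by
    refine Sums_map (emb0 M p) (emb0_mem M p) hx _ (fun w => rfl) ?_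
    rintro (v | v) hv
    · exact absurd rfl (hv v)
    · rfl
  have h2 : ∀ j ∈ (univ : Finset (Fin M)),
      (Sum.elim (fun _ => 0) (fun ji => if ji.1 = j then y j ji.2 else 0) : VV M p → ℕ) ∈
        Sums (DD M p) k (s j) := by
    intro j _
    refine Sums_map (embj M p j) (embj_mem M p j) (hy j) _ (fun w => ?_) ?_
    · simp [embj]
    · rintro (v | ⟨j', i⟩) hv
      · rfl
      · simp only [Sum.elim_inr]
        rw [if_neg]
        rintro rfl
        exact hv i rfl
  have h3 := Sums_add h1 (Sums_sum univ _ _ h2)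
  have e : (Sum.elim x (fun ji => y ji.1 ji.2) : VV M p → ℕ) = fun v =>
      (Sum.elim x (fun _ => 0) : VV M p → ℕ) v + ∑ j, (Sum.elim (fun _ => 0)
        (fun ji => if ji.1 = j then y j ji.2 else 0) : VV M p → ℕ) v := by
    funext v
    rcases v with v | ⟨j', i⟩
    · simp
    · simp
  rw [e]
  exact h3

open Classical in
theorem zero_mem (M p c : ℕ) (hp : 1 ≤ p) (r : Fin M → ℕ) (hr : ∑ j, r j ≤ c) :
    (Sum.elim (fun v => (c - ∑ j, r j) * (if v ∈ FF p hp 0 then 1 else 0))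
      (fun ji => if ji.2 = 0 then r ji.1 else 0) : VV M p → ℕ) ∈ Sums (DD M p) 1 c := by
  have h1 : (fun v : VV M p => (c - ∑ j, r j) * (if v ∈ (FF p hp 0).map (emb0 M p) then 1 else 0))
      ∈ Sums (DD M p) 1 (c - ∑ j, r j) :=
    Sums_const _ (emb0_mem M p _ (FF_mem p hp 0)) (by rw [card_map]; exact FF_card p hp 0) _
  have h2 : ∀ j ∈ (univ : Finset (Fin M)),
      (fun v : VV M p => r j * (if v ∈ ({0} : Finset (Fin 6)).map (embj M p j) then 1 else 0)) ∈
        Sums (DD M p) 1 (r j) := by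
    intro j _
    exact Sums_const _ (embj_mem M p j _ (mem_univ _)) (by rw [card_map, card_singleton]) _
  have h3 := Sums_add h1 (Sums_sum univ _ _ h2)
  rw [Nat.sub_add_cancel hr] at h3
  have e : (Sum.elim (fun v => (c - ∑ j, r j) * (if v ∈ FF p hp 0 then 1 else 0))
      (fun ji => if ji.2 = 0 then r ji.1 else 0) : VV M p → ℕ) = fun v : VV M p =>
      (c - ∑ j, r j) * (if v ∈ (FF p hp 0).map (emb0 M p) then 1 else 0) +
      ∑ j, r j * (if v ∈ ({0} : Finset (Fin 6)).map (embj M p j) then 1 else 0) := by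
    funext v
    rcases v with v | ⟨j', i⟩
    · have h4 : ((Sum.inl v : VV M p) ∈ (FF p hp 0).map (emb0 M p)) ↔ v ∈ FF p hp 0 :=
        mem_map' (emb0 M p)
      have h5 : ∀ j, (Sum.inl v : VV M p) ∉ ({0} : Finset (Fin 6)).map (embj M p j) := by
        intro j hm
        obtain ⟨z, _, hz⟩ := mem_map.1 hm
        simp [embj] at hz
      simp only [Sum.elim_inl, h4, h5, if_false, mul_zero, sum_const_zero, add_zero]
    · have h4 : (Sum.inr (j', i) : VV M p) ∉ (FF p hp 0).map (emb0 M p) := by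
        intro hm
        obtain ⟨z, _, hz⟩ := mem_map.1 hm
        simp [emb0] at hz
      have h5 : ∀ j, (Sum.inr (j', i) : VV M p) ∈ ({0} : Finset (Fin 6)).map (embj M p j) ↔
          (j' = j ∧ i = 0) := by
        intro j
        rw [mem_map]
        constructor
        · rintro ⟨z, hz, hz2⟩
          rw [mem_singleton] at hz
          subst hz
          have : (j, (0 : Fin 6)) = (j', i) := Sum.inr_injective hz2
          rw [Prod.mk.injEq] at this
          exact ⟨this.1.symm, this.2.symm⟩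
        · rintro ⟨rfl, rfl⟩
          exact ⟨0, mem_singleton_self _, rfl⟩
      simp only [Sum.elim_inr, h4, h5, if_false, mul_zero, zero_add]
      by_cases hi : i = 0
      · simp [hi]
      · simp [hi]
  rw [e]
  exact h3

open Classical in
/-- the contribution of the fixed faces -/
noncomputable def base (p c : ℕ) (hp : 1 ≤ p) (i : Fin 5) (v : V0 p) : ℕ :=
  ∑ l : Fin 5, if l = i ∨ l = 0 then 0 else c * (if v ∈ FF p hp l then 1 else 0)

open Classical in
/-- the injection -/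
noncomputable def Th (M p c k : ℕ) (hp : 1 ≤ p) (i : Fin 5)
    (xz : (V0 p → ℕ) × (Fin M → Fin 6 → ℕ)) : VV M p → ℕ :=
  Sum.elim (fun v => xz.1 v + (c - ∑ j, (∑ i, xz.2 j i) % k) * (if v ∈ FF p hp 0 then 1 else 0) +
    base p c hp i v) (fun ji => xz.2 ji.1 ji.2)

theorem Th_inj (M p c k : ℕ) (hp : 1 ≤ p) (i : Fin 5) : Function.Injective (Th M p c k hp i) := by
  rintro ⟨x, z⟩ ⟨x', z'⟩ h
  have hz : z = z' := by
    funext j i'
    have := congrFun h (Sum.inr (j, i'))
    exact this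
  subst hz
  have hx : x = x' := by
    funext v
    have := congrFun h (Sum.inl v)
    simp only [Th, Sum.elim_inl] at this
    omega
  rw [hx]

theorem Th_mem (M p c t : ℕ) (hp : 1 ≤ p) (i : Fin 5) (hi : (i : ℕ) ≠ 0) (hc : 4 * M ≤ c)
    (xz : (V0 p → ℕ) × (Fin M → Fin 6 → ℕ)) (h : xz ∈ AA p ((i : ℕ) + 1) M t) :
    Th M p c ((i : ℕ) + 1) hp i xz ∈ S 5 (DD M p) (Function.update (fun _ => c) i t) := by
  classical
  obtain ⟨x, z⟩ := xz
  obtain ⟨t0, s, hts, hx, hB⟩ := h
  choose y r hy hr hz using hB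
  dsimp only at hx hz
  have hr' : ∀ j, (∑ i', z j i') % ((i : ℕ) + 1) = r j := by
    intro j
    rw [hz j]
    exact (B_mod (hy j) (hr j)).1
  have hi0 : i ≠ 0 := by
    rintro rfl
    exact hi rfl
  have hR : ∑ j, r j ≤ c := by
    have : ∑ j, r j ≤ ∑ _j : Fin M, 4 := sum_le_sum fun j _ => by
      have := hr j
      have := i.2
      omega
    rw [sum_const, card_univ, Fintype.card_fin, smul_eq_mul] at this
    omega
  have hXi := main_mem M p ((i : ℕ) + 1) t0 s x hx y hy
  rw [hts] at hXi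
  have hX0 := zero_mem M p c hp r hR
  let X : Fin 5 → VV M p → ℕ := fun l =>
    if l = i then (Sum.elim x (fun ji => y ji.1 ji.2) : VV M p → ℕ)
    else if l = 0 then (Sum.elim (fun v => (c - ∑ j, r j) * (if v ∈ FF p hp 0 then 1 else 0))
      (fun ji => if ji.2 = 0 then r ji.1 else 0) : VV M p → ℕ)
    else fun v => c * (if v ∈ (FF p hp l).map (emb0 M p) then 1 else 0)
  have hX : ∀ l : Fin 5, X l ∈ Sums (DD M p) ((l : ℕ) + 1)
      ((Function.update (fun _ => c) i t : Fin 5 → ℕ) l) := by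
    intro l
    by_cases h1 : l = i
    · subst h1
      rw [Function.update_self]
      simp only [X, if_true]
      exact hXi
    · rw [Function.update_of_ne h1]
      by_cases h2 : l = 0
      · subst h2
        simp only [X, if_neg h1, if_true]
        exact hX0
      · simp only [X, if_neg h1, if_neg h2]
        exact Sums_const _ (emb0_mem M p _ (FF_mem p hp l)) (by rw [card_map, FF_card]) _
  have hS := S_of_Sums X hX
  have e : Th M p c ((i : ℕ) + 1) hp i (x, z) = fun v => ∑ l, X l v := by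
    funext v
    have e1 : ∀ l, X l v = (if l = i then (Sum.elim x (fun ji => y ji.1 ji.2) : VV M p → ℕ) v else 0) +
        (if l = 0 then (Sum.elim (fun v => (c - ∑ j, r j) * (if v ∈ FF p hp 0 then 1 else 0))
          (fun ji => if ji.2 = 0 then r ji.1 else 0) : VV M p → ℕ) v else 0) +
        (if l = i ∨ l = 0 then 0 else c * (if v ∈ (FF p hp l).map (emb0 M p) then 1 else 0)) := by
      intro l
      by_cases h1 : l = i
      · have h2 : l ≠ 0 := by rw [h1]; exact hi0
        simp only [X, if_pos h1, if_neg h2, if_pos (Or.inl h1 : l = i ∨ l = 0), add_zero]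
      · by_cases h2 : l = 0
        · simp only [X, if_neg h1, if_pos h2, if_pos (Or.inr h2 : l = i ∨ l = 0), add_zero, zero_add]
        · have h3 : ¬ (l = i ∨ l = 0) := by tauto
          simp only [X, if_neg h1, if_neg h2, if_neg h3, zero_add]
    rw [sum_congr rfl fun l _ => e1 l, sum_add_distrib, sum_add_distrib, sum_ite_eq', sum_ite_eq',
      if_pos (mem_univ _), if_pos (mem_univ _)]
    rcases v with v | ⟨j', i'⟩
    · simp only [Th, Sum.elim_inl]
      rw [sum_congr rfl fun j _ => hr' j]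
      congr 1
      unfold base
      apply sum_congr rfl
      intro l _
      have h4 : ((Sum.inl v : VV M p) ∈ (FF p hp l).map (emb0 M p)) ↔ v ∈ FF p hp l :=
        mem_map' (emb0 M p)
      simp only [h4]
    · simp only [Th, Sum.elim_inr]
      have h4 : ∀ l, (Sum.inr (j', i') : VV M p) ∉ (FF p hp l).map (emb0 M p) := by
        intro l hm
        obtain ⟨z, _, hz⟩ := mem_map.1 hm
        simp [emb0] at hz
      rw [hz j']
      simp only [h4, if_false, mul_zero, ite_self, sum_const_zero, add_zero]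
  rw [e]
  exact hS

theorem low : S_LOW := by
  intro M p c t i hp hi hc
  have h1 := AA_card p ((i : ℕ) + 1) M t
  have h2 : (AA p ((i : ℕ) + 1) M t).ncard ≤
      (S 5 (DD M p) (Function.update (fun _ => c) i t)).ncard :=
    Set.ncard_le_ncard_of_injOn (Th M p c ((i : ℕ) + 1) hp i)
      (fun xz h => Th_mem M p c t hp i hi hc xz h) (Th_inj M p c _ hp i).injOn (S_finite _ _ _)
  refine h1.trans ?_
  exact_mod_cast h2

end Pool.Agent.R686.MU.Low
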