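import Pool.Agent.R686.MU.Stm

/-!
# Mixed multiplicities of skeleta (MP_4aa539_al): assembly of the pieces
-/

set_option autoImplicit false

namespace Pool.Agent.R686.MU

open Finset Filter Topology
open scoped BigOperators

theorem conv_nonneg {f g : ℕ → ℝ} (hf : ∀ n, 0 ≤ f n) (hg : ∀ n, 0 ≤ g n) (n : ℕ) :
    0 ≤ conv f g n := Finset.sum_nonneg fun _ _ => mul_nonneg (hf _) (hg _)

theorem cp_nonneg {f g : ℕ → ℝ} (hf : ∀ n, 0 ≤ f n) (hg : ∀ n, 0 ≤ g n) (M : ℕ) :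
    ∀ n, 0 ≤ cp f g M n := by
  induction M with
  | zero => exact hf
  | succ M ih => exact fun n => conv_nonneg ih hg n

theorem cp_UB (hcu : S_CU) {f g : ℕ → ℝ} {m : ℕ} {α β : ℝ} (hf : ∀ n, 0 ≤ f n)
    (hg : ∀ n, 0 ≤ g n) (hα : 0 ≤ α) (hβ : 0 ≤ β) (h1 : UB f m α) (h2 : UB g 5 β) (M : ℕ) :
    UB (cp f g M) (m + 6 * M) (α * β ^ M) := by
  induction M with
  | zero => simpa [cp] using h1
  | succ M ih =>
    have := hcu (cp f g M) g (m + 6 * M) 5 (α * β ^ M) β (cp_nonneg hf hg M) hg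
      (mul_nonneg hα (pow_nonneg hβ M)) hβ ih h2
    have e1 : m + 6 * (M + 1) = m + 6 * M + 5 + 1 := by ring
    have e2 : α * β ^ (M + 1) = α * β ^ M * β := by ring
    rw [e1, e2]
    exact this

theorem cp_LB (hcl : S_CL) {f g : ℕ → ℝ} {m : ℕ} {α β : ℝ} (hf : ∀ n, 0 ≤ f n)
    (hg : ∀ n, 0 ≤ g n) (hα : 0 ≤ α) (hβ : 0 ≤ β) (h1 : LB f m α) (h2 : LB g 5 β) (M : ℕ) :
    LB (cp f g M) (m + 6 * M) (α * β ^ M) := by
  induction M with
  | zero => simpa [cp] using h1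
  | succ M ih =>
    have := hcl (cp f g M) g (m + 6 * M) 5 (α * β ^ M) β (cp_nonneg hf hg M) hg
      (mul_nonneg hα (pow_nonneg hβ M)) hβ ih h2
    have e1 : m + 6 * (M + 1) = m + 6 * M + 5 + 1 := by ring
    have e2 : α * β ^ (M + 1) = α * β ^ M * β := by ring
    rw [e1, e2]
    exact this

theorem card_VV (M p : ℕ) (hp : 1 ≤ p) : Fintype.card (VV M p) - 1 = 4 * p + 1 + 6 * M := by
  simp only [VV, V0, Fintype.card_sum, Fintype.card_prod, Fintype.card_fin]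
  omega

/-- `(a t + b)/t → a` -/
theorem lim_lin (a b : ℝ) : Tendsto (fun t : ℕ => (a * t + b) / (t : ℝ)) atTop (𝓝 a) := by
  have h1 : Tendsto (fun t : ℕ => a + b / (t : ℝ)) atTop (𝓝 (a + 0)) :=
    tendsto_const_nhds.add (tendsto_const_div_atTop_nhds_zero_nat b)
  rw [add_zero] at h1
  refine h1.congr' ?_
  filter_upwards [eventually_gt_atTop 0] with t ht
  have : (t : ℝ) ≠ 0 := by exact_mod_cast ht.ne'
  field_simp

theorem lim_sub (C : ℕ) : Tendsto (fun t : ℕ => ((t - C : ℕ) : ℝ) / (t : ℝ)) atTop (𝓝 1) := by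
  have h := lim_lin 1 (-(C : ℝ))
  refine h.congr' ?_
  filter_upwards [eventually_ge_atTop C] with t ht
  rw [Nat.cast_sub ht]
  ring

theorem upper {f : ℕ → ℝ} {m a b : ℕ} {α L : ℝ} (hα : 0 ≤ α) {g : ℕ → ℝ}
    (hg : UB g m α) (hfg : ∀ t : ℕ, f t ≤ g (a * t + b))
    (hL : Tendsto (fun t : ℕ => f t / (t : ℝ) ^ m) atTop (𝓝 L)) :
    (m.factorial : ℝ) * L ≤ α * (a : ℝ) ^ m := by
  obtain ⟨C, hC⟩ := hg
  have h1 : Tendsto (fun t : ℕ => α * (((a : ℝ) * t + ((b : ℝ) + C)) / t) ^ m / (m.factorial : ℝ))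
      atTop (𝓝 (α * (a : ℝ) ^ m / (m.factorial : ℝ))) :=
    ((lim_lin (a : ℝ) ((b : ℝ) + C)).pow m |>.const_mul α).div_const _
  have h2 : L ≤ α * (a : ℝ) ^ m / (m.factorial : ℝ) := by
    refine le_of_tendsto_of_tendsto hL h1 ?_
    filter_upwards [eventually_gt_atTop 0] with t ht
    have ht0 : (0 : ℝ) < t := by exact_mod_cast ht
    have hp : (0 : ℝ) < (t : ℝ) ^ m := pow_pos ht0 m
    rw [div_le_iff₀ hp]
    refine (hfg t).trans ((hC _).trans (le_of_eq ?_))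
    push_cast
    rw [div_pow]
    field_simp
    ring
  have hm : (0 : ℝ) < (m.factorial : ℝ) := by exact_mod_cast m.factorial_pos
  rw [le_div_iff₀ hm] at h2
  linarith

theorem lower {f : ℕ → ℝ} {m : ℕ} {β γ L : ℝ} (hγ : 0 ≤ γ) {g : ℕ → ℝ}
    (hg : LB g m β) (hfg : ∀ t : ℕ, γ * g t ≤ f t)
    (hL : Tendsto (fun t : ℕ => f t / (t : ℝ) ^ m) atTop (𝓝 L)) :
    γ * β ≤ (m.factorial : ℝ) * L := by
  obtain ⟨C, hC⟩ := hg
  have h1 : Tendsto (fun t : ℕ => γ * (β * (((t - C : ℕ) : ℝ) / t) ^ m / (m.factorial : ℝ)))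
      atTop (𝓝 (γ * (β * (1 : ℝ) ^ m / (m.factorial : ℝ)))) :=
    (((lim_sub C).pow m |>.const_mul β).div_const _).const_mul γ
  have h2 : γ * (β * (1 : ℝ) ^ m / (m.factorial : ℝ)) ≤ L := by
    refine le_of_tendsto_of_tendsto h1 hL ?_
    filter_upwards [eventually_gt_atTop 0] with t ht
    have ht0 : (0 : ℝ) < t := by exact_mod_cast ht
    have hp : (0 : ℝ) < (t : ℝ) ^ m := pow_pos ht0 m
    rw [le_div_iff₀ hp]
    refine le_trans (le_of_eq ?_) ((mul_le_mul_of_nonneg_left (hC t) hγ).trans (hfg t))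
    rw [div_pow]
    field_simp
  have hm : (0 : ℝ) < (m.factorial : ℝ) := by exact_mod_cast m.factorial_pos
  rw [one_pow, mul_one, ← mul_div_assoc, div_le_iff₀ hm] at h2
  linarith

theorem R_pos (p : ℕ) : 0 < R p := by
  unfold R
  have h1 : (0 : ℝ) < ((4 * p + 1).factorial : ℝ) := by exact_mod_cast Nat.factorial_pos _
  have h2 : (0 : ℝ) < ((p - 1).factorial : ℝ) := by exact_mod_cast Nat.factorial_pos _
  have h3 : (0 : ℝ) < ((3 * p - 3).factorial : ℝ) := by exact_mod_cast Nat.factorial_pos _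
  positivity

theorem main (hfin : S_FIN) (hcoef : S_COEF) (hcu : S_CU) (hcl : S_CL) (hup : S_UP) (hlow : S_LOW)
    (hg3 : S_G3) (hg5 : S_G5) (hug : S_UG) (hf3 : S_F3) (hf5 : S_F5) (huf : S_UF) (hnum : S_NUM)
    (hpure : S_PURE) :
    ∃ M p : ℕ, 250 ≤ p ∧ IsPureComplex 5 (DD M p) ∧
      ∀ (K : Type) [Field K] (e : (Fin 5 →₀ ℕ) → ℚ), IsMixedMult K 5 (DD M p) e →
        A (V := VV M p) (d := 5) e 3 < A (V := VV M p) (d := 5) e 2 ∧
        A (V := VV M p) (d := 5) e 3 < A (V := VV M p) (d := 5) e 4 := by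
  obtain ⟨M, p, hp, hn1, hn2⟩ := hnum
  have hp1 : 1 ≤ p := by omega
  have hp0 : (0 : ℝ) < p := by exact_mod_cast (by omega : 0 < p)
  refine ⟨M, p, hp, hpure M p (by omega), ?_⟩
  intro K _ e he
  obtain ⟨P, hdeg, ⟨N0, hN⟩, hc⟩ := he
  have hcard := card_VV M p hp1
  rw [hcard] at hdeg hc
  set n1 := 4 * p + 1 + 6 * M with hn1def
  have hvert : ∀ v : VV M p, {v} ∈ DD M p := (hpure M p (by omega)).vertex
  set c := max N0 (4 * M) with hcdef
  have hc4 : 4 * M ≤ c := le_max_right _ _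
  have hcN : N0 ≤ c := le_max_left _ _
  have hlim : ∀ i : Fin 5, Tendsto (fun t : ℕ =>
      ((S 5 (DD M p) (Function.update (fun _ => c) i t)).ncard : ℝ) / (t : ℝ) ^ n1) atTop
      (𝓝 ((P.coeff (Finsupp.single i n1) : ℚ) : ℝ)) := by
    intro i
    refine (hcoef 5 n1 P i c hdeg).congr' ?_
    filter_upwards [eventually_ge_atTop N0] with t ht
    have h1 : ∀ j, N0 ≤ (Function.update (fun _ => c) i t : Fin 5 → ℕ) j := by
      intro j
      by_cases hj : j = i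
      · subst hj; simpa using ht
      · rw [Function.update_of_ne hj]; exact hcN
    have h2 := hN _ h1
    rw [hfin K (VV M p) 5 (DD M p) hvert] at h2
    rw [← h2]
    push_cast
    rfl
  have hA : ∀ i : Fin 5, (n1.factorial : ℝ) * ((P.coeff (Finsupp.single i n1) : ℚ) : ℝ) =
      ((A (V := VV M p) (d := 5) e i : ℚ) : ℝ) := by
    intro i
    have hsum : (∑ j, (Finsupp.single i n1 : Fin 5 →₀ ℕ) j) = n1 := by
      rw [Finset.sum_eq_single i]
      · simp
      · intro j _ hj; simp [Finsupp.single_apply, Ne.symm hj]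
      · simp
    have hprod : (∏ j, (((Finsupp.single i n1 : Fin 5 →₀ ℕ) j).factorial : ℚ)) = n1.factorial := by
      rw [Finset.prod_eq_single i]
      · simp
      · intro j _ hj; simp [Finsupp.single_apply, Ne.symm hj]
      · simp
    have h1 := hc (Finsupp.single i n1) hsum
    rw [hprod] at h1
    have hm : (n1.factorial : ℚ) ≠ 0 := by exact_mod_cast n1.factorial_ne_zero
    have h2 : (n1.factorial : ℚ) * P.coeff (Finsupp.single i n1) = e (Finsupp.single i n1) := by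
      rw [h1]; field_simp
    unfold A
    rw [hcard, ← h2]
    push_cast
    rfl
  have hF0 : ∀ n, 0 ≤ F0 p c n := fun n => Nat.cast_nonneg _
  have hG6 : ∀ n, 0 ≤ G6 c n := fun n => Nat.cast_nonneg _
  have hg0 : ∀ k n, 0 ≤ g0 p k n := fun k n => Nat.cast_nonneg _
  have hg6 : ∀ k n, 0 ≤ g6 k n := fun k n => Nat.cast_nonneg _
  have hR := R_pos p
  -- the upper bound
  have U3 : ((A (V := VV M p) (d := 5) e 3 : ℚ) : ℝ) ≤ 1024 * 128 ^ M * R p := by
    have h1 := cp_UB hcu hF0 hG6 (by positivity) (by norm_num) (huf p c hp1) (hug c) M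
    rw [← hn1def] at h1
    have h2 := upper (f := fun t => ((S 5 (DD M p) (Function.update (fun _ => c) 3 t)).ncard : ℝ))
      (a := 4) (b := 11 * c) (by positivity) h1 (fun t => hup M p c t) (hlim 3)
    rw [hA 3] at h2
    refine h2.trans (le_of_eq ?_)
    have e1 : n1 = 4 * (p - 1) + 5 + 6 * M := by omega
    rw [e1, pow_add, pow_add, pow_mul _ 6 M]
    push_cast
    have e3 : (128 : ℝ) ^ M * 32 ^ M = (4 ^ 6) ^ M := by rw [← mul_pow]; norm_num
    rw [one_div, inv_pow]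
    field_simp
    rw [← e3]
    ring
  have L2 : (3 : ℝ) ^ M * (R p / (10 ^ 6 * (p : ℝ) ^ 2) * 50 ^ M) ≤
      ((A (V := VV M p) (d := 5) e 2 : ℚ) : ℝ) := by
    have h1 := cp_LB hcl (hg0 3) (hg6 3) (by positivity) (by norm_num) (hf3 p hp) hg3 M
    rw [← hn1def] at h1
    have h2 := lower (f := fun t => ((S 5 (DD M p) (Function.update (fun _ => c) 2 t)).ncard : ℝ))
      (γ := (3 : ℝ) ^ M) (by positivity) h1 (fun t => by
        have := hlow M p c t 2 hp1 (by decide) hc4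
        simpa using this) (hlim 2)
    rw [hA 2] at h2
    exact h2
  have L4 : (5 : ℝ) ^ M * (R p * κ ^ (p - 1) / (10 ^ 8 * (p : ℝ) ^ 2) * 1 ^ M) ≤
      ((A (V := VV M p) (d := 5) e 4 : ℚ) : ℝ) := by
    have hk : (0 : ℝ) < κ := by unfold κ; norm_num
    have h1 := cp_LB hcl (hg0 5) (hg6 5) (by positivity) (by norm_num) (hf5 p hp) hg5 M
    rw [← hn1def] at h1
    have h2 := lower (f := fun t => ((S 5 (DD M p) (Function.update (fun _ => c) 4 t)).ncard : ℝ))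
      (γ := (5 : ℝ) ^ M) (by positivity) h1 (fun t => by
        have := hlow M p c t 4 hp1 (by decide) hc4
        simpa using this) (hlim 4)
    rw [hA 4] at h2
    exact h2
  constructor
  · have h : ((A (V := VV M p) (d := 5) e 3 : ℚ) : ℝ) < ((A (V := VV M p) (d := 5) e 2 : ℚ) : ℝ) := by
      refine lt_of_le_of_lt U3 (lt_of_lt_of_le ?_ L2)
      have := mul_lt_mul_of_pos_right hn1 hR
      calc (1024 : ℝ) * 128 ^ M * R p < 3 ^ M * 50 ^ M / (10 ^ 6 * (p : ℝ) ^ 2) * R p := this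
        _ = _ := by ring
    exact_mod_cast h
  · have h : ((A (V := VV M p) (d := 5) e 3 : ℚ) : ℝ) < ((A (V := VV M p) (d := 5) e 4 : ℚ) : ℝ) := by
      refine lt_of_le_of_lt U3 (lt_of_lt_of_le ?_ L4)
      have := mul_lt_mul_of_pos_right hn2 hR
      calc (1024 : ℝ) * 128 ^ M * R p < 5 ^ M * (κ ^ (p - 1) / (10 ^ 8 * (p : ℝ) ^ 2)) * R p := this
        _ = _ := by rw [one_pow]; ring
    exact_mod_cast h

end Pool.Agent.R686.MU
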