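import Pool.Agent.R686.MU.Stm

/-! MU-NUM, MU-PURE (MP_4aa539_al): the choice of the parameters and purity. -/

set_option autoImplicit false

namespace Pool.Agent.R686.MU

open Finset
open scoped BigOperators

set_option exponentiation.threshold 5000 in
theorem num : S_NUM := by
  refine ⟨300, 75000, by norm_num, ?_, ?_⟩
  · rw [lt_div_iff₀ (by positivity)]
    norm_num
  · have h24 : (2 : ℝ) ≤ κ ^ 24 := by
      unfold κ
      norm_num
    have h1 : (1 : ℝ) ≤ κ := by
      unfold κ
      norm_num
    have h2 : (2 : ℝ) ^ 3124 ≤ κ ^ (75000 - 1) := by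
      calc (2 : ℝ) ^ 3124 ≤ (κ ^ 24) ^ 3124 := pow_le_pow_left₀ (by norm_num) h24 _
        _ = κ ^ 74976 := by rw [← pow_mul]
        _ ≤ κ ^ (75000 - 1) := pow_le_pow_right₀ h1 (by norm_num)
    have h3 : (1024 : ℝ) * 128 ^ 300 < 5 ^ 300 * (2 ^ 3124 / (10 ^ 8 * ((75000 : ℕ) : ℝ) ^ 2)) := by
      rw [mul_div_assoc', lt_div_iff₀ (by positivity)]
      norm_num
    refine h3.trans_le ?_
    refine mul_le_mul_of_nonneg_left ?_ (by positivity)
    exact div_le_div_of_nonneg_right h2 (by positivity)

lemma d0_down {p : ℕ} {F G : Finset (V0 p)} (hF : F ∈ D0 p) (hG : G ⊆ F) : G ∈ D0 p := by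
  classical
  unfold D0 at hF ⊢
  rw [mem_filter] at hF ⊢
  refine ⟨mem_univ _, ?_⟩
  rcases hF.2 with h | h
  · exact Or.inl ⟨(card_le_card hG).trans h.1, fun v hv => h.2 v (hG hv)⟩
  · exact Or.inr ⟨fun u u' h1 h2 => h.1 u u' (hG h1) (hG h2),
      fun w w' h1 h2 => h.2 w w' (hG h1) (hG h2)⟩

theorem pure : S_PURE := by
  classical
  intro M p hp
  refine ⟨?_, ?_, ?_⟩
  · intro F hF G hG
    unfold DD at hF ⊢
    rw [mem_filter] at hF ⊢
    refine ⟨mem_univ _, ?_⟩
    rcases hF.2 with ⟨F', hF', rfl⟩ | ⟨j, hj⟩
    · rw [subset_map_iff] at hG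
      obtain ⟨G', hG', rfl⟩ := hG
      exact Or.inl ⟨G', d0_down hF' hG', rfl⟩
    · exact Or.inr ⟨j, fun v hv => hj v (hG hv)⟩
  · intro v
    unfold DD
    rw [mem_filter]
    refine ⟨mem_univ _, ?_⟩
    rcases v with v | ⟨j, i⟩
    · refine Or.inl ⟨{v}, ?_, ?_⟩
      · unfold D0
        rw [mem_filter]
        refine ⟨mem_univ _, Or.inr ⟨?_, ?_⟩⟩
        · intro u u' h1 h2
          rw [mem_singleton] at h1 h2
          exact Sum.inl_injective (h1.trans h2.symm)
        · intro w w' h1 h2
          rw [mem_singleton] at h1 h2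
          exact Sum.inl_injective (Sum.inr_injective (h1.trans h2.symm))
      · rw [map_singleton]
        rfl
    · refine Or.inr ⟨j, fun v hv => ?_⟩
      rw [mem_singleton] at hv
      exact ⟨i, hv⟩
  · intro F hF
    unfold DD at hF
    rw [mem_filter] at hF
    rcases hF.2 with ⟨F', hF', rfl⟩ | ⟨j, hj⟩
    · have key : ∃ G' ∈ D0 p, F' ⊆ G' ∧ G'.card = 6 := by
        unfold D0 at hF'
        rw [mem_filter] at hF'
        rcases hF'.2 with h | h
        · have hsub : F' ⊆ (univ : Finset (Fin p)).map Function.Embedding.inl := by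
            intro v hv
            obtain ⟨u, rfl⟩ := h.2 v hv
            exact mem_map.2 ⟨u, mem_univ _, rfl⟩
          obtain ⟨G', h1, h2, h3⟩ := exists_subsuperset_card_eq (n := 6) hsub h.1 (by
            rw [card_map, card_univ, Fintype.card_fin]
            exact hp)
          refine ⟨G', ?_, h1, h3⟩
          unfold D0
          rw [mem_filter]
          refine ⟨mem_univ _, Or.inl ⟨h3.le, fun v hv => ?_⟩⟩
          obtain ⟨u, -, rfl⟩ := mem_map.1 (h2 hv)
          exact ⟨u, rfl⟩
        · have hq : 0 < 3 * p - 2 := by omega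
          have hp0 : 0 < p := by omega
          obtain ⟨u0, hu0⟩ : ∃ u0 : Fin p, ∀ u, Sum.inl u ∈ F' → u = u0 := by
            by_cases hex : ∃ u, Sum.inl u ∈ F'
            · obtain ⟨u0, hu0⟩ := hex
              exact ⟨u0, fun u hu => h.1 u u0 hu hu0⟩
            · exact ⟨⟨0, hp0⟩, fun u hu => absurd ⟨u, hu⟩ hex⟩
          obtain ⟨w0, hw0⟩ : ∃ w0 : Fin (3 * p - 2), ∀ w, Sum.inr (Sum.inl w) ∈ F' → w = w0 := by
            by_cases hex : ∃ w, Sum.inr (Sum.inl w) ∈ F'
            · obtain ⟨w0, hw0⟩ := hex
              exact ⟨w0, fun w hw => h.2 w w0 hw hw0⟩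
            · exact ⟨⟨0, hq⟩, fun w hw => absurd ⟨w, hw⟩ hex⟩
          set Z : Finset (V0 p) := (univ : Finset (Fin 4)).map
            ⟨fun z => (Sum.inr (Sum.inr z) : V0 p), fun a b hab =>
              Sum.inr_injective (Sum.inr_injective hab)⟩ with hZ
          have hmZ : ∀ v : V0 p, v ∈ Z ↔ ∃ z, v = Sum.inr (Sum.inr z) := by
            intro v
            rw [hZ, mem_map]
            constructor
            · rintro ⟨z, -, rfl⟩
              exact ⟨z, rfl⟩
            · rintro ⟨z, rfl⟩
              exact ⟨z, mem_univ _, rfl⟩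
          refine ⟨insert (Sum.inl u0) (insert (Sum.inr (Sum.inl w0)) Z), ?_, ?_, ?_⟩
          · unfold D0
            rw [mem_filter]
            refine ⟨mem_univ _, Or.inr ⟨?_, ?_⟩⟩
            · have h1 : ∀ u, (Sum.inl u : V0 p) ∈
                  insert (Sum.inl u0) (insert (Sum.inr (Sum.inl w0)) Z) → u = u0 := by
                intro u hu
                rw [mem_insert, mem_insert, hmZ] at hu
                rcases hu with hu | hu | ⟨z, hu⟩
                · exact Sum.inl_injective hu
                · simp at hu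
                · simp at hu
              intro u u' h2 h3
              rw [h1 u h2, h1 u' h3]
            · have h1 : ∀ w, (Sum.inr (Sum.inl w) : V0 p) ∈
                  insert (Sum.inl u0) (insert (Sum.inr (Sum.inl w0)) Z) → w = w0 := by
                intro w hw
                rw [mem_insert, mem_insert, hmZ] at hw
                rcases hw with hw | hw | ⟨z, hw⟩
                · simp at hw
                · exact Sum.inl_injective (Sum.inr_injective hw)
                · simp at hw
              intro w w' h2 h3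
              rw [h1 w h2, h1 w' h3]
          · intro v hv
            rcases v with u | w | z
            · rw [hu0 u hv]
              exact mem_insert_self _ _
            · rw [hw0 w hv]
              exact mem_insert_of_mem (mem_insert_self _ _)
            · exact mem_insert_of_mem (mem_insert_of_mem ((hmZ _).2 ⟨z, rfl⟩))
          · rw [card_insert_of_notMem, card_insert_of_notMem, hZ, card_map, card_univ,
              Fintype.card_fin]
            · rw [hmZ]
              rintro ⟨z, hz⟩
              simp at hz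
            · rw [mem_insert, hmZ]
              rintro (hz | ⟨z, hz⟩)
              · simp at hz
              · simp at hz
      obtain ⟨G', h1, h2, h3⟩ := key
      refine ⟨G'.map Function.Embedding.inl, ?_, map_subset_map.2 h2, by rw [card_map, h3]⟩
      unfold DD
      rw [mem_filter]
      exact ⟨mem_univ _, Or.inl ⟨G', h1, rfl⟩⟩
    · refine ⟨(univ : Finset (Fin 6)).map ⟨fun i => (Sum.inr (j, i) : VV M p), fun a b hab =>
        congrArg Prod.snd (Sum.inr_injective hab)⟩, ?_, ?_, ?_⟩
      · unfold DD
        rw [mem_filter]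
        refine ⟨mem_univ _, Or.inr ⟨j, fun v hv => ?_⟩⟩
        obtain ⟨i, -, rfl⟩ := mem_map.1 hv
        exact ⟨i, rfl⟩
      · intro v hv
        obtain ⟨i, rfl⟩ := hj v hv
        exact mem_map.2 ⟨i, mem_univ _, rfl⟩
      · rw [card_map, card_univ, Fintype.card_fin]

end Pool.Agent.R686.MU
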