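import Pool.Agent.R686.MU.Stm

/-!
# Mixed multiplicities of skeleta (MP_4aa539_al): existence of the mixed multiplicities, pieces
-/

set_option autoImplicit false

namespace Pool.Agent.R686.MU

open Finset Filter Topology
open scoped BigOperators

/-- EX1: the number of sums of faces is eventually a polynomial. -/
def S_EX1 : Prop := ∀ (V : Type) [Fintype V] (d : ℕ) (Δ : Finset (Finset V)),
  ∃ P : MvPolynomial (Fin d) ℚ, ∃ N : ℕ, ∀ u : Fin d → ℕ, (∀ i, N ≤ u i) →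
    ((S d Δ u).ncard : ℚ) = MvPolynomial.eval (fun i => (u i : ℚ)) P

/-- EX2: a polynomial of polynomial growth of degree `m` has total degree at most `m`. -/
def S_EX2 : Prop := ∀ (d m : ℕ) (P : MvPolynomial (Fin d) ℚ) (C N : ℕ),
  (∀ u : Fin d → ℕ, (∀ i, N ≤ u i) →
    |MvPolynomial.eval (fun i => (u i : ℚ)) P| ≤ (C : ℚ) * (((∑ i, u i) + 1 : ℕ) : ℚ) ^ m) →
  P.totalDegree ≤ m

/-- EX3: growth of the number of sums of faces. -/
def S_EX3 : Prop := ∀ (V : Type) [Fintype V] [Nonempty V] (d : ℕ) (Δ : Finset (Finset V)),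
  ∃ C : ℕ, ∀ u : Fin d → ℕ,
    (S d Δ u).ncard ≤ C * ((∑ i, u i) + 1) ^ (Fintype.card V - 1)

/-- existence of the mixed multiplicities -/
theorem exists_mixedMult (hfin : S_FIN) (h1 : S_EX1) (h2 : S_EX2) (h3 : S_EX3)
    (K : Type) [Field K] (V : Type) [Fintype V] [Nonempty V] (d : ℕ) (Δ : Finset (Finset V))
    (hv : ∀ v : V, {v} ∈ Δ) : ∃ e : (Fin d →₀ ℕ) → ℚ, IsMixedMult K d Δ e := by
  obtain ⟨P, N, hP⟩ := h1 V d Δ
  obtain ⟨C, hC⟩ := h3 V d Δ
  refine ⟨fun a => P.coeff a * ∏ i, ((a i).factorial : ℚ), P, ?_, ⟨N, fun u hu => ?_⟩, fun a _ => ?_⟩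
  · refine h2 d _ P C N fun u hu => ?_
    rw [← hP u hu, abs_of_nonneg (by positivity)]
    exact_mod_cast hC u
  · rw [hfin K V d Δ hv u, hP u hu]
  · have : (∏ i, ((a i).factorial : ℚ)) ≠ 0 :=
      Finset.prod_ne_zero_iff.2 fun i _ => by exact_mod_cast (Nat.factorial_ne_zero _)
    field_simp

end Pool.Agent.R686.MU
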