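import Pool.Agent.R686.MU.Stm

/-! MU-UF (MP_4aa539_al): upper bound for the main region. -/

set_option autoImplicit false

namespace Pool.Agent.R686.MU

open Finset
open scoped BigOperators

namespace Uf

/-- functions with sum `a` -/
noncomputable def PA (r a : ℕ) : Finset (Fin r → ℕ) :=
  ((univ : Finset (Fin r)).finsuppAntidiag a).map
    ⟨fun f : Fin r →₀ ℕ => (⇑f : Fin r → ℕ), DFunLike.coe_injective⟩

lemma mem_PA {r a : ℕ} {x : Fin r → ℕ} : x ∈ PA r a ↔ ∑ i, x i = a := by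
  unfold PA
  rw [mem_map]
  constructor
  · rintro ⟨f, hf, rfl⟩
    rw [mem_finsuppAntidiag] at hf
    exact hf.1
  · intro h
    refine ⟨Finsupp.equivFunOnFinite.symm x, ?_, rfl⟩
    rw [mem_finsuppAntidiag]
    exact ⟨h, subset_univ _⟩

lemma card_PA {r a : ℕ} (hr : 1 ≤ r) : ((PA r a).card : ℝ) ≤
    ((a + r : ℕ) : ℝ) ^ (r - 1) / ((r - 1).factorial : ℝ) := by
  unfold PA
  rw [card_map, card_finsuppAntidiag_nat_eq_choose, card_univ, Fintype.card_fin]
  have e : (r + a - 1).choose a = (r + a - 1).choose (r - 1) := by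
    rw [← Nat.choose_symm (by omega : a ≤ r + a - 1)]
    congr 1
    omega
  rw [e]
  refine (Nat.choose_le_pow_div (r - 1) (r + a - 1)).trans ?_
  refine div_le_div_of_nonneg_right ?_ (by positivity)
  refine pow_le_pow_left₀ (by positivity) ?_ _
  exact_mod_cast (by omega : r + a - 1 ≤ a + r)

lemma card_PA4 {n s : ℕ} (h : n ≤ s) : ((PA 4 n).card : ℝ) ≤ ((s + 1 : ℕ) : ℝ) ^ 3 := by
  have h1 : (PA 4 n).card ≤ ((range (s + 1)) ×ˢ ((range (s + 1)) ×ˢ (range (s + 1)))).card := by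
    refine card_le_card_of_injOn (fun x => (x 0, (x 1, x 2))) ?_ ?_
    · intro x hx
      rw [mem_coe, mem_PA, Fin.sum_univ_four] at hx
      simp only [coe_product, Set.mem_prod, mem_coe, mem_range]
      omega
    · intro x hx y hy hxy
      rw [mem_coe, mem_PA, Fin.sum_univ_four] at hx hy
      simp only [Prod.mk.injEq] at hxy
      obtain ⟨e0, e1, e2⟩ := hxy
      funext i
      fin_cases i
      · exact e0
      · exact e1
      · exact e2
      · show x 3 = y 3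
        omega
  have h2 : ((range (s + 1)) ×ˢ ((range (s + 1)) ×ˢ (range (s + 1)))).card = (s + 1) ^ 3 := by
    rw [card_product, card_product, card_range]
    ring
  rw [h2] at h1
  exact_mod_cast h1

lemma amgm {X Y L : ℝ} (hX : 0 ≤ X) (hY : 0 ≤ Y) (h : X + 3 * Y ≤ L) :
    X * Y ^ 3 ≤ L ^ 4 / 4 ^ 4 := by
  have h1 : (X + 3 * Y) ^ 4 ≤ L ^ 4 := pow_le_pow_left₀ (by positivity) h 4
  have h2 : 256 * (X * Y ^ 3) ≤ (X + 3 * Y) ^ 4 := by
    have e : (X + 3 * Y) ^ 4 - 256 * (X * Y ^ 3) =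
        (X - Y) ^ 2 * ((X - Y + 8 * Y) ^ 2 + 32 * Y ^ 2) := by ring
    have : 0 ≤ (X - Y) ^ 2 * ((X - Y + 8 * Y) ^ 2 + 32 * Y ^ 2) := by positivity
    linarith
  rw [le_div_iff₀ (by norm_num)]
  linarith

end Uf

open Uf

theorem uf : S_UF := by
  classical
  intro p c hp
  set q : ℕ := 3 * p - 2 with hq
  set K : ℕ := 33 * c + p + 3 * q with hK
  refine ⟨K, fun s => ?_⟩
  -- the finite set
  set ab : Finset (ℕ × ℕ) := ((range (s + 1)) ×ˢ (range (s + 1))).filter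
    (fun z => z.1 + 3 * z.2 ≤ s + 33 * c) with hab
  set T : Finset ((Fin p → ℕ) × ((Fin q → ℕ) × (Fin 4 → ℕ))) :=
    ab.biUnion (fun z => PA p z.1 ×ˢ (PA q z.2 ×ˢ PA 4 (s - z.1 - z.2))) with hT
  have h1 : F0 p c s ≤ (T.card : ℝ) := by
    unfold F0
    have h2 : {x : V0 p → ℕ | ∑ v, x v = s ∧
        (∑ u, x (Sum.inl u)) + 3 * (∑ w, x (Sum.inr (Sum.inl w))) ≤ s + 33 * c}.ncard ≤
        (T : Set ((Fin p → ℕ) × ((Fin q → ℕ) × (Fin 4 → ℕ)))).ncard := by
      refine Set.ncard_le_ncard_of_injOn (fun x => (fun u => x (Sum.inl u),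
        (fun w => x (Sum.inr (Sum.inl w)), fun z => x (Sum.inr (Sum.inr z))))) ?_ ?_
        (Finset.finite_toSet _)
      · rintro x ⟨hx1, hx2⟩
        rw [Fintype.sum_sum_type, Fintype.sum_sum_type] at hx1
        rw [mem_coe, hT, mem_biUnion]
        refine ⟨(∑ u, x (Sum.inl u), ∑ w, x (Sum.inr (Sum.inl w))), ?_, ?_⟩
        · rw [hab, mem_filter, mem_product, mem_range, mem_range]
          refine ⟨⟨?_, ?_⟩, hx2⟩
          · show ∑ u, x (Sum.inl u) < s + 1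
            omega
          · show ∑ w, x (Sum.inr (Sum.inl w)) < s + 1
            omega
        · rw [mem_product, mem_product, mem_PA, mem_PA, mem_PA]
          refine ⟨rfl, rfl, ?_⟩
          show ∑ z, x (Sum.inr (Sum.inr z)) = s - ∑ u, x (Sum.inl u) - ∑ w, x (Sum.inr (Sum.inl w))
          omega
      · intro x _ y _ hxy
        simp only [Prod.mk.injEq] at hxy
        obtain ⟨e1, e2, e3⟩ := hxy
        funext v
        rcases v with u | w | z
        · exact congrFun e1 u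
        · exact congrFun e2 w
        · exact congrFun e3 z
    rw [Set.ncard_coe_finset] at h2
    exact_mod_cast h2
  have hfac : (0 : ℝ) < ((p - 1).factorial : ℝ) * ((3 * p - 3).factorial : ℝ) := by positivity
  have hq1 : q - 1 = 3 * (p - 1) := by omega
  have hq3 : 3 * p - 3 = 3 * (p - 1) := by omega
  set L : ℝ := ((s + K : ℕ) : ℝ) with hL
  set B : ℝ := L ^ (4 * (p - 1)) / 4 ^ (4 * (p - 1)) /
    (((p - 1).factorial : ℝ) * ((3 * p - 3).factorial : ℝ)) with hB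
  have h3 : ∀ z ∈ ab, ((PA p z.1 ×ˢ (PA q z.2 ×ˢ PA 4 (s - z.1 - z.2))).card : ℝ) ≤
      B * ((s + 1 : ℕ) : ℝ) ^ 3 := by
    intro z hz
    rw [hab, mem_filter, mem_product, mem_range, mem_range] at hz
    rw [card_product, card_product]
    push_cast
    have b1 := card_PA (r := p) (a := z.1) hp
    have b2 := card_PA (r := q) (a := z.2) (by omega)
    have b3 := card_PA4 (n := s - z.1 - z.2) (s := s) (by omega)
    rw [hq1] at b2
    have hXY : ((z.1 + p : ℕ) : ℝ) * ((z.2 + q : ℕ) : ℝ) ^ 3 ≤ L ^ 4 / 4 ^ 4 := by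
      refine amgm (by positivity) (by positivity) ?_
      rw [hL, hK]
      exact_mod_cast (by omega : z.1 + p + 3 * (z.2 + q) ≤ s + (33 * c + p + 3 * q))
    have b4 : ((z.1 + p : ℕ) : ℝ) ^ (p - 1) / ((p - 1).factorial : ℝ) *
        (((z.2 + q : ℕ) : ℝ) ^ (3 * (p - 1)) / ((3 * (p - 1)).factorial : ℝ)) ≤ B := by
      have e1 : ((z.1 + p : ℕ) : ℝ) ^ (p - 1) / ((p - 1).factorial : ℝ) *
        (((z.2 + q : ℕ) : ℝ) ^ (3 * (p - 1)) / ((3 * (p - 1)).factorial : ℝ)) =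
        (((z.1 + p : ℕ) : ℝ) * ((z.2 + q : ℕ) : ℝ) ^ 3) ^ (p - 1) /
          (((p - 1).factorial : ℝ) * ((3 * (p - 1)).factorial : ℝ)) := by
        rw [mul_pow, ← pow_mul, div_mul_div_comm]
      have e2 : L ^ (4 * (p - 1)) / 4 ^ (4 * (p - 1)) = (L ^ 4 / 4 ^ 4) ^ (p - 1) := by
        rw [div_pow, ← pow_mul, ← pow_mul]
      rw [e1, hB, hq3, e2]
      refine div_le_div_of_nonneg_right ?_ (by positivity)
      exact pow_le_pow_left₀ (by positivity) hXY _
    have b5 : ((PA p z.1).card : ℝ) * ((PA q z.2).card : ℝ) ≤ B :=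
      (mul_le_mul b1 b2 (by positivity) (by positivity)).trans b4
    calc ((PA p z.1).card : ℝ) * (((PA q z.2).card : ℝ) * ((PA 4 (s - z.1 - z.2)).card : ℝ))
        = (((PA p z.1).card : ℝ) * ((PA q z.2).card : ℝ)) *
            ((PA 4 (s - z.1 - z.2)).card : ℝ) := by ring
      _ ≤ B * ((s + 1 : ℕ) : ℝ) ^ 3 :=
          mul_le_mul b5 b3 (by positivity) (by positivity)
      _ = B * ((s : ℝ) + 1) ^ 3 := by push_cast; ring
  have habc : ((ab.card : ℕ) : ℝ) ≤ ((s + 1 : ℕ) : ℝ) ^ 2 := by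
    have h4 : ab.card ≤ (s + 1) ^ 2 := by
      refine (card_filter_le _ _).trans ?_
      rw [card_product, card_range, sq]
    exact_mod_cast h4
  have hB0 : 0 ≤ B := by positivity
  have h5 : (T.card : ℝ) ≤ ((s + 1 : ℕ) : ℝ) ^ 2 * (B * ((s + 1 : ℕ) : ℝ) ^ 3) := by
    calc (T.card : ℝ) ≤ ∑ z ∈ ab, ((PA p z.1 ×ˢ (PA q z.2 ×ˢ PA 4 (s - z.1 - z.2))).card : ℝ) := by
          exact_mod_cast card_biUnion_le
      _ ≤ ∑ _z ∈ ab, B * ((s + 1 : ℕ) : ℝ) ^ 3 := sum_le_sum h3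
      _ = (ab.card : ℝ) * (B * ((s + 1 : ℕ) : ℝ) ^ 3) := by rw [sum_const, nsmul_eq_mul]
      _ ≤ _ := mul_le_mul_of_nonneg_right habc (by positivity)
  have hsL : ((s + 1 : ℕ) : ℝ) ≤ L := by
    rw [hL]
    exact_mod_cast (by omega : s + 1 ≤ s + K)
  have h6 : ((s + 1 : ℕ) : ℝ) ^ 2 * (B * ((s + 1 : ℕ) : ℝ) ^ 3) ≤ B * L ^ 5 := by
    have : ((s + 1 : ℕ) : ℝ) ^ 5 ≤ L ^ 5 := pow_le_pow_left₀ (by positivity) hsL 5
    calc ((s + 1 : ℕ) : ℝ) ^ 2 * (B * ((s + 1 : ℕ) : ℝ) ^ 3) = B * ((s + 1 : ℕ) : ℝ) ^ 5 := by ring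
      _ ≤ _ := mul_le_mul_of_nonneg_left this hB0
  refine (h1.trans (h5.trans h6)).trans (le_of_eq ?_)
  have e5 : 4 * p + 1 = 4 * (p - 1) + 5 := by omega
  have hf : (0 : ℝ) < ((4 * p + 1).factorial : ℝ) := by positivity
  rw [hB]
  unfold R
  rw [show L ^ (4 * p + 1) = L ^ (4 * (p - 1)) * L ^ 5 by rw [e5, pow_add]]
  field_simp

end Pool.Agent.R686.MU
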