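import Pool.Agent.R686.MU.Stm

/-!
# MU-UP: sums of faces lie in a product region; counting by convolution
-/

set_option autoImplicit false

namespace Pool.Agent.R686.MU.UP

open Finset
open Pool.Agent.R686.MU

theorem sumS {V : Type} [Fintype V] {d : ℕ} {u : Fin d → ℕ}
    (f : (i : Fin d) → Fin (u i) → Finset V) (x : V → ℕ)
    (hx : ∀ v, x v = ∑ i, Nat.card {j : Fin (u i) // v ∈ f i j}) (α : V → ℕ) :
    ∑ v, α v * x v = ∑ i, ∑ j : Fin (u i), ∑ v ∈ f i j, α v := by
  classical
  have h1 : ∀ v, α v * x v = ∑ i, ∑ j : Fin (u i), if v ∈ f i j then α v else 0 := by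
    intro v
    rw [hx, mul_sum]
    refine sum_congr rfl fun i _ => ?_
    rw [Nat.card_eq_fintype_card, Fintype.card_subtype, ← sum_filter, sum_const, smul_eq_mul,
      mul_comm]
  simp only [h1]
  rw [sum_comm]
  refine sum_congr rfl fun i _ => ?_
  rw [sum_comm]
  refine sum_congr rfl fun j _ => ?_
  rw [← sum_filter]
  congr 1
  ext v; simp

theorem key {V : Type} [Fintype V] {Δ : Finset (Finset V)} {c t : ℕ} {x : V → ℕ}
    (hx : x ∈ S 5 Δ (Function.update (fun _ => c) 3 t)) (α β : V → ℕ) (C : ℕ)
    (h4 : ∀ F ∈ Δ, F.card = 4 → ∑ v ∈ F, α v ≤ ∑ v ∈ F, β v)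
    (h : ∀ F ∈ Δ, ∑ v ∈ F, α v ≤ ∑ v ∈ F, β v + C * F.card) :
    ∑ v, α v * x v ≤ ∑ v, β v * x v + 11 * C * c := by
  obtain ⟨f, hf, hv⟩ := hx
  rw [sumS f x hv α, sumS f x hv β]
  have h1 : ∑ i : Fin 5, ∑ j : Fin ((Function.update (fun _ => c) 3 t : Fin 5 → ℕ) i),
      ∑ v ∈ f i j, α v ≤
      ∑ i : Fin 5, ∑ j : Fin ((Function.update (fun _ => c) 3 t : Fin 5 → ℕ) i),
      (∑ v ∈ f i j, β v + (if i = 3 then 0 else C * ((i : ℕ) + 1))) := by
    refine sum_le_sum fun i _ => sum_le_sum fun j _ => ?_
    obtain ⟨h5, h6⟩ := hf i j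
    split_ifs with h7
    · rw [add_zero]
      apply h4 _ h5
      rw [h6, h7]; rfl
    · have := h _ h5
      rwa [h6] at this
  refine h1.trans (le_of_eq ?_)
  simp only [sum_add_distrib]
  congr 1
  simp only [sum_const, card_univ, Fintype.card_fin, smul_eq_mul]
  rw [Fin.sum_univ_five]
  simp [Function.update]
  ring

theorem mass {V : Type} [Fintype V] {Δ : Finset (Finset V)} {c t : ℕ} {x : V → ℕ}
    (hx : x ∈ S 5 Δ (Function.update (fun _ => c) 3 t)) :
    ∑ v, x v = 4 * t + 11 * c := by
  obtain ⟨f, hf, hv⟩ := hx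
  have h1 := sumS f x hv (fun _ => 1)
  simp only [one_mul, sum_const, smul_eq_mul, mul_one] at h1
  rw [h1]
  have h2 : ∀ (i : Fin 5) (j : Fin ((Function.update (fun _ => c) 3 t : Fin 5 → ℕ) i)),
      (f i j).card = (i : ℕ) + 1 := fun i j => (hf i j).2
  simp only [h2, sum_const, card_univ, Fintype.card_fin, smul_eq_mul]
  rw [Fin.sum_univ_five]
  simp [Function.update]
  ring

/-- the region -/
def Reg (M p c D : ℕ) : Set (VV M p → ℕ) :=
  {x | ∑ v, x v = D ∧
    (∑ u, x (Sum.inl (Sum.inl u))) + 3 * (∑ w, x (Sum.inl (Sum.inr (Sum.inl w)))) ≤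
      ∑ v : V0 p, x (Sum.inl v) + 33 * c ∧
    ∀ (j : Fin M) (i : Fin 6), 4 * x (Sum.inr (j, i)) ≤ ∑ i', x (Sum.inr (j, i')) + 44 * c}

theorem fin_mass {W : Type} [Fintype W] (D : ℕ) : {x : W → ℕ | ∑ v, x v = D}.Finite := by
  classical
  refine (Set.finite_Iic (fun _ : W => D)).subset ?_
  intro x hx v
  have := single_le_sum (f := x) (fun i _ => Nat.zero_le _) (mem_univ v)
  exact this.trans (le_of_eq hx)

theorem reg_fin (M p c D : ℕ) : (Reg M p c D).Finite :=
  (fin_mass D).subset fun _ hx => hx.1

theorem sub (M p c t : ℕ) : S 5 (DD M p) (Function.update (fun _ => c) 3 t) ⊆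
    Reg M p c (4 * t + 11 * c) := by
  classical
  intro x hx
  refine ⟨mass hx, ?_, ?_⟩
  · -- main component
    let α : VV M p → ℕ := Sum.elim (Sum.elim (fun _ => 1) (Sum.elim (fun _ => 3) (fun _ => 0)))
      (fun _ => 0)
    let β : VV M p → ℕ := Sum.elim (fun _ => 1) (fun _ => 0)
    have hα : ∑ v, α v * x v =
        (∑ u, x (Sum.inl (Sum.inl u))) + 3 * (∑ w, x (Sum.inl (Sum.inr (Sum.inl w)))) := by
      rw [Fintype.sum_sum_type, Fintype.sum_sum_type, Fintype.sum_sum_type]
      simp only [α, Sum.elim_inl, Sum.elim_inr, one_mul, zero_mul, sum_const_zero, add_zero,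
        mul_sum]
    have hβ : ∑ v, β v * x v = ∑ v : V0 p, x (Sum.inl v) := by
      rw [Fintype.sum_sum_type]
      simp only [β, Sum.elim_inl, Sum.elim_inr, one_mul, zero_mul, sum_const_zero, add_zero]
    have hk := key hx α β 3 ?_ ?_
    · rw [hα, hβ] at hk
      omega
    · intro F hF hc
      unfold DD at hF
      rw [mem_filter] at hF
      rcases hF.2 with ⟨G, hG, rfl⟩ | ⟨j, hj⟩
      · rw [sum_map, sum_map]
        simp only [β, α, Function.Embedding.inl_apply, Sum.elim_inl, sum_const, smul_eq_mul,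
          mul_one]
        rw [card_map] at hc
        rw [hc]
        unfold D0 at hG
        rw [mem_filter] at hG
        rcases hG.2 with ⟨_, h2⟩ | ⟨h1, h2⟩
        · calc ∑ v ∈ G, Sum.elim (fun _ => 1) (Sum.elim (fun _ => 3) (fun _ => 0)) v
              = ∑ v ∈ G, 1 := by
                refine sum_congr rfl fun v hv => ?_
                obtain ⟨u, rfl⟩ := h2 v hv
                rfl
            _ ≤ 4 := by rw [sum_const, smul_eq_mul, hc]
        · -- type B
          have e : ∀ v : V0 p, (Sum.elim (fun _ => 1) (Sum.elim (fun _ => 3) (fun _ => 0)) v : ℕ) =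
              (if ∃ u, v = Sum.inl u then 1 else 0) +
              3 * (if ∃ w, v = Sum.inr (Sum.inl w) then 1 else 0) := by
            intro v
            rcases v with u | w | z <;> simp
          simp only [e, sum_add_distrib, ← mul_sum, ← card_filter]
          refine le_trans (add_le_add (?_ : _ ≤ 1) (Nat.mul_le_mul_left 3 (?_ : _ ≤ 1)))
            (by norm_num)
          · rw [card_le_one]
            intro a ha b hb
            rw [mem_filter] at ha hb
            obtain ⟨ha, u, rfl⟩ := ha
            obtain ⟨hb, u', rfl⟩ := hb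
            rw [h1 u u' ha hb]
          · rw [card_le_one]
            intro a ha b hb
            rw [mem_filter] at ha hb
            obtain ⟨ha, u, rfl⟩ := ha
            obtain ⟨hb, u', rfl⟩ := hb
            rw [h2 u u' ha hb]
      · have : ∑ v ∈ F, α v = 0 := by
          refine sum_eq_zero fun v hv => ?_
          obtain ⟨i, rfl⟩ := hj v hv
          rfl
        omega
    · intro F _
      have : ∑ v ∈ F, α v ≤ ∑ v ∈ F, 3 := by
        refine sum_le_sum fun v _ => ?_
        rcases v with (u | w | z) | v <;> simp [α]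
      rw [sum_const, smul_eq_mul] at this
      omega
  · intro j i
    let α : VV M p → ℕ := fun v => if v = Sum.inr (j, i) then 4 else 0
    let β : VV M p → ℕ := fun v => if ∃ i', v = Sum.inr (j, i') then 1 else 0
    have hα : ∑ v, α v * x v = 4 * x (Sum.inr (j, i)) := by
      rw [sum_eq_single (Sum.inr (j, i))]
      · simp [α]
      · intro v _ hv
        simp [α, hv]
      · simp
    have hβ : ∑ v, β v * x v = ∑ i', x (Sum.inr (j, i')) := by
      rw [Fintype.sum_sum_type, Fintype.sum_prod_type]
      have e1 : ∑ v : V0 p, β (Sum.inl v) * x (Sum.inl v) = 0 := by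
        refine sum_eq_zero fun v _ => ?_
        simp [β]
      rw [e1, zero_add, sum_eq_single j]
      · refine sum_congr rfl fun i' _ => ?_
        simp [β]
      · intro j' _ hj'
        refine sum_eq_zero fun i' _ => ?_
        simp [β, hj']
      · simp
    have hk := key hx α β 4 ?_ ?_
    · rw [hα, hβ] at hk
      omega
    · intro F hF hc
      by_cases hm : (Sum.inr (j, i) : VV M p) ∈ F
      · unfold DD at hF
        rw [mem_filter] at hF
        rcases hF.2 with ⟨G, hG, rfl⟩ | ⟨j', hj'⟩
        · simp at hm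
        · have hjj : j = j' := by
            obtain ⟨i', h⟩ := hj' _ hm
            have := Sum.inr.inj h
            exact (Prod.ext_iff.1 this).1
          subst hjj
          have e1 : ∑ v ∈ F, β v = 4 := by
            have : ∑ v ∈ F, β v = ∑ v ∈ F, 1 := by
              refine sum_congr rfl fun v hv => ?_
              simp only [β]
              rw [if_pos (hj' v hv)]
            rw [this, sum_const, hc]; rfl
          rw [e1]
          simp only [α]
          rw [sum_ite_eq' F]
          split_ifs <;> omega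
      · simp only [α]
        rw [sum_ite_eq' F, if_neg hm]
        omega
    · intro F _
      simp only [α]
      rw [sum_ite_eq' F]
      split_ifs with hm
      · have := card_pos.2 ⟨_, hm⟩
        omega
      · omega

/-- the simplex part -/
def GS (c s : ℕ) : Set (Fin 6 → ℕ) := {x | ∑ v, x v = s ∧ ∀ i, 4 * x i ≤ s + 44 * c}

theorem gs_fin (c s : ℕ) : (GS c s).Finite := (fin_mass s).subset fun _ hx => hx.1

theorem count (M p c : ℕ) : ∀ D : ℕ, ((Reg M p c D).ncard : ℝ) ≤ cp (F0 p c) (G6 c) M D := by
  induction M with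
  | zero =>
    intro D
    unfold cp F0
    norm_cast
    refine Set.ncard_le_ncard_of_injOn (fun x v => x (Sum.inl v)) ?_ ?_
      ((fin_mass D).subset fun _ hx => hx.1)
    · intro x hx
      obtain ⟨h1, h2, _⟩ := hx
      rw [Fintype.sum_sum_type] at h1
      have h3 : ∑ v : Fin 0 × Fin 6, x (Sum.inr v) = 0 := by simp
      rw [h3, add_zero] at h1
      refine ⟨h1, ?_⟩
      rw [h1] at h2
      exact h2
    · intro x _ y _ h
      funext v
      rcases v with v | ⟨j, _⟩
      · exact congrFun h v
      · exact j.elim0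
  | succ M ih =>
    intro D
    have h1 : (Reg (M + 1) p c D).ncard ≤
        (⋃ ab ∈ antidiagonal D, (Reg M p c ab.1 ×ˢ GS c ab.2)).ncard := by
      refine Set.ncard_le_ncard_of_injOn (fun x => ((fun v => Sum.elim (fun w => x (Sum.inl w))
        (fun w => x (Sum.inr (w.1.castSucc, w.2))) v : VV M p → ℕ),
        (fun i => x (Sum.inr (Fin.last M, i)) : Fin 6 → ℕ))) ?_ ?_
        (Set.Finite.biUnion (Finset.finite_toSet _)
          fun ab _ => (reg_fin M p c ab.1).prod (gs_fin c ab.2))
      · intro x hx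
        obtain ⟨h1, h2, h3⟩ := hx
        rw [Fintype.sum_sum_type, Fintype.sum_prod_type, Fin.sum_univ_castSucc] at h1
        simp only [Set.mem_iUnion, HasAntidiagonal.mem_antidiagonal, exists_prop]
        refine ⟨(∑ v : V0 p, x (Sum.inl v) + ∑ j : Fin M, ∑ i : Fin 6, x (Sum.inr (j.castSucc, i)),
          ∑ i : Fin 6, x (Sum.inr (Fin.last M, i))), ?_, ?_⟩
        · show _ + _ = D
          omega
        · refine Set.mk_mem_prod ⟨?_, ?_, ?_⟩ ⟨rfl, ?_⟩
          · rw [Fintype.sum_sum_type, Fintype.sum_prod_type]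
            rfl
          · exact h2
          · intro j i
            exact h3 j.castSucc i
          · intro i
            exact h3 (Fin.last M) i
      · intro x _ y _ h
        have h1 := congrFun (Prod.ext_iff.1 h).1
        have h2 := congrFun (Prod.ext_iff.1 h).2
        funext v
        rcases v with v | ⟨j, i⟩
        · exact h1 (Sum.inl v)
        · induction j using Fin.lastCases with
          | last => exact h2 i
          | cast j => exact h1 (Sum.inr (j, i))
    have h2 : (⋃ ab ∈ antidiagonal D, (Reg M p c ab.1 ×ˢ GS c ab.2)).ncard ≤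
        ∑ ab ∈ antidiagonal D, (Reg M p c ab.1 ×ˢ GS c ab.2).ncard :=
      Finset.set_ncard_biUnion_le _ _
    have h3 : ((Reg (M + 1) p c D).ncard : ℝ) ≤
        ∑ ab ∈ antidiagonal D, ((Reg M p c ab.1 ×ˢ GS c ab.2).ncard : ℝ) := by
      exact_mod_cast h1.trans h2
    refine h3.trans ?_
    show _ ≤ conv (cp (F0 p c) (G6 c) M) (G6 c) D
    unfold conv
    refine sum_le_sum fun ab _ => ?_
    rw [Set.ncard_prod]
    push_cast
    exact mul_le_mul_of_nonneg_right (ih ab.1) (by positivity)

theorem up : S_UP := by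
  intro M p c t
  refine le_trans ?_ (count M p c _)
  exact_mod_cast Set.ncard_le_ncard (sub M p c t) (reg_fin M p c _)

end Pool.Agent.R686.MU.UP
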